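import Pool.Graph.R_seed8.R331.LF.Cantelli
import Pool.Graph.R_pool_sql_team_seeded_47a924f7.T6.H60.BD.R

set_option autoImplicit false

/-!
The covering argument: sums over integer vectors, and the covering sets.
-/

namespace Pool.Agent.KS6_51.BW

open MeasureTheory Filter Topology Set
open scoped ENNReal
open Pool.Agent.T6.H60.BC (nd pr nd_nonneg nd_le_sub)
open Pool.Agent.T6.H60.BD (PtB)

theorem tsum_pi_prod (g : ℤ → ℝ≥0∞) : ∀ n : ℕ, ∑' c : Fin n → ℤ, ∏ j, g (c j) = (∑' z, g z) ^ n := by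
  intro n
  induction n with
  | zero =>
    rw [tsum_fintype]
    simp
  | succ n ih =>
    rw [← (Fin.consEquiv (fun _ : Fin (n + 1) => ℤ)).tsum_eq, ENNReal.tsum_prod', pow_succ', ← ih, ← ENNReal.tsum_mul_right]
    apply tsum_congr
    intro z
    rw [← ENNReal.tsum_mul_left]
    apply tsum_congr
    intro c
    rw [Fin.prod_univ_succ]
    simp [Fin.consEquiv]

theorem int_sum_ne_top {p : ℝ} (hp : 1 < p) : ∑' z : ℤ, ENNReal.ofReal ((1 + |(z : ℝ)|) ^ (-p)) ≠ ⊤ := by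
  have h1 : Summable fun n : ℕ => (1 + (n : ℝ)) ^ (-p) := by
    have h2 : Summable fun n : ℕ => ((n : ℝ)) ^ (-p) := Real.summable_nat_rpow.mpr (by linarith)
    have h3 := (summable_nat_add_iff 1).mpr h2
    refine h3.congr fun n => ?_
    push_cast
    rw [add_comm]
  have h2 : Summable fun z : ℤ => (1 + |(z : ℝ)|) ^ (-p) := by
    apply Summable.of_nat_of_neg
    · simpa using h1
    · simpa using h1
  rw [← ENNReal.ofReal_tsum_of_nonneg (fun z => by positivity) h2]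
  exact ENNReal.ofReal_ne_top

/-- the covering sets -/
def TT (d R : ℕ) (Q : ℕ → ℕ → ℝ) (k a : ℕ) (c m : Fin d → ℤ) (l : ℕ) : Set (Fin d → ℝ) :=
  {v | (∀ j, |v j| ≤ R) ∧ ∏ j, (1 + |(c j : ℝ)|) ^ 2 ≤ Q k a ∧
    ∃ y : ℝ, 2 ^ k + l / 2 ^ a ≤ y ∧ y ≤ 2 ^ k + (l + 1) / 2 ^ a ∧
      ∀ j, m j + c j / 2 ^ a ≤ v j * y ∧ v j * y ≤ m j + (c j + 1) / 2 ^ a}

theorem TT_diam (d R : ℕ) (Q : ℕ → ℕ → ℝ) (k a : ℕ) (c m : Fin d → ℤ) (l : ℕ) :
    Metric.ediam (TT d R Q k a c m l) ≤ ENNReal.ofReal ((1 + R) / (2 ^ a * 2 ^ k)) := by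
  apply Metric.ediam_le
  rintro v ⟨h1, _, y, hy1, hy2, hv⟩ v' ⟨h1', _, y', hy1', hy2', hv'⟩
  rw [edist_dist]
  apply ENNReal.ofReal_le_ofReal
  rw [dist_pi_le_iff (by positivity)]
  intro j
  have ha : (0 : ℝ) < 2 ^ a := by positivity
  have hk : (0 : ℝ) < 2 ^ k := by positivity
  have hl : (0 : ℝ) ≤ l / 2 ^ a := by positivity
  have hyk : 2 ^ k ≤ y := by linarith
  have hy0 : 0 < y := by linarith
  have e1 : |y' - y| ≤ 1 / 2 ^ a := by
    rw [add_div] at hy2 hy2'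
    rw [abs_le]
    constructor <;> linarith
  have e2 : |v j * y - v' j * y'| ≤ 1 / 2 ^ a := by
    have a1 := hv j
    have a2 := hv' j
    rw [add_div] at a1 a2
    rw [abs_le]
    constructor <;> linarith [a1.1, a1.2, a2.1, a2.2]
  have e3 : (v j - v' j) * y = (v j * y - v' j * y') + v' j * (y' - y) := by ring
  have e4 : |v j - v' j| * y ≤ (1 + R) / 2 ^ a := by
    rw [← abs_of_pos hy0, ← abs_mul, e3]
    calc |v j * y - v' j * y' + v' j * (y' - y)| ≤ |v j * y - v' j * y'| + |v' j * (y' - y)| := abs_add_le _ _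
      _ ≤ 1 / 2 ^ a + R * (1 / 2 ^ a) := by
          rw [abs_mul]
          gcongr
          exact h1' j
      _ = (1 + R) / 2 ^ a := by ring
  rw [Real.dist_eq, le_div_iff₀ (by positivity)]
  calc |v j - v' j| * (2 ^ a * 2 ^ k) = (|v j - v' j| * 2 ^ k) * 2 ^ a := by ring
    _ ≤ (|v j - v' j| * y) * 2 ^ a := by gcongr
    _ ≤ ((1 + R) / 2 ^ a) * 2 ^ a := by gcongr
    _ = 1 + R := by field_simp

/-- the index type -/
abbrev Ix (d R : ℕ) : Type := Σ ka : ℕ × ℕ, (Fin d → ℤ) × ((Fin d → Fin (R * 2 ^ (ka.1 + 2) + 3)) × Fin (2 ^ (ka.1 + ka.2) + 1))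

/-- the covering set with an index -/
def TI (d R : ℕ) (Q : ℕ → ℕ → ℝ) (i : Ix d R) : Set (Fin d → ℝ) :=
  TT d R Q i.1.1 i.1.2 i.2.1 (fun j => ((i.2.2.1 j : ℕ) : ℤ) - (R * 2 ^ (i.1.1 + 1) + 1)) i.2.2.2

theorem sum_TI {d R : ℕ} {η E' s Θ : ℝ} (hs : 0 < s) (hΘ0 : 1 / 2 < Θ)
    (h1 : (d : ℝ) + 1 - s - Θ * η < 0) (h2 : 1 - s + Θ * E' < 0) :
    ∑' i : Ix d R, Metric.ediam (TI d R (fun k a => (2 : ℝ) ^ (a * E' - k * η)) i) ^ s ≠ ⊤ := by
  set Q : ℕ → ℕ → ℝ := fun k a => (2 : ℝ) ^ (a * E' - k * η) with hQ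
  set K : ℝ := (4 * R + 3) ^ d * 2 * (1 + R) ^ s with hK
  set X : ℝ := (2 : ℝ) ^ ((d : ℝ) + 1 - s - Θ * η) with hX
  set Y : ℝ := (2 : ℝ) ^ (1 - s + Θ * E') with hY
  have hbound : ∀ ka : ℕ × ℕ, ∀ c : Fin d → ℤ,
      ∑' (p : (Fin d → Fin (R * 2 ^ (ka.1 + 2) + 3)) × Fin (2 ^ (ka.1 + ka.2) + 1)),
        Metric.ediam (TI d R Q ⟨ka, c, p⟩) ^ s ≤
      ENNReal.ofReal (K * X ^ ka.1 * Y ^ ka.2) * ∏ j, ENNReal.ofReal ((1 + |(c j : ℝ)|) ^ (-(2 * Θ))) := by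
    rintro ⟨k, a⟩ c
    simp only
    have hprod : (0 : ℝ) < ∏ j, (1 + |(c j : ℝ)|) ^ 2 := Finset.prod_pos fun j _ => by positivity
    have hQ0 : 0 < Q k a := by rw [hQ]; positivity
    -- one term
    have hterm : ∀ p : (Fin d → Fin (R * 2 ^ (k + 2) + 3)) × Fin (2 ^ (k + a) + 1),
        Metric.ediam (TI d R Q ⟨(k, a), c, p⟩) ^ s ≤
          ENNReal.ofReal (((1 + R) / (2 ^ a * 2 ^ k)) ^ s * (Q k a / ∏ j, (1 + |(c j : ℝ)|) ^ 2) ^ Θ) := by
      intro p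
      by_cases hc : ∏ j, (1 + |(c j : ℝ)|) ^ 2 ≤ Q k a
      · calc Metric.ediam (TI d R Q ⟨(k, a), c, p⟩) ^ s
            ≤ ENNReal.ofReal ((1 + R) / (2 ^ a * 2 ^ k)) ^ s := ENNReal.rpow_le_rpow (TT_diam _ _ _ _ _ _ _ _) hs.le
          _ = ENNReal.ofReal (((1 + R) / (2 ^ a * 2 ^ k)) ^ s) := ENNReal.ofReal_rpow_of_nonneg (by positivity) hs.le
          _ ≤ _ := by
              apply ENNReal.ofReal_le_ofReal
              apply le_mul_of_one_le_right (by positivity)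
              apply Real.one_le_rpow _ (by linarith)
              rw [le_div_iff₀ hprod]
              linarith
      · have : TI d R Q ⟨(k, a), c, p⟩ = ∅ := by
          apply Set.eq_empty_of_forall_notMem
          rintro v ⟨_, h3, _⟩
          exact hc h3
        rw [this, Metric.ediam_empty, ENNReal.zero_rpow_of_pos hs]
        exact zero_le
    rw [tsum_fintype]
    refine (Finset.sum_le_sum fun p _ => hterm p).trans ?_
    rw [Finset.sum_const, nsmul_eq_mul, Finset.card_univ, Fintype.card_prod, Fintype.card_fun, Fintype.card_fin,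
      Fintype.card_fin, Fintype.card_fin]
    have hcast : (((R * 2 ^ (k + 2) + 3) ^ d * (2 ^ (k + a) + 1) : ℕ) : ℝ≥0∞) =
        ENNReal.ofReal (((R : ℝ) * 2 ^ (k + 2) + 3) ^ d * (2 ^ (k + a) + 1)) := by
      rw [← ENNReal.ofReal_natCast]
      congr 1
      push_cast
      ring
    rw [hcast, ← ENNReal.ofReal_mul (by positivity), ← ENNReal.ofReal_prod_of_nonneg (fun j _ => by positivity),
      ← ENNReal.ofReal_mul (by positivity)]
    apply ENNReal.ofReal_le_ofReal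
    have hk1 : (1 : ℝ) ≤ 2 ^ k := one_le_pow₀ (by norm_num)
    have hk2 : (1 : ℝ) ≤ 2 ^ (k + a) := one_le_pow₀ (by norm_num)
    have b1 : ((R : ℝ) * 2 ^ (k + 2) + 3) ^ d * (2 ^ (k + a) + 1) ≤ (((4 * R + 3) * 2 ^ k) ^ d) * (2 * 2 ^ (k + a)) := by
      have c1 : (R : ℝ) * 2 ^ (k + 2) + 3 ≤ (4 * R + 3) * 2 ^ k := by
        rw [pow_add]
        nlinarith [(Nat.cast_nonneg R : (0 : ℝ) ≤ R)]
      have c2 : (2 : ℝ) ^ (k + a) + 1 ≤ 2 * 2 ^ (k + a) := by linarith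
      gcongr
    have hz : (∏ j, (1 + |(c j : ℝ)|) ^ (-(2 * Θ))) = (∏ j, (1 + |(c j : ℝ)|) ^ 2) ^ (-Θ) := by
      rw [← Real.finsetProd_rpow _ _ (fun j _ => by positivity)]
      apply Finset.prod_congr rfl
      intro j _
      rw [← Real.rpow_natCast, ← Real.rpow_mul (by positivity)]
      congr 1
      push_cast
      ring
    have hX0 : X ^ k = (2 : ℝ) ^ (k * ((d : ℝ) + 1 - s - Θ * η)) := by
      rw [hX, ← Real.rpow_natCast, ← Real.rpow_mul (by norm_num)]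
      congr 1
      ring
    have hY0 : Y ^ a = (2 : ℝ) ^ (a * (1 - s + Θ * E')) := by
      rw [hY, ← Real.rpow_natCast, ← Real.rpow_mul (by norm_num)]
      congr 1
      ring
    calc ((R : ℝ) * 2 ^ (k + 2) + 3) ^ d * (2 ^ (k + a) + 1) *
          (((1 + R) / (2 ^ a * 2 ^ k)) ^ s * (Q k a / ∏ j, (1 + |(c j : ℝ)|) ^ 2) ^ Θ)
        ≤ ((((4 * R + 3) * 2 ^ k) ^ d) * (2 * 2 ^ (k + a))) *
          (((1 + R) / (2 ^ a * 2 ^ k)) ^ s * (Q k a / ∏ j, (1 + |(c j : ℝ)|) ^ 2) ^ Θ) := by gcongr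
      _ = K * X ^ k * Y ^ a * ∏ j, (1 + |(c j : ℝ)|) ^ (-(2 * Θ)) := by
          rw [hz, hX0, hY0, hK, Real.div_rpow (by positivity) (by positivity), Real.div_rpow hQ0.le hprod.le,
            Real.mul_rpow (by positivity) (by positivity), Real.rpow_neg hprod.le, mul_pow, pow_add]
          have d1 : ((2 : ℝ) ^ a) ^ s = 2 ^ (a * s) := by
            rw [← Real.rpow_natCast, ← Real.rpow_mul (by norm_num)]
          have d2 : ((2 : ℝ) ^ k) ^ s = 2 ^ (k * s) := by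
            rw [← Real.rpow_natCast, ← Real.rpow_mul (by norm_num)]
          have d3 : (Q k a) ^ Θ = 2 ^ ((a * E' - k * η) * Θ) := by
            rw [hQ]
            simp only
            rw [← Real.rpow_mul (by norm_num)]
          have d4 : ((2 : ℝ) ^ k) ^ d = 2 ^ ((k : ℝ) * d) := by
            rw [← Real.rpow_natCast, ← Real.rpow_natCast, ← Real.rpow_mul (by norm_num)]
          have d5 : (2 : ℝ) ^ k = 2 ^ (k : ℝ) := (Real.rpow_natCast _ _).symm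
          have d6 : (2 : ℝ) ^ a = 2 ^ (a : ℝ) := (Real.rpow_natCast _ _).symm
          rw [d1, d2, d3, d4, d5, d6]
          have e1 : (2 : ℝ) ^ ((k : ℝ) * ((d : ℝ) + 1 - s - Θ * η)) * 2 ^ ((a : ℝ) * (1 - s + Θ * E')) *
              (2 ^ (a * s) * 2 ^ (k * s)) = 2 ^ ((k : ℝ) * d) * (2 ^ (k : ℝ) * 2 ^ (a : ℝ)) * 2 ^ ((a * E' - k * η) * Θ) := by
            rw [← Real.rpow_add (by norm_num), ← Real.rpow_add (by norm_num), ← Real.rpow_add (by norm_num),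
              ← Real.rpow_add (by norm_num), ← Real.rpow_add (by norm_num), ← Real.rpow_add (by norm_num)]
            congr 1
            ring
          have hne : (2 : ℝ) ^ (a * s) * 2 ^ (k * s) ≠ 0 := by positivity
          have e2 : (2 : ℝ) ^ ((k : ℝ) * ((d : ℝ) + 1 - s - Θ * η)) * 2 ^ ((a : ℝ) * (1 - s + Θ * E')) =
              2 ^ ((k : ℝ) * d) * (2 ^ (k : ℝ) * 2 ^ (a : ℝ)) * 2 ^ ((a * E' - k * η) * Θ) / (2 ^ (a * s) * 2 ^ (k * s)) := by
            rw [← e1]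
            field_simp
          have e3 : ((4 * (R : ℝ) + 3) ^ d * 2 * (1 + R) ^ s) * 2 ^ ((k : ℝ) * ((d : ℝ) + 1 - s - Θ * η)) *
              2 ^ ((a : ℝ) * (1 - s + Θ * E')) = ((4 * (R : ℝ) + 3) ^ d * 2 * (1 + R) ^ s) *
              (2 ^ ((k : ℝ) * ((d : ℝ) + 1 - s - Θ * η)) * 2 ^ ((a : ℝ) * (1 - s + Θ * E'))) := by ring
          rw [e3, e2]
          field_simp
  have hX1 : X < 1 := Real.rpow_lt_one_of_one_lt_of_neg (by norm_num) h1
  have hY1 : Y < 1 := Real.rpow_lt_one_of_one_lt_of_neg (by norm_num) h2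
  have hX00 : 0 < X := by positivity
  have hY00 : 0 < Y := by positivity
  have hgeo : ∀ x : ℝ, 0 < x → x < 1 → ∑' n : ℕ, ENNReal.ofReal x ^ n ≠ ⊤ := by
    intro x hx0 hx1
    rw [ENNReal.tsum_geometric, ENNReal.inv_ne_top]
    have h3 : ENNReal.ofReal x < 1 := by
      rw [← ENNReal.ofReal_one]
      exact (ENNReal.ofReal_lt_ofReal_iff one_pos).2 hx1
    exact (tsub_pos_of_lt h3).ne'
  set S₀ : ℝ≥0∞ := ∑' z : ℤ, ENNReal.ofReal ((1 + |(z : ℝ)|) ^ (-(2 * Θ))) with hS₀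
  have hS₀t : S₀ ≠ ⊤ := int_sum_ne_top (by linarith)
  refine ne_top_of_le_ne_top (b := ENNReal.ofReal K * ((∑' n : ℕ, ENNReal.ofReal X ^ n) * (∑' n : ℕ, ENNReal.ofReal Y ^ n)) * S₀ ^ d) ?_ ?_
  · exact ENNReal.mul_ne_top (ENNReal.mul_ne_top ENNReal.ofReal_ne_top
      (ENNReal.mul_ne_top (hgeo X hX00 hX1) (hgeo Y hY00 hY1))) (ENNReal.pow_ne_top hS₀t)
  · rw [ENNReal.tsum_sigma']
    calc ∑' (ka : ℕ × ℕ) (b : (Fin d → ℤ) × ((Fin d → Fin (R * 2 ^ (ka.1 + 2) + 3)) × Fin (2 ^ (ka.1 + ka.2) + 1))),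
          Metric.ediam (TI d R Q ⟨ka, b⟩) ^ s
        ≤ ∑' (ka : ℕ × ℕ), ENNReal.ofReal (K * X ^ ka.1 * Y ^ ka.2) * S₀ ^ d := by
          apply ENNReal.tsum_le_tsum
          intro ka
          rw [ENNReal.tsum_prod']
          refine (ENNReal.tsum_le_tsum fun c => hbound ka c).trans ?_
          rw [ENNReal.tsum_mul_left, tsum_pi_prod (fun z : ℤ => ENNReal.ofReal ((1 + |(z : ℝ)|) ^ (-(2 * Θ))))]
      _ = _ := by
          rw [ENNReal.tsum_mul_right]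
          congr 1
          rw [ENNReal.tsum_prod', ← ENNReal.tsum_mul_right, ← ENNReal.tsum_mul_left]
          apply tsum_congr
          intro k
          rw [← ENNReal.tsum_mul_left, ← ENNReal.tsum_mul_left]
          apply tsum_congr
          intro a
          simp only
          rw [ENNReal.ofReal_mul (by positivity), ENNReal.ofReal_mul (by positivity), ENNReal.ofReal_pow hX00.le,
            ENNReal.ofReal_pow hY00.le, mul_assoc]

end Pool.Agent.KS6_51.BW
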