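import Pool.Agent.KS6_51.BW.C1

set_option autoImplicit false

/-!
The upper bound for the dimension of the exceptional set in parameter space.
-/

namespace Pool.Agent.KS6_51.BW

open MeasureTheory Filter Topology Set
open scoped ENNReal
open Pool.Agent.T6.H60.BC (nd pr nd_nonneg nd_le_sub pr_le pr_nonneg)
open Pool.Agent.T6.H60.BD (PtB)

/-- the points for which the pointwise criterion fails for a given `ε` -/
def NE (d : ℕ) (σ β ε : ℝ) : Set (Fin d → ℝ) :=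
  {v | ∀ C : ℝ, 0 ≤ C → ∃ y δ : ℝ, 1 ≤ y ∧ 0 < δ ∧ δ ≤ 1 ∧
    C * δ ^ (-(2 * σ)) * (y / δ) ^ (β + ε) < pr v δ y}

theorem pt_rhs' {σ β ε y δ : ℝ} (hy : 0 < y) (hδ : 0 < δ) :
    δ ^ (-(2 * σ)) * (y / δ) ^ (β + ε) = y ^ (β + ε) * δ ^ (-(2 * σ + β + ε)) := by
  have e1 : -(2 * σ + β + ε) = -(2 * σ) + -(β + ε) := by ring
  rw [e1, Real.rpow_add hδ, Real.div_rpow hy.le hδ.le, Real.rpow_neg hδ.le (β + ε)]
  field_simp

theorem pr_le' {d : ℕ} (v : Fin d → ℝ) {δ : ℝ} (hδ : 0 < δ) (y : ℝ) : pr v δ y ≤ δ ^ (-(2 * (d : ℝ))) := by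
  refine (pr_le v hδ y).trans (le_of_eq ?_)
  rw [← Real.rpow_natCast (δ) 2, ← Real.rpow_neg hδ.le, ← Real.rpow_natCast _ d, ← Real.rpow_mul hδ.le]
  congr 1
  push_cast
  ring

/-- the consequence of the failure for `δ` -/
theorem delta_small {d : ℕ} {v : Fin d → ℝ} {σ β ε y δ C : ℝ} (hβ : 0 < β) (hε : 0 < ε) (hy : 1 ≤ y) (hδ : 0 < δ)
    (hC : 0 ≤ C) (h : C * δ ^ (-(2 * σ)) * (y / δ) ^ (β + ε) < pr v δ y) :
    C < δ ^ (-(2 * ((d : ℝ) - σ) - β - ε)) := by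
  have hy0 : 0 < y := by linarith
  have h1 := h.trans_le (pr_le' v hδ y)
  rw [mul_assoc, pt_rhs' hy0 hδ] at h1
  have h2 : 1 ≤ y ^ (β + ε) := Real.one_le_rpow hy (by linarith)
  have h3 : 0 < δ ^ (-(2 * σ + β + ε)) := by positivity
  have h4 : C * δ ^ (-(2 * σ + β + ε)) < δ ^ (-(2 * (d : ℝ))) := by
    refine lt_of_le_of_lt ?_ h1
    apply mul_le_mul_of_nonneg_left _ hC
    exact le_mul_of_one_le_left h3.le h2
  have h5 : δ ^ (-(2 * (d : ℝ))) = δ ^ (-(2 * ((d : ℝ) - σ) - β - ε)) * δ ^ (-(2 * σ + β + ε)) := by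
    rw [← Real.rpow_add hδ]
    congr 1
    ring
  rw [h5] at h4
  exact lt_of_mul_lt_mul_right h4 h3.le

/-- for large `σ` the criterion holds for all points -/
theorem NE_empty {d : ℕ} {σ β ε : ℝ} (hβ : 0 < β) (hε : 0 < ε) (hσ : 2 * ((d : ℝ) - σ) - β ≤ ε) : NE d σ β ε = ∅ := by
  apply Set.eq_empty_of_forall_notMem
  intro v hv
  obtain ⟨y, δ, hy, hδ, hδ1, h⟩ := hv 1 zero_le_one
  have h1 := delta_small hβ hε hy hδ zero_le_one h
  have h2 : δ ^ (-(2 * ((d : ℝ) - σ) - β - ε)) ≤ 1 := by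
    apply Real.rpow_le_one hδ.le hδ1
    linarith
  linarith

theorem NE_anti {d : ℕ} {σ β ε ε' : ℝ} (h : ε' ≤ ε) : NE d σ β ε ⊆ NE d σ β ε' := by
  intro v hv C hC
  obtain ⟨y, δ, hy, hδ, hδ1, h1⟩ := hv C hC
  refine ⟨y, δ, hy, hδ, hδ1, lt_of_le_of_lt ?_ h1⟩
  have h2 : 1 ≤ y / δ := by
    rw [le_div_iff₀ hδ]
    linarith
  have h3 : (y / δ) ^ (β + ε') ≤ (y / δ) ^ (β + ε) := Real.rpow_le_rpow_of_exponent_le h2 (by linarith)
  have h4 : 0 ≤ C * δ ^ (-(2 * σ)) := by positivity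
  exact mul_le_mul_of_nonneg_left h3 h4

/-- the key inequality for the cells -/
theorem cell_bound {d : ℕ} {v : Fin d → ℝ} {σ β ε y δ C : ℝ} (hβ : 0 < β) (hε : 0 < ε) (hE : 0 < 2 * ((d : ℝ) - σ) - β - ε)
    (hδ : 0 < δ) (hδ1 : δ ≤ 1) (hC : (9 : ℝ) ^ d * 2 ^ (2 * ((d : ℝ) - σ) - β - ε) ≤ C)
    (h : C * δ ^ (-(2 * σ)) * (y / δ) ^ (β + ε) < pr v δ y) {k a : ℕ} (hk : (2 : ℝ) ^ k ≤ y)
    (ha1 : (1 / 2 : ℝ) ^ (a + 1) < δ) (ha2 : δ ≤ (1 / 2 : ℝ) ^ a) (c : Fin d → ℤ)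
    (hc : ∀ j, |(c j : ℝ)| ≤ nd (v j * y) * 2 ^ a + 1) :
    ∏ j, (1 + |(c j : ℝ)|) ^ 2 ≤ (2 : ℝ) ^ (a * (2 * ((d : ℝ) - σ) - β - ε) - k * (β + ε)) := by
  set E' : ℝ := 2 * ((d : ℝ) - σ) - β - ε with hE'
  have hk0 : (0 : ℝ) < 2 ^ k := by positivity
  have hy0 : 0 < y := by linarith
  have hC0 : 0 < C := lt_of_lt_of_le (by positivity) hC
  have h2a : (2 : ℝ) ^ a ≤ 1 / δ := by
    rw [div_pow, one_pow, le_div_iff₀ (by positivity)] at ha2
    rw [le_div_iff₀ hδ]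
    linarith
  have h1 : ∀ j, (1 + |(c j : ℝ)|) ^ 2 ≤ 9 * (δ ^ 2)⁻¹ * (max δ (nd (v j * y))) ^ 2 := by
    intro j
    have a1 : nd (v j * y) * 2 ^ a ≤ nd (v j * y) / δ := by
      rw [div_eq_mul_one_div]
      exact mul_le_mul_of_nonneg_left h2a (nd_nonneg _)
    have a2 : nd (v j * y) / δ ≤ max δ (nd (v j * y)) / δ := by
      gcongr
      exact le_max_right _ _
    have a3 : 1 ≤ max δ (nd (v j * y)) / δ := by
      rw [le_div_iff₀ hδ, one_mul]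
      exact le_max_left _ _
    have a4 : 1 + |(c j : ℝ)| ≤ 3 * (max δ (nd (v j * y)) / δ) := by
      linarith [hc j]
    calc (1 + |(c j : ℝ)|) ^ 2 ≤ (3 * (max δ (nd (v j * y)) / δ)) ^ 2 := by gcongr
      _ = _ := by
        rw [mul_pow, div_pow]
        ring
  have hpos : 0 < ∏ j, (max δ (nd (v j * y))) ^ 2 := by
    apply Finset.prod_pos
    intro j _
    have : 0 < max δ (nd (v j * y)) := lt_max_of_lt_left hδ
    positivity
  have h2 : ∏ j, (1 + |(c j : ℝ)|) ^ 2 ≤ 9 ^ d * ((δ ^ 2)⁻¹) ^ d * (pr v δ y)⁻¹ := by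
    calc ∏ j, (1 + |(c j : ℝ)|) ^ 2 ≤ ∏ j, 9 * (δ ^ 2)⁻¹ * (max δ (nd (v j * y))) ^ 2 :=
          Finset.prod_le_prod (fun j _ => by positivity) fun j _ => h1 j
      _ = 9 ^ d * ((δ ^ 2)⁻¹) ^ d * ∏ j, (max δ (nd (v j * y))) ^ 2 := by
          rw [Finset.prod_mul_distrib, Finset.prod_const, Finset.card_univ, Fintype.card_fin, mul_pow]
      _ = _ := by
          congr 1
          unfold pr
          rw [Finset.prod_inv_distrib, inv_inv]
  have h3 : (pr v δ y)⁻¹ ≤ (C * δ ^ (-(2 * σ)) * (y / δ) ^ (β + ε))⁻¹ := inv_anti₀ (by positivity) h.le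
  have h4 : ((δ ^ 2)⁻¹) ^ d = δ ^ (-E') * δ ^ (-(2 * σ + β + ε)) := by
    rw [← Real.rpow_natCast (δ) 2, ← Real.rpow_neg hδ.le, ← Real.rpow_natCast _ d, ← Real.rpow_mul hδ.le,
      ← Real.rpow_add hδ]
    congr 1
    rw [hE']
    push_cast
    ring
  have h5 : C * δ ^ (-(2 * σ)) * (y / δ) ^ (β + ε) = C * y ^ (β + ε) * δ ^ (-(2 * σ + β + ε)) := by
    rw [mul_assoc, pt_rhs' hy0 hδ]
    ring
  have h6 : δ ^ (-E') ≤ 2 ^ E' * 2 ^ (a * E') := by
    have b1 : δ ^ (-E') ≤ ((1 / 2 : ℝ) ^ (a + 1)) ^ (-E') :=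
      Real.rpow_le_rpow_of_nonpos (by positivity) ha1.le (by linarith)
    refine b1.trans (le_of_eq ?_)
    rw [div_pow, one_pow, one_div, Real.inv_rpow (by positivity), Real.rpow_neg (by positivity), inv_inv,
      ← Real.rpow_natCast, ← Real.rpow_mul (by norm_num), ← Real.rpow_add (by norm_num)]
    congr 1
    push_cast
    ring
  have h7 : (2 : ℝ) ^ (k * (β + ε)) ≤ y ^ (β + ε) := by
    rw [Real.rpow_mul (by norm_num), Real.rpow_natCast]
    exact Real.rpow_le_rpow hk0.le hk (by linarith)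
  have h8 : 0 < δ ^ (-(2 * σ + β + ε)) := by positivity
  have h9 : 0 < y ^ (β + ε) := by positivity
  calc ∏ j, (1 + |(c j : ℝ)|) ^ 2 ≤ 9 ^ d * ((δ ^ 2)⁻¹) ^ d * (pr v δ y)⁻¹ := h2
    _ ≤ 9 ^ d * ((δ ^ 2)⁻¹) ^ d * (C * δ ^ (-(2 * σ)) * (y / δ) ^ (β + ε))⁻¹ := by gcongr
    _ = 9 ^ d * δ ^ (-E') / (C * y ^ (β + ε)) := by
        rw [h4, h5]
        field_simp
    _ ≤ 9 ^ d * (2 ^ E' * 2 ^ (a * E')) / ((9 ^ d * 2 ^ E') * 2 ^ (k * (β + ε))) := by gcongr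
    _ = 2 ^ (a * E' - k * (β + ε)) := by
        rw [div_eq_iff (by positivity)]
        have e1 : (2 : ℝ) ^ (a * E' - k * (β + ε)) * 2 ^ (k * (β + ε)) = 2 ^ (a * E') := by
          rw [← Real.rpow_add (by norm_num)]
          congr 1
          ring
        rw [← e1]
        ring

theorem cover {d R : ℕ} {σ β ε : ℝ} (hβ : 0 < β) (hε : 0 < ε) (hE : 0 < 2 * ((d : ℝ) - σ) - β - ε) {v : Fin d → ℝ}
    (hv : v ∈ NE d σ β ε) (hR : ∀ j, |v j| ≤ R) :
    {i : Ix d R | v ∈ TI d R (fun k a => (2 : ℝ) ^ (a * (2 * ((d : ℝ) - σ) - β - ε) - k * (β + ε))) i}.Infinite := by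
  set E' : ℝ := 2 * ((d : ℝ) - σ) - β - ε with hE'
  intro hfin
  obtain ⟨A, hA⟩ : ∃ A : ℕ, ∀ i : Ix d R, v ∈ TI d R (fun k a => (2 : ℝ) ^ (a * E' - k * (β + ε))) i → i.1.2 ≤ A := by
    obtain ⟨A, hA⟩ := (hfin.image fun i => i.1.2).bddAbove
    exact ⟨A, fun i hi => hA ⟨i, hi, rfl⟩⟩
  set C : ℝ := (9 : ℝ) ^ d * 2 ^ E' + ((2 : ℝ) ^ (A + 2)) ^ E' with hC
  have hC1 : (9 : ℝ) ^ d * 2 ^ E' ≤ C := by
    rw [hC]
    have : 0 < ((2 : ℝ) ^ (A + 2)) ^ E' := by positivity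
    linarith
  have hC2 : ((2 : ℝ) ^ (A + 2)) ^ E' ≤ C := by
    rw [hC]
    have : 0 < (9 : ℝ) ^ d * 2 ^ E' := by positivity
    linarith
  have hC0 : 0 ≤ C := le_trans (by positivity) hC1
  obtain ⟨y, δ, hy, hδ, hδ1, h⟩ := hv C hC0
  have hy0 : 0 < y := by linarith
  -- δ is small
  have hsm : δ < (1 / 2 : ℝ) ^ (A + 2) := by
    have h1 := hC2.trans_lt (delta_small hβ hε hy hδ hC0 h)
    rw [← hE'] at h1
    by_contra hcon
    push Not at hcon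
    have h2 : δ ^ (-E') ≤ ((1 / 2 : ℝ) ^ (A + 2)) ^ (-E') :=
      Real.rpow_le_rpow_of_nonpos (by positivity) hcon (by linarith)
    have h3 : ((1 / 2 : ℝ) ^ (A + 2)) ^ (-E') = ((2 : ℝ) ^ (A + 2)) ^ E' := by
      rw [div_pow, one_pow, one_div, Real.inv_rpow (by positivity), Real.rpow_neg (by positivity), inv_inv]
    linarith
  obtain ⟨a, ha1, ha2⟩ := exists_nat_pow_near_of_lt_one hδ hδ1 (by norm_num : (0:ℝ) < 1/2) (by norm_num)
  obtain ⟨k, hk1, hk2⟩ := exists_nat_pow_near hy (by norm_num : (1 : ℝ) < 2)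
  have haA : A < a := by
    have h1 : (1 / 2 : ℝ) ^ (a + 1) < (1 / 2 : ℝ) ^ (A + 2) := ha1.trans hsm
    have h2 : A + 2 < a + 1 := (pow_lt_pow_iff_right_of_lt_one₀ (by norm_num) (by norm_num)).mp h1
    omega
  have ha0 : (0 : ℝ) < 2 ^ a := by positivity
  have hk0 : (0 : ℝ) < 2 ^ k := by positivity
  -- the cell
  set c : Fin d → ℤ := fun j => ⌊(v j * y - round (v j * y)) * 2 ^ a⌋ with hc
  have hcj : ∀ j, |(c j : ℝ)| ≤ nd (v j * y) * 2 ^ a + 1 := by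
    intro j
    have b1 := Int.floor_le ((v j * y - round (v j * y)) * 2 ^ a)
    have b2 := Int.lt_floor_add_one ((v j * y - round (v j * y)) * 2 ^ a)
    have b3 : |(v j * y - round (v j * y)) * 2 ^ a| = nd (v j * y) * 2 ^ a := by
      rw [abs_mul, abs_of_pos ha0]
      rfl
    rw [← b3]
    have b4 := le_abs_self ((v j * y - round (v j * y)) * 2 ^ a)
    have b5 := neg_abs_le ((v j * y - round (v j * y)) * 2 ^ a)
    rw [abs_le]
    simp only [hc]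
    constructor <;> linarith
  have hcell := cell_bound hβ hε hE hδ hδ1 hC1 h hk1 ha1 ha2 c hcj
  rw [← hE'] at hcell
  -- the index of y
  set l : ℕ := ⌊(y - 2 ^ k) * 2 ^ a⌋₊ with hl
  have hyk : 0 ≤ (y - 2 ^ k) * 2 ^ a := mul_nonneg (by linarith) ha0.le
  have hl1 := Nat.floor_le hyk
  have hl2 := Nat.lt_floor_add_one ((y - 2 ^ k) * 2 ^ a)
  have hl3 : l < 2 ^ (k + a) + 1 := by
    have : (l : ℝ) < 2 ^ (k + a) + 1 := by
      rw [pow_succ] at hk2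
      have : (y - 2 ^ k) * 2 ^ a < 2 ^ k * 2 ^ a := by
        apply mul_lt_mul_of_pos_right _ ha0
        linarith
      rw [pow_add]
      linarith
    exact_mod_cast this
  -- the integers
  have hm : ∀ j, |(round (v j * y) : ℝ)| ≤ R * 2 ^ (k + 1) + 1 := by
    intro j
    have b1 := abs_sub_round (v j * y)
    have b2 : |v j * y| ≤ R * 2 ^ (k + 1) := by
      rw [abs_mul, abs_of_pos hy0]
      have := hR j
      gcongr
    have b3 : |(round (v j * y) : ℝ)| ≤ |v j * y| + |v j * y - round (v j * y)| := by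
      have := abs_sub (v j * y) (v j * y - round (v j * y))
      rwa [sub_sub_cancel] at this
    linarith
  have hmz : ∀ j, |round (v j * y)| ≤ R * 2 ^ (k + 1) + 1 := by
    intro j
    exact_mod_cast hm j
  have hidx : ∀ j, (round (v j * y) + (R * 2 ^ (k + 1) + 1)).toNat < R * 2 ^ (k + 2) + 3 := by
    intro j
    have b1 := abs_le.mp (hmz j)
    have b2 : round (v j * y) + (R * 2 ^ (k + 1) + 1) < ((R * 2 ^ (k + 2) + 3 : ℕ) : ℤ) := by
      push_cast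
      rw [pow_succ (2 : ℤ) (k + 1)]
      linarith
    omega
  have hidx2 : ∀ j, (((round (v j * y) + (R * 2 ^ (k + 1) + 1)).toNat : ℕ) : ℤ) = round (v j * y) + (R * 2 ^ (k + 1) + 1) := by
    intro j
    have b1 := abs_le.mp (hmz j)
    apply Int.toNat_of_nonneg
    linarith
  set i : Ix d R := ⟨(k, a), c, (fun j => ⟨(round (v j * y) + (R * 2 ^ (k + 1) + 1)).toNat, hidx j⟩, ⟨l, hl3⟩)⟩ with hi
  have hmem : v ∈ TI d R (fun k a => (2 : ℝ) ^ (a * E' - k * (β + ε))) i := by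
    refine ⟨hR, hcell, y, ?_, ?_, fun j => ?_⟩
    · simp only [hi]
      have : (l : ℝ) / 2 ^ a ≤ y - 2 ^ k := by
        rw [div_le_iff₀ ha0]
        exact hl1
      linarith
    · simp only [hi]
      have : y - 2 ^ k ≤ ((l : ℝ) + 1) / 2 ^ a := by
        rw [le_div_iff₀ ha0]
        exact hl2.le
      linarith
    · simp only [hi]
      rw [hidx2]
      have b1 := Int.floor_le ((v j * y - round (v j * y)) * 2 ^ a)
      have b2 := Int.lt_floor_add_one ((v j * y - round (v j * y)) * 2 ^ a)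
      have b3 : (c j : ℝ) / 2 ^ a ≤ v j * y - round (v j * y) := by
        rw [div_le_iff₀ ha0]
        exact b1
      have b4 : v j * y - round (v j * y) ≤ ((c j : ℝ) + 1) / 2 ^ a := by
        rw [le_div_iff₀ ha0]
        exact b2.le
      push_cast
      constructor
      · linarith
      · linarith
  exact absurd (hA i hmem) (not_le.mpr haA)

theorem dim_NE_box {d R : ℕ} {σ β ε s : ℝ} (hβ : 0 < β) (hσ : 0 ≤ σ) (hε : 0 < ε) (hE : 0 < 2 * ((d : ℝ) - σ) - β - ε)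
    (hd : 2 * ((d : ℝ) - σ) ≤ d * β)
    (hs : 1 + d * (2 * ((d : ℝ) - σ) - β - ε) / (2 * ((d : ℝ) - σ)) < s) :
    dimH {v | v ∈ NE d σ β ε ∧ ∀ j, |v j| ≤ R} ≤ ENNReal.ofReal s := by
  set E' : ℝ := 2 * ((d : ℝ) - σ) - β - ε with hE'
  set F : ℝ := 2 * ((d : ℝ) - σ) with hF
  have hF0 : 0 < F := by linarith
  have hd0 : 0 < (d : ℝ) := by
    by_contra hcon
    push Not at hcon
    nlinarith
  have hs1 : d * E' / F < s - 1 := by linarith
  have hs2 : d * E' < (s - 1) * F := by rwa [div_lt_iff₀ hF0] at hs1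
  have hs3 : 1 / 2 * E' < s - 1 := by
    have h1 : F * E' ≤ 2 * d * E' := by
      apply mul_le_mul_of_nonneg_right _ hE.le
      linarith
    have h2 : (1 / 2 * E') * F < (s - 1) * F := by linarith
    exact lt_of_mul_lt_mul_right h2 hF0.le
  have hs0 : 0 < s := by
    have : 0 ≤ d * E' / F := by positivity
    linarith
  -- the exponent
  have h1 : max (1 / 2) ((d + 1 - s) / (β + ε)) < (s - 1) / E' := by
    apply max_lt
    · rw [lt_div_iff₀ hE]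
      exact hs3
    · rw [div_lt_div_iff₀ (by linarith) hE]
      have e : F = E' + β + ε := by rw [hE', hF]; ring
      rw [e] at hs2
      nlinarith
  obtain ⟨Θ, hΘ1, hΘ2⟩ := exists_between h1
  have hΘ0 : 1 / 2 < Θ := (le_max_left _ _).trans_lt hΘ1
  have hΘ3 : (d + 1 - s) / (β + ε) < Θ := (le_max_right _ _).trans_lt hΘ1
  rw [div_lt_iff₀ (by linarith)] at hΘ3
  rw [lt_div_iff₀ hE] at hΘ2
  have hsum := sum_TI (d := d) (R := R) (η := β + ε) (E' := E') (s := s) (Θ := Θ) hs0 hΘ0 (by linarith) (by linarith)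
  refine (dimH_mono ?_).trans (Pool.Agent.R331.LF.hc _ s hs0 hsum)
  rintro v ⟨hv, hR⟩
  exact cover hβ hε hE hv hR

theorem dim_NE {d : ℕ} {σ β ε : ℝ} (hβ : 0 < β) (hσ : 0 ≤ σ) (hε : 0 < ε) (hE : 0 < 2 * ((d : ℝ) - σ) - β - ε)
    (hd : 2 * ((d : ℝ) - σ) ≤ d * β) :
    dimH (NE d σ β ε) ≤ ENNReal.ofReal (1 + d * (2 * ((d : ℝ) - σ) - β - ε) / (2 * ((d : ℝ) - σ))) := by
  have e : NE d σ β ε = ⋃ R : ℕ, {v | v ∈ NE d σ β ε ∧ ∀ j, |v j| ≤ R} := by
    ext v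
    simp only [mem_iUnion, mem_ofPred_eq]
    constructor
    · intro hv
      obtain ⟨R, hR⟩ := exists_nat_ge ‖v‖
      exact ⟨R, hv, fun j => ((Real.norm_eq_abs _).symm.le.trans (norm_le_pi_norm v j)).trans hR⟩
    · rintro ⟨R, hv, _⟩
      exact hv
  rw [e, dimH_iUnion]
  apply iSup_le
  intro R
  apply le_of_forall_gt
  intro b hb
  rcases eq_or_ne b ⊤ with hbt | hbt
  · rw [hbt]
    obtain ⟨s, hs⟩ := exists_gt (1 + d * (2 * ((d : ℝ) - σ) - β - ε) / (2 * ((d : ℝ) - σ)))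
    exact (dim_NE_box hβ hσ hε hE hd hs).trans_lt ENNReal.ofReal_lt_top
  · have hb' : b = ENNReal.ofReal b.toReal := (ENNReal.ofReal_toReal hbt).symm
    have hpos : 0 < 1 + d * (2 * ((d : ℝ) - σ) - β - ε) / (2 * ((d : ℝ) - σ)) := by
      have : 0 ≤ d * (2 * ((d : ℝ) - σ) - β - ε) / (2 * ((d : ℝ) - σ)) := by
        apply div_nonneg
        · exact mul_nonneg (Nat.cast_nonneg d) hE.le
        · linarith
      linarith
    rw [hb'] at hb
    have h1 : 1 + d * (2 * ((d : ℝ) - σ) - β - ε) / (2 * ((d : ℝ) - σ)) < b.toReal := by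
      by_contra hcon
      push Not at hcon
      exact absurd (ENNReal.ofReal_le_ofReal hcon) (not_le.mpr hb)
    obtain ⟨s, hs1, hs2⟩ := exists_between h1
    refine (dim_NE_box hβ hσ hε hE hd hs1).trans_lt ?_
    rw [hb']
    exact (ENNReal.ofReal_lt_ofReal_iff (by linarith)).2 hs2

/-- the failure set as a countable union -/
theorem not_pt_eq {d : ℕ} {σ β ε₀ : ℝ} (hε₀ : 0 < ε₀) :
    {v : Fin d → ℝ | ¬ PtB v σ β} = ⋃ n : ℕ, NE d σ β (ε₀ / (n + 1)) := by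
  ext v
  simp only [mem_iUnion, mem_ofPred_eq]
  constructor
  · intro h
    unfold PtB at h
    push Not at h
    obtain ⟨ε, hε, h⟩ := h
    obtain ⟨n, hn⟩ := exists_nat_gt (ε₀ / ε)
    refine ⟨n, NE_anti (ε := ε) ?_ ?_⟩
    · rw [div_lt_iff₀ hε] at hn
      rw [div_le_iff₀ (by positivity)]
      nlinarith
    · intro C hC
      obtain ⟨y, δ, h1, h2, h3, h4⟩ := h C hC
      exact ⟨y, δ, h1, h2, h3, h4⟩
  · rintro ⟨n, hn⟩ hpt
    obtain ⟨C, hC, h⟩ := hpt (ε₀ / (n + 1)) (by positivity)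
    obtain ⟨y, δ, h1, h2, h3, h4⟩ := hn C hC
    exact absurd (h y δ h1 h2 h3) (not_le.mpr h4)

theorem upper_param {d : ℕ} {σ β : ℝ} (hβ : 0 < β) (hσ : 0 ≤ σ) (hE : 0 < 2 * ((d : ℝ) - σ) - β)
    (hd : 2 * ((d : ℝ) - σ) ≤ d * β) :
    dimH {v : Fin d → ℝ | ¬ PtB v σ β} ≤ ENNReal.ofReal (d + 1 - d * β / (2 * (d - σ))) := by
  rw [not_pt_eq (half_pos hE), dimH_iUnion]
  apply iSup_le
  intro n
  set ε : ℝ := (2 * ((d : ℝ) - σ) - β) / 2 / (n + 1) with hε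
  have hε0 : 0 < ε := by positivity
  have hε1 : ε ≤ (2 * ((d : ℝ) - σ) - β) / 2 := by
    apply div_le_self (by linarith)
    have : (0 : ℝ) ≤ n := Nat.cast_nonneg n
    linarith
  refine (dim_NE hβ hσ hε0 (by linarith) hd).trans (ENNReal.ofReal_le_ofReal ?_)
  set F : ℝ := 2 * ((d : ℝ) - σ) with hF
  have hF0 : 0 < F := by linarith
  have : (d : ℝ) + 1 - d * β / F = 1 + d * (F - β) / F := by
    field_simp
    ring
  rw [this]
  have h1 : d * (F - β - ε) ≤ d * (F - β) := mul_le_mul_of_nonneg_left (by linarith) (Nat.cast_nonneg d)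
  have h2 := div_le_div_of_nonneg_right h1 hF0.le
  linarith

theorem null_param {d : ℕ} {σ β : ℝ} (hβ : 0 < β) (hσ : 0 ≤ σ) (hE : 0 < 2 * ((d : ℝ) - σ) - β)
    (hd : 2 * ((d : ℝ) - σ) ≤ d * β) :
    Measure.hausdorffMeasure ((d : ℝ) + 1 - d * β / (2 * (d - σ))) {v : Fin d → ℝ | ¬ PtB v σ β} = 0 := by
  rw [not_pt_eq (half_pos hE), measure_iUnion_null_iff]
  intro n
  set ε : ℝ := (2 * ((d : ℝ) - σ) - β) / 2 / (n + 1) with hε
  have hε0 : 0 < ε := by positivity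
  have hε1 : ε ≤ (2 * ((d : ℝ) - σ) - β) / 2 := by
    apply div_le_self (by linarith)
    have : (0 : ℝ) ≤ n := Nat.cast_nonneg n
    linarith
  have hdim := dim_NE hβ hσ hε0 (show 0 < 2 * ((d : ℝ) - σ) - β - ε by linarith) hd
  set F : ℝ := 2 * ((d : ℝ) - σ) with hF
  have hF0 : 0 < F := by linarith
  have hd0 : 0 < (d : ℝ) := by
    by_contra hcon
    push Not at hcon
    nlinarith
  have hval : (d : ℝ) + 1 - d * β / F = 1 + d * (F - β) / F := by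
    field_simp
    ring
  rw [hval]
  have h0 : 0 ≤ 1 + d * (F - β) / F := by
    have : 0 ≤ d * (F - β) / F := by positivity
    linarith
  have h1 : dimH (NE d σ β ε) < ((1 + d * (F - β) / F).toNNReal : ℝ≥0∞) := by
    refine hdim.trans_lt ?_
    have h4 : (((1 + d * (F - β) / F).toNNReal : NNReal) : ℝ≥0∞) = ENNReal.ofReal (1 + d * (F - β) / F) := rfl
    rw [h4]
    refine (ENNReal.ofReal_lt_ofReal_iff ?_).2 ?_
    · have : 0 ≤ d * (F - β) / F := by positivity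
      linarith
    · have h5 : d * (F - β - ε) / F < d * (F - β) / F := by
        apply div_lt_div_of_pos_right _ hF0
        nlinarith [mul_pos hd0 hε0]
      linarith
  have h2 := hausdorffMeasure_of_dimH_lt h1
  rwa [Real.coe_toNNReal _ h0] at h2

theorem empty_param {d : ℕ} {σ β : ℝ} (hβ : 0 < β) (hE : 2 * ((d : ℝ) - σ) - β ≤ 0) (v : Fin d → ℝ) : PtB v σ β := by
  by_contra h
  have h1 : v ∈ {v : Fin d → ℝ | ¬ PtB v σ β} := h
  rw [not_pt_eq one_pos, mem_iUnion] at h1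
  obtain ⟨n, hn⟩ := h1
  rw [NE_empty hβ (by positivity) (hE.trans (by positivity))] at hn
  exact hn

end Pool.Agent.KS6_51.BW
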