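import Pool.Agent.KS6_51.BW.M4

set_option autoImplicit false

/-!
Simultaneous approximation: Dirichlet's theorem, and the sets used in the lower bound.
-/

namespace Pool.Agent.KS6_51.BW

open MeasureTheory Filter Topology Set
open scoped ENNReal

variable {m : ℕ}

/-- Dirichlet's theorem on simultaneous approximation. -/
theorem dirichlet (x : Fin m → ℝ) {N : ℕ} (hN : 0 < N) :
    ∃ q : ℕ, 1 ≤ q ∧ q ≤ N ^ m ∧ ∃ p : Fin m → ℤ, ∀ i, |q * x i - p i| < 1 / N := by
  classical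
  set f : ℕ → (Fin m → Fin N) := fun q i =>
    ⟨⌊Int.fract (q * x i) * N⌋₊, by
      have h1 := Int.fract_lt_one ((q : ℝ) * x i)
      have h2 := Int.fract_nonneg ((q : ℝ) * x i)
      have hN' : (0 : ℝ) < N := by exact_mod_cast hN
      rw [Nat.floor_lt (by positivity)]
      nlinarith⟩ with hf
  have hcard : (Finset.univ : Finset (Fin m → Fin N)).card < (Finset.range (N ^ m + 1)).card := by
    rw [Finset.card_univ, Finset.card_range, Fintype.card_fun, Fintype.card_fin, Fintype.card_fin]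
    omega
  obtain ⟨q₁, hq₁, q₂, hq₂, hne, heq⟩ := Finset.exists_ne_map_eq_of_card_lt_of_maps_to hcard
    (f := f) (fun _ _ => Finset.mem_univ _)
  have key : ∀ q₁ q₂ : ℕ, q₁ ≤ N ^ m → q₂ < q₁ → f q₁ = f q₂ →
      ∃ q : ℕ, 1 ≤ q ∧ q ≤ N ^ m ∧ ∃ p : Fin m → ℤ, ∀ i, |q * x i - p i| < 1 / N := by
    intro q₁ q₂ h1 h2 h3
    refine ⟨q₁ - q₂, by omega, by omega, fun i => ⌊(q₁ : ℝ) * x i⌋ - ⌊(q₂ : ℝ) * x i⌋, fun i => ?_⟩
    have h4 : ⌊Int.fract (q₁ * x i) * N⌋₊ = ⌊Int.fract (q₂ * x i) * N⌋₊ := by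
      have := congrFun h3 i
      simpa [hf] using this
    have hN' : (0 : ℝ) < N := by exact_mod_cast hN
    have a1 := Nat.floor_le (show 0 ≤ Int.fract (q₁ * x i) * N from mul_nonneg (Int.fract_nonneg _) hN'.le)
    have a2 := Nat.lt_floor_add_one (Int.fract (q₁ * x i) * N)
    have b1 := Nat.floor_le (show 0 ≤ Int.fract (q₂ * x i) * N from mul_nonneg (Int.fract_nonneg _) hN'.le)
    have b2 := Nat.lt_floor_add_one (Int.fract (q₂ * x i) * N)
    rw [h4] at a1 a2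
    push_cast
    rw [Nat.cast_sub h2.le]
    have e : ((q₁ : ℝ) - q₂) * x i - (⌊(q₁ : ℝ) * x i⌋ - ⌊(q₂ : ℝ) * x i⌋) = Int.fract (q₁ * x i) - Int.fract (q₂ * x i) := by
      unfold Int.fract
      ring
    rw [e, lt_div_iff₀ hN', ← abs_of_pos hN', ← abs_mul, sub_mul, abs_lt]
    constructor <;> linarith
  rw [Finset.mem_range] at hq₁ hq₂
  rcases lt_or_gt_of_ne hne with h | h
  · exact key q₂ q₁ (by omega) h heq.symm
  · exact key q₁ q₂ (by omega) h heq

/-- the rational points with denominator `k + 1` -/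
def RP (m k : ℕ) : Set (Fin m → ℝ) := {c | ∃ p : Fin m → ℤ, c = fun i => (p i : ℝ) / ((k : ℝ) + 1)}

theorem frequently_of_irrational (hm : 0 < m) (x : Fin m → ℝ) (i₀ : Fin m) (hx : Irrational (x i₀)) :
    ∃ᶠ k in atTop, ∃ c ∈ RP m k, dist x c < ((k : ℝ) + 1) ^ (-(1 + 1 / (m : ℝ))) := by
  rw [frequently_atTop]
  intro K
  have hm0 : (0 : ℝ) < m := by exact_mod_cast hm
  -- the distances for the small denominators
  obtain ⟨δ, hδ, hδ'⟩ : ∃ δ : ℝ, 0 < δ ∧ ∀ q : ℕ, 1 ≤ q → q ≤ K + 1 → ∀ p : ℤ, δ ≤ |q * x i₀ - p| := by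
    have h1 : ∀ q : ℕ, 1 ≤ q → 0 < |(q : ℝ) * x i₀ - round ((q : ℝ) * x i₀)| := by
      intro q hq
      rw [abs_pos, sub_ne_zero]
      intro h
      have h2 : Irrational ((q : ℝ) * x i₀) := hx.natCast_mul (by omega)
      exact h2 ⟨(round ((q : ℝ) * x i₀) : ℚ), by push_cast; exact h.symm⟩
    have h2 : ∀ K : ℕ, ∃ δ : ℝ, 0 < δ ∧ ∀ q : ℕ, 1 ≤ q → q ≤ K → ∀ p : ℤ, δ ≤ |q * x i₀ - p| := by
      intro K
      induction K with
      | zero => exact ⟨1, one_pos, fun q h1 h2 => by omega⟩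
      | succ K ih =>
        obtain ⟨δ, h3, h4⟩ := ih
        refine ⟨min δ |((K + 1 : ℕ) : ℝ) * x i₀ - round (((K + 1 : ℕ) : ℝ) * x i₀)|, lt_min h3 (h1 _ (by omega)),
          fun q h5 h6 p => ?_⟩
        rcases Nat.lt_or_ge q (K + 1) with h | h
        · exact (min_le_left _ _).trans (h4 q h5 (by omega) p)
        · have : q = K + 1 := by omega
          subst this
          exact (min_le_right _ _).trans (round_le _ _)
    exact h2 (K + 1)
  obtain ⟨N, hN⟩ := exists_nat_gt (1 / δ)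
  have hN0 : 0 < N := by
    have : (0 : ℝ) < N := lt_trans (by positivity) hN
    exact_mod_cast this
  have hN' : (0 : ℝ) < N := by exact_mod_cast hN0
  obtain ⟨q, hq1, hq2, p, hp⟩ := dirichlet x hN0
  have hqK : K + 1 < q := by
    by_contra hcon
    push Not at hcon
    have h1 := hδ' q hq1 hcon (p i₀)
    have h2 := hp i₀
    have h3 : 1 / (N : ℝ) < δ := by
      rw [div_lt_iff₀ hN']
      rw [div_lt_iff₀ hδ] at hN
      linarith
    linarith
  refine ⟨q - 1, by omega, fun i => (p i : ℝ) / (((q - 1 : ℕ) : ℝ) + 1), ⟨p, rfl⟩, ?_⟩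
  have hqe : (((q - 1 : ℕ) : ℝ) + 1) = q := by
    have : q - 1 + 1 = q := by omega
    exact_mod_cast this
  have hq0 : (0 : ℝ) < q := by exact_mod_cast (by omega : 0 < q)
  rw [hqe, dist_pi_lt_iff (by positivity)]
  intro i
  rw [Real.dist_eq]
  have h1 := hp i
  have h2 : x i - p i / q = (q * x i - p i) / q := by
    field_simp
  rw [h2, abs_div, abs_of_pos hq0, div_lt_iff₀ hq0]
  refine h1.trans_le ?_
  have h3 : (q : ℝ) ^ (-(1 + 1 / (m : ℝ))) * q = (q : ℝ) ^ (-(1 / (m : ℝ))) := by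
    nth_rewrite 2 [← Real.rpow_one (q : ℝ)]
    rw [← Real.rpow_add hq0]
    congr 1
    ring
  rw [h3, Real.rpow_neg hq0.le, one_div]
  apply inv_anti₀ (by positivity)
  calc (q : ℝ) ^ (1 / (m : ℝ)) ≤ ((N : ℝ) ^ m) ^ (1 / (m : ℝ)) := by
        apply Real.rpow_le_rpow hq0.le _ (by positivity)
        exact_mod_cast hq2
    _ = N := by
        rw [← Real.rpow_natCast, ← Real.rpow_mul hN'.le, mul_one_div_cancel hm0.ne', Real.rpow_one]

theorem ae_frequently (hm : 0 < m) : ∀ᵐ x ∂(volume : Measure (Fin m → ℝ)),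
    ∃ᶠ k in atTop, ∃ c ∈ RP m k, dist x c < ((k : ℝ) + 1) ^ (-(1 + 1 / (m : ℝ))) := by
  have h1 : ∀ᵐ x ∂(volume : Measure (Fin m → ℝ)), x ⟨0, hm⟩ ∉ range ((↑) : ℚ → ℝ) := by
    have h2 : ∀ᵐ y ∂(volume : Measure ℝ), y ∉ range ((↑) : ℚ → ℝ) :=
      (countable_range _).ae_notMem _
    exact (Measure.quasiMeasurePreserving_eval (fun _ : Fin m => (volume : Measure ℝ)) ⟨0, hm⟩).ae h2
  filter_upwards [h1] with x hx
  exact frequently_of_irrational hm x ⟨0, hm⟩ hx

/-- the points with good approximations of large denominators -/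
def GA (m : ℕ) (τ : ℝ) (n : ℕ) : Set (Fin m → ℝ) :=
  {y | ∃ k, n ≤ k ∧ ∃ c ∈ RP m k, dist y c < ((k : ℝ) + 1) ^ (-(1 + τ))}

theorem GA_open (τ : ℝ) (n : ℕ) : IsOpen (GA m τ n) := by
  have e : GA m τ n = ⋃ k, ⋃ (_ : n ≤ k), ⋃ c ∈ RP m k, Metric.ball c (((k : ℝ) + 1) ^ (-(1 + τ))) := by
    ext y
    simp only [GA, mem_iUnion, Metric.mem_ball, mem_ofPred_eq, exists_prop]
  rw [e]
  exact isOpen_iUnion fun k => isOpen_iUnion fun _ => isOpen_iUnion fun c => isOpen_iUnion fun _ => Metric.isOpen_ball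

theorem GA_full (hm : 0 < m) {τ : ℝ} (hτ : 1 / (m : ℝ) ≤ τ) {s : ℝ} (hs : 0 < s)
    (hst : s < (m + 1) / (1 + τ)) (n : ℕ) : Full s (GA m τ n) := by
  have hm0 : (0 : ℝ) < m := by exact_mod_cast hm
  have hτ0 : 0 < τ := lt_of_lt_of_le (by positivity) hτ
  have ht : ((m : ℝ) + 1) / (1 + τ) ≤ m := by
    rw [div_le_iff₀ (by positivity)]
    rw [div_le_iff₀ hm0] at hτ
    linarith
  have h := full_of_ae hm hs hst ht (fun k => RP m k) (fun k => ((k : ℝ) + 1) ^ (-(1 + 1 / (m : ℝ))))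
    (fun k => by positivity) (by
      have h1 : Tendsto (fun k : ℕ => (k : ℝ) + 1) atTop atTop :=
        tendsto_atTop_add_const_right _ _ tendsto_natCast_atTop_atTop
      exact (tendsto_rpow_neg_atTop (show 0 < 1 + 1 / (m : ℝ) by positivity)).comp h1) (ae_frequently hm) n
  have e : ∀ k : ℕ, (((k : ℝ) + 1) ^ (-(1 + 1 / (m : ℝ)))) ^ (m / ((m + 1) / (1 + τ))) = ((k : ℝ) + 1) ^ (-(1 + τ)) := by
    intro k
    rw [← Real.rpow_mul (by positivity)]
    congr 1
    field_simp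
  simp only [e] at h
  exact h

/-- the complement of a rational hyperplane -/
def HP (a : Fin (m + 1) → ℤ) : Set (Fin m → ℝ) := {x | (a 0 : ℝ) + ∑ i : Fin m, (a i.succ : ℝ) * x i ≠ 0}

theorem HP_open (a : Fin (m + 1) → ℤ) : IsOpen (HP a) := by
  have : Continuous fun x : Fin m → ℝ => (a 0 : ℝ) + ∑ i : Fin m, (a i.succ : ℝ) * x i := by fun_prop
  exact isOpen_ne_fun this continuous_const

theorem HP_null (a : Fin (m + 1) → ℤ) (ha : a ≠ 0) : volume (HP a)ᶜ = 0 := by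
  classical
  by_cases h : ∃ i : Fin m, a i.succ ≠ 0
  · obtain ⟨i₀, hi₀⟩ := h
    have hi₀' : (a i₀.succ : ℝ) ≠ 0 := by exact_mod_cast hi₀
    -- the hyperplane as an affine subspace
    let φ : (Fin m → ℝ) →ₗ[ℝ] ℝ := ∑ i : Fin m, (a i.succ : ℝ) • LinearMap.proj i
    have hφ : ∀ x, φ x = ∑ i : Fin m, (a i.succ : ℝ) * x i := by
      intro x
      simp [φ]
    let S : AffineSubspace ℝ (Fin m → ℝ) :=
      (AffineSubspace.mk' (Pi.single i₀ (-(a 0 : ℝ) / a i₀.succ)) (LinearMap.ker φ))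
    have hx0 : φ (Pi.single i₀ (-(a 0 : ℝ) / a i₀.succ)) = -(a 0 : ℝ) := by
      rw [hφ, Finset.sum_eq_single i₀]
      · rw [Pi.single_eq_same]
        field_simp
      · intro j _ hj
        rw [Pi.single_eq_of_ne hj, mul_zero]
      · intro h
        exact absurd (Finset.mem_univ _) h
    have hS : (HP a)ᶜ = (S : Set (Fin m → ℝ)) := by
      ext x
      rw [SetLike.mem_coe, AffineSubspace.mem_mk', LinearMap.mem_ker, vsub_eq_sub, map_sub, hx0, hφ]
      simp only [HP, mem_compl_iff, mem_ofPred_eq, not_not]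
      constructor
      · intro h; linarith
      · intro h; linarith
    rw [hS]
    apply Measure.addHaar_affineSubspace
    intro htop
    have h1 : (Pi.single i₀ (-(a 0 : ℝ) / a i₀.succ) + Pi.single i₀ 1 : Fin m → ℝ) ∈ S := by
      rw [htop]
      exact AffineSubspace.mem_top _ _ _
    rw [AffineSubspace.mem_mk', LinearMap.mem_ker, vsub_eq_sub, add_sub_cancel_left, hφ, Finset.sum_eq_single i₀] at h1
    · rw [Pi.single_eq_same, mul_one] at h1
      exact hi₀' h1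
    · intro j _ hj
      rw [Pi.single_eq_of_ne hj, mul_zero]
    · intro h
      exact absurd (Finset.mem_univ _) h
  · push Not at h
    have h0 : a 0 ≠ 0 := by
      intro h0
      apply ha
      funext j
      refine Fin.cases h0 (fun i => h i) j
    have : (HP a)ᶜ = ∅ := by
      apply Set.eq_empty_of_forall_notMem
      intro x hx
      simp only [HP, mem_compl_iff, mem_ofPred_eq, not_not, h] at hx
      apply h0
      have : (a 0 : ℝ) = 0 := by simpa using hx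
      exact_mod_cast this
    rw [this]
    simp

end Pool.Agent.KS6_51.BW
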