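import Pool.Agent.KS6_51.BW.J1
import Pool.Graph.R_pool_sql_team_seeded_47a924f7.T6.H60.BD.R

set_option autoImplicit false

/-!
Good simultaneous approximations of the parameters make the pointwise criterion fail.
-/

namespace Pool.Agent.KS6_51.BW

open MeasureTheory Filter Topology Set
open scoped ENNReal
open Pool.Agent.T6.H60.BC (nd pr nd_nonneg nd_le_sub)
open Pool.Agent.T6.H60.BD (PtB)

theorem not_pt_of_appr {r : ℕ} (w : Fin r → ℝ) {σ β τ : ℝ} (hτ0 : 0 < τ) (hβ : 0 < β)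
    (hτ : β < τ * (2 * (r - σ) - β))
    (h : ∀ Y : ℝ, ∃ y : ℝ, Y ≤ y ∧ ∀ j, nd (w j * y) ≤ y ^ (-τ)) : ¬ PtB w σ β := by
  intro hpt
  set E : ℝ := 2 * (r - σ) - β with hE
  set ε : ℝ := (τ * E - β) / (2 * (1 + τ)) with hε
  have hε0 : 0 < ε := by
    apply div_pos (by linarith) (by linarith)
  have hγ : τ * E - β - (1 + τ) * ε = (τ * E - β) / 2 := by
    have h1 : (1 + τ) * ε = (τ * E - β) / 2 := by
      rw [hε]
      field_simp
    linarith
  set γ : ℝ := (τ * E - β) / 2 with hγ'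
  have hγ0 : 0 < γ := by
    rw [hγ']
    linarith
  obtain ⟨C, hC, hb⟩ := hpt ε hε0
  obtain ⟨y, hy, hyj⟩ := h (max 1 ((C + 1) ^ (1 / γ)))
  have hy1 : 1 ≤ y := (le_max_left _ _).trans hy
  have hy2 : (C + 1) ^ (1 / γ) ≤ y := (le_max_right _ _).trans hy
  have hy0 : 0 < y := by linarith
  set δ : ℝ := y ^ (-τ) with hδ
  have hδ0 : 0 < δ := by positivity
  have hδ1 : δ ≤ 1 := Real.rpow_le_one_of_one_le_of_nonpos hy1 (by linarith)
  have h1 := hb y δ hy1 hδ0 hδ1
  have h2 : pr w δ y = y ^ (2 * r * τ) := by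
    unfold pr
    have : ∀ j ∈ Finset.univ, ((max δ (nd (w j * y))) ^ 2)⁻¹ = (δ ^ 2)⁻¹ := by
      intro j _
      rw [max_eq_left (hyj j)]
    rw [Finset.prod_congr rfl this, Finset.prod_const, Finset.card_univ, Fintype.card_fin, hδ,
      ← Real.rpow_natCast (y ^ (-τ)) 2, ← Real.rpow_mul hy0.le, ← Real.rpow_neg hy0.le,
      ← Real.rpow_natCast _ r, ← Real.rpow_mul hy0.le]
    congr 1
    push_cast
    ring
  have h3 : C * δ ^ (-(2 * σ)) * (y / δ) ^ (β + ε) = C * y ^ (2 * σ * τ + (1 + τ) * (β + ε)) := by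
    have e1 : y / δ = y ^ (1 + τ) := by
      rw [hδ, Real.rpow_neg hy0.le, div_inv_eq_mul, Real.rpow_add hy0, Real.rpow_one]
    rw [e1, hδ, ← Real.rpow_mul hy0.le, ← Real.rpow_mul hy0.le, mul_assoc, ← Real.rpow_add hy0]
    congr 2
    ring
  rw [h2, h3] at h1
  have h4 : y ^ (2 * r * τ) = y ^ γ * y ^ (2 * σ * τ + (1 + τ) * (β + ε)) := by
    rw [← Real.rpow_add hy0]
    congr 1
    rw [← hγ, hE]
    ring
  rw [h4] at h1
  have h5 : y ^ γ ≤ C := le_of_mul_le_mul_right h1 (by positivity)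
  have h6 : C + 1 ≤ y ^ γ := by
    calc C + 1 = ((C + 1) ^ (1 / γ)) ^ γ := by
          rw [← Real.rpow_mul (by linarith), one_div_mul_cancel hγ0.ne', Real.rpow_one]
      _ ≤ y ^ γ := Real.rpow_le_rpow (by positivity) hy2 hγ0.le
  linarith

theorem exists_den {r n : ℕ} (B : Matrix (Fin r) (Fin n) ℚ) :
    ∃ D : ℕ, 0 < D ∧ ∃ z : Fin r → Fin n → ℤ, ∀ j k, (B j k : ℝ) * D = z j k := by
  classical
  refine ⟨∏ p : Fin r × Fin n, (B p.1 p.2).den, Finset.prod_pos fun p _ => (B p.1 p.2).pos, ?_⟩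
  have h1 : ∀ j k, ∃ z : ℤ, (B j k : ℝ) * ((∏ p : Fin r × Fin n, (B p.1 p.2).den : ℕ) : ℝ) = z := by
    intro j k
    obtain ⟨c, hc⟩ := Finset.dvd_prod_of_mem (fun p : Fin r × Fin n => (B p.1 p.2).den) (Finset.mem_univ (j, k))
    rw [hc]
    refine ⟨(B j k).num * c, ?_⟩
    have h2 : ((B j k : ℚ) : ℝ) * ((B j k).den : ℝ) = (B j k).num := by
      have := Rat.mul_den_eq_num (B j k)
      exact_mod_cast this
    push_cast
    rw [← mul_assoc, h2]
  choose z hz using h1
  exact ⟨z, hz⟩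

theorem appr_of_GA {m r : ℕ} (B : Matrix (Fin r) (Fin (m + 1)) ℚ) (v : Fin (m + 1) → ℝ) (hv : v 0 ≠ 0)
    {τ τ' : ℝ} (hτ' : 0 < τ') (hττ : τ' < τ) (h : ∀ n, (fun i : Fin m => v i.succ / v 0) ∈ GA m τ n) (Y : ℝ) :
    ∃ y : ℝ, Y ≤ y ∧ ∀ j, nd ((∑ k, (B j k : ℝ) * v k) * y) ≤ y ^ (-τ') := by
  obtain ⟨D, hD, z, hz⟩ := exists_den B
  have hD' : (0 : ℝ) < D := by exact_mod_cast hD
  have hv' : 0 < |v 0| := abs_pos.mpr hv
  set S : ℝ := ∑ j, ∑ k, |(z j k : ℝ)| with hS
  have hS0 : 0 ≤ S := Finset.sum_nonneg fun j _ => Finset.sum_nonneg fun k _ => abs_nonneg _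
  have hSj : ∀ j, ∑ i : Fin m, |(z j i.succ : ℝ)| ≤ S := by
    intro j
    calc ∑ i : Fin m, |(z j i.succ : ℝ)| ≤ ∑ k, |(z j k : ℝ)| := by
          rw [Fin.sum_univ_succ]
          linarith [abs_nonneg (z j 0 : ℝ)]
      _ ≤ S := Finset.single_le_sum (f := fun j => ∑ k, |(z j k : ℝ)|)
          (fun j _ => Finset.sum_nonneg fun k _ => abs_nonneg _) (Finset.mem_univ j)
  -- choice of the denominator
  have ht1 : Tendsto (fun k : ℕ => (k : ℝ) + 1) atTop atTop :=
    tendsto_atTop_add_const_right _ _ tendsto_natCast_atTop_atTop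
  have ht2 : Tendsto (fun k : ℕ => ((k : ℝ) + 1) ^ (τ - τ')) atTop atTop :=
    (tendsto_rpow_atTop (by linarith)).comp ht1
  obtain ⟨n₀, hn₀⟩ := eventually_atTop.1 ((ht1.eventually_ge_atTop (Y * |v 0| / D)).and
    (ht2.eventually_ge_atTop (S * (D / |v 0|) ^ τ')))
  obtain ⟨k, hk, c, ⟨p, rfl⟩, hc⟩ := h n₀
  obtain ⟨hk1, hk2⟩ := hn₀ k hk
  set q : ℝ := (k : ℝ) + 1 with hq
  have hq0 : 0 < q := by positivity
  rw [dist_pi_lt_iff (by positivity)] at hc
  refine ⟨D * q / |v 0|, ?_, fun j => ?_⟩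
  · rw [le_div_iff₀ hv']
    rw [div_le_iff₀ hD'] at hk1
    linarith
  · -- the sign
    obtain ⟨e, he1, he2⟩ : ∃ e : ℤ, (e : ℝ) * e = 1 ∧ |v 0| = e * v 0 := by
      rcases abs_choice (v 0) with h | h
      · exact ⟨1, by norm_num, by rw [h]; simp⟩
      · exact ⟨-1, by norm_num, by rw [h]; simp⟩
    have hsum : (∑ k, (B j k : ℝ) * v k) * (D * q / |v 0|) = e * (z j 0 * q + ∑ i : Fin m, (z j i.succ : ℝ) * (v i.succ / v 0) * q) := by
      have e1 : (1 : ℝ) / |v 0| = e / v 0 := by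
        rw [he2, div_eq_div_iff (by rw [← he2]; exact hv'.ne') hv]
        calc (1 : ℝ) * v 0 = (e * e) * v 0 := by rw [he1]
          _ = _ := by ring
      calc (∑ k, (B j k : ℝ) * v k) * (D * q / |v 0|) = ∑ k, ((B j k : ℝ) * D) * v k * q * (1 / |v 0|) := by
            rw [Finset.sum_mul]
            apply Finset.sum_congr rfl
            intro k _
            ring
        _ = ∑ k, (z j k : ℝ) * v k * q * (e / v 0) := by
            apply Finset.sum_congr rfl
            intro k _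
            rw [hz, e1]
        _ = e * ∑ k, (z j k : ℝ) * (v k / v 0) * q := by
            rw [Finset.mul_sum]
            apply Finset.sum_congr rfl
            intro k _
            ring
        _ = _ := by
            rw [Fin.sum_univ_succ, div_self hv, mul_one]
    rw [hsum]
    have hN : ∃ N : ℤ, (N : ℝ) = e * (z j 0 * q + ∑ i : Fin m, (z j i.succ : ℝ) * p i) := by
      refine ⟨e * (z j 0 * ((k : ℤ) + 1) + ∑ i : Fin m, z j i.succ * p i), ?_⟩
      push_cast
      rw [hq]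
    obtain ⟨N, hN⟩ := hN
    refine (nd_le_sub _ N).trans ?_
    have habs : |(e : ℝ)| = 1 := by
      have : |(e : ℝ)| * |(e : ℝ)| = 1 := by rw [← abs_mul, he1, abs_one]
      nlinarith [abs_nonneg (e : ℝ)]
    rw [hN, ← mul_sub, abs_mul, habs, one_mul]
    have e3 : (z j 0 * q + ∑ i : Fin m, (z j i.succ : ℝ) * (v i.succ / v 0) * q) -
        (z j 0 * q + ∑ i : Fin m, (z j i.succ : ℝ) * p i) =
        ∑ i : Fin m, (z j i.succ : ℝ) * q * (v i.succ / v 0 - p i / q) := by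
      rw [add_sub_add_left_eq_sub, ← Finset.sum_sub_distrib]
      apply Finset.sum_congr rfl
      intro i _
      field_simp
    rw [e3]
    calc |∑ i : Fin m, (z j i.succ : ℝ) * q * (v i.succ / v 0 - p i / q)|
        ≤ ∑ i : Fin m, |(z j i.succ : ℝ) * q * (v i.succ / v 0 - p i / q)| := Finset.abs_sum_le_sum_abs _ _
      _ ≤ ∑ i : Fin m, |(z j i.succ : ℝ)| * q ^ (-τ) := by
          apply Finset.sum_le_sum
          intro i _
          have h1 := (hc i).le
          rw [Real.dist_eq] at h1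
          rw [abs_mul, abs_mul, abs_of_pos hq0, mul_assoc]
          have h2 : q * |v i.succ / v 0 - p i / q| ≤ q ^ (-τ) := by
            calc q * |v i.succ / v 0 - p i / q| ≤ q * q ^ (-(1 + τ)) := by
                  apply mul_le_mul_of_nonneg_left h1 hq0.le
              _ = q ^ (-τ) := by
                  nth_rewrite 1 [← Real.rpow_one q]
                  rw [← Real.rpow_add hq0]
                  congr 1
                  ring
          exact mul_le_mul_of_nonneg_left h2 (abs_nonneg _)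
      _ = (∑ i : Fin m, |(z j i.succ : ℝ)|) * q ^ (-τ) := by rw [Finset.sum_mul]
      _ ≤ S * q ^ (-τ) := by
          gcongr
          exact hSj j
      _ ≤ (D * q / |v 0|) ^ (-τ') := by
          have e4 : D * q / |v 0| = (D / |v 0|) * q := by ring
          rw [e4, Real.mul_rpow (by positivity) hq0.le, Real.rpow_neg (by positivity) τ']
          have h3 : 0 < (D / |v 0|) ^ τ' := by positivity
          rw [← div_eq_inv_mul, le_div_iff₀ h3]
          have h4 : q ^ (-τ) * q ^ (τ - τ') = q ^ (-τ') := by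
            rw [← Real.rpow_add hq0]
            congr 1
            ring
          calc S * q ^ (-τ) * (D / |v 0|) ^ τ' = q ^ (-τ) * (S * (D / |v 0|) ^ τ') := by ring
            _ ≤ q ^ (-τ) * q ^ (τ - τ') := by gcongr
            _ = q ^ (-τ') := h4

end Pool.Agent.KS6_51.BW
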