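import Pool.Agent.KS6_51.BW.J2

set_option autoImplicit false

/-!
The lower bound for the dimension of the exceptional set in parameter space.
-/

namespace Pool.Agent.KS6_51.BW

open MeasureTheory Filter Topology Set
open scoped ENNReal
open Pool.Agent.T6.H60.BC (nd pr nd_nonneg nd_le_sub)
open Pool.Agent.T6.H60.BD (PtB)

/-- linear independence over `ℚ` in terms of integer coefficients -/
theorem linInd_of_int {m : ℕ} {t : ℝ} (ht : t ≠ 0) (x : Fin m → ℝ)
    (h : ∀ a : Fin (m + 1) → ℤ, a ≠ 0 → x ∈ HP a) :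
    LinearIndependent ℚ (Fin.cons t (t • x) : Fin (m + 1) → ℝ) := by
  rw [← LinearIndependent.iff_fractionRing ℤ ℚ, Fintype.linearIndependent_iff]
  intro g hg
  by_contra hcon
  push Not at hcon
  obtain ⟨i, hi⟩ := hcon
  have hg0 : g ≠ 0 := fun h0 => hi (by rw [h0]; rfl)
  apply h g hg0
  rw [Fin.sum_univ_succ] at hg
  simp only [Fin.cons_zero, Fin.cons_succ, zsmul_eq_mul, Pi.smul_apply, smul_eq_mul] at hg
  have h1 : t * ((g 0 : ℝ) + ∑ i : Fin m, (g i.succ : ℝ) * x i) = 0 := by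
    rw [mul_add, Finset.mul_sum]
    rw [← hg]
    congr 1
    · ring
    · apply Finset.sum_congr rfl
      intro i _
      ring
  exact (mul_eq_zero.mp h1).resolve_left ht

/-- a small product neighbourhood inside an open set -/
theorem exists_nbhd {m : ℕ} (O : Set (Fin (m + 1) → ℝ)) (hO : IsOpen O) (hne : O.Nonempty) :
    ∃ (a b c : ℝ) (L₀ : ℕ × (Fin m → ℤ)), a < b ∧ 0 < c ∧ (∀ t ∈ Ioo a b, c ≤ |t|) ∧
      ∀ t ∈ Ioo a b, ∀ x ∈ Dc L₀, (Fin.cons t (t • x) : Fin (m + 1) → ℝ) ∈ O := by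
  classical
  obtain ⟨u, hu, hu0⟩ : ∃ u ∈ O, u 0 ≠ 0 := by
    obtain ⟨u, hu⟩ := hne
    by_cases h0 : u 0 = 0
    · obtain ⟨ε, hε, hball⟩ := Metric.isOpen_iff.mp hO u hu
      refine ⟨Function.update u 0 (ε / 2), hball ?_, ?_⟩
      · rw [Metric.mem_ball, dist_pi_lt_iff hε]
        intro i
        by_cases hi : i = 0
        · subst hi
          rw [Function.update_self, h0, Real.dist_eq, sub_zero, abs_of_pos (by positivity)]
          linarith
        · rw [Function.update_of_ne hi, dist_self]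
          exact hε
      · rw [Function.update_self]
        positivity
    · exact ⟨u, hu, h0⟩
  set x₀ : Fin m → ℝ := fun i => u i.succ / u 0 with hx₀
  have hcont : Continuous fun p : ℝ × (Fin m → ℝ) => (Fin.cons p.1 (p.1 • p.2) : Fin (m + 1) → ℝ) := by
    apply continuous_pi
    intro i
    refine Fin.cases ?_ (fun i => ?_) i
    · simp only [Fin.cons_zero]
      exact continuous_fst
    · simp only [Fin.cons_succ, Pi.smul_apply, smul_eq_mul]
      fun_prop
  have hpre : (u 0, x₀) ∈ (fun p : ℝ × (Fin m → ℝ) => (Fin.cons p.1 (p.1 • p.2) : Fin (m + 1) → ℝ)) ⁻¹' O := by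
    show (Fin.cons (u 0) (u 0 • x₀) : Fin (m + 1) → ℝ) ∈ O
    have e : (Fin.cons (u 0) (u 0 • x₀) : Fin (m + 1) → ℝ) = u := by
      funext i
      refine Fin.cases rfl (fun i => ?_) i
      simp only [Fin.cons_succ, Pi.smul_apply, smul_eq_mul, hx₀]
      field_simp
    rw [e]
    exact hu
  obtain ⟨ε, hε, hball⟩ := Metric.isOpen_iff.mp (hO.preimage hcont) _ hpre
  have hu0' : 0 < |u 0| := abs_pos.mpr hu0
  set η : ℝ := min ε (|u 0| / 2) with hη
  have hη0 : 0 < η := lt_min hε (by positivity)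
  obtain ⟨n, hn⟩ := exists_pow_lt_of_lt_one hη0 (by norm_num : (1:ℝ)/2 < 1)
  have hn' : (1:ℝ) / 2 ^ n < η := by
    rw [div_pow, one_pow] at hn
    exact hn
  refine ⟨u 0 - η, u 0 + η, |u 0| / 2, (n, idx n x₀), by linarith, by positivity, ?_, ?_⟩
  · intro t ht
    have h1 : |t - u 0| < η := by
      rw [abs_lt]
      exact ⟨by linarith [ht.1], by linarith [ht.2]⟩
    have h2 : η ≤ |u 0| / 2 := min_le_right _ _
    have h3 : |u 0| ≤ |t| + |t - u 0| := by
      calc |u 0| = |t - (t - u 0)| := by ring_nf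
        _ ≤ |t| + |t - u 0| := abs_sub _ _
    linarith
  · intro t ht x hx
    have h1 : (t, x) ∈ Metric.ball (u 0, x₀) ε := by
      rw [Metric.mem_ball, Prod.dist_eq, max_lt_iff]
      refine ⟨?_, ?_⟩
      · rw [Real.dist_eq]
        refine lt_of_lt_of_le ?_ (min_le_left ε (|u 0| / 2))
        rw [abs_lt]
        exact ⟨by linarith [ht.1], by linarith [ht.2]⟩
      · rw [dist_pi_lt_iff hε]
        intro i
        have h2 := hx i
        have h3 := (Dc_self n x₀ i)
        rw [Real.dist_eq]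
        refine lt_of_lt_of_le ?_ (min_le_left ε (|u 0| / 2))
        simp only [mem_Icc, add_div] at h2 h3
        rw [abs_lt]
        constructor <;> linarith
    exact hball h1
where
  Dc_self (n : ℕ) (x₀ : Fin m → ℝ) (i : Fin m) :
      x₀ i ∈ Icc ((idx n x₀ i : ℝ) / 2 ^ n) (((idx n x₀ i : ℝ) + 1) / 2 ^ n) := by
    have := mem_D_idx x₀ n i
    exact ⟨this.1, this.2.le⟩

theorem lower_param {m r : ℕ} (hm : 0 < m) (B : Matrix (Fin r) (Fin (m + 1)) ℚ) {σ β : ℝ} (hβ : 0 < β)
    (h1 : 2 * ((r : ℝ) - σ) ≤ ((m : ℝ) + 1) * β) (h2 : β < 2 * ((r : ℝ) - σ)) (O : Set (Fin (m + 1) → ℝ))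
    (hO : IsOpen O) (hne : O.Nonempty) :
    ENNReal.ofReal ((m : ℝ) + 1 + 1 - (m + 1) * β / (2 * (r - σ))) ≤
      dimH {v : Fin (m + 1) → ℝ | v ∈ O ∧ LinearIndependent ℚ v ∧
        ¬ PtB (fun j => ∑ k, (B j k : ℝ) * v k) σ β} := by
  set Z : Set (Fin (m + 1) → ℝ) := {v : Fin (m + 1) → ℝ | v ∈ O ∧ LinearIndependent ℚ v ∧
        ¬ PtB (fun j => ∑ k, (B j k : ℝ) * v k) σ β} with hZ
  have hm0 : (0 : ℝ) < m := by exact_mod_cast hm
  set E : ℝ := 2 * (r - σ) - β with hE
  have hE0 : 0 < E := by linarith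
  have hEm : E ≤ m * β := by linarith
  set T : ℝ := (m + 1) * E / (E + β) with hT
  have hEβ : 0 < E + β := by linarith
  have hT0 : 0 < T := by positivity
  have hTm : T ≤ m := by
    rw [hT, div_le_iff₀ (by linarith)]
    nlinarith
  have hval : (m : ℝ) + 1 + 1 - (m + 1) * β / (2 * (r - σ)) = 1 + T := by
    have e1 : 2 * ((r : ℝ) - σ) = E + β := by
      rw [hE]
      ring
    rw [e1, hT]
    field_simp
    ring
  rw [hval]
  obtain ⟨a, b, c, L₀, hab, hc, hcab, hin⟩ := exists_nbhd O hO hne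
  have main : ∀ s : ℝ, 0 < s → s < T → ENNReal.ofReal (1 + s) ≤ dimH Z := by
    intro s hs hsT
    -- the exponents
    have h3 : β / E < (m + 1) / s - 1 := by
      rw [hT, lt_div_iff₀ (by linarith)] at hsT
      rw [lt_sub_iff_add_lt, lt_div_iff₀ hs, div_add' _ _ _ hE0.ne', div_mul_eq_mul_div, div_lt_iff₀ hE0]
      nlinarith
    obtain ⟨τ, hτ1, hτ2⟩ := exists_between h3
    obtain ⟨τ', hτ'1, hτ'2⟩ := exists_between hτ1
    have hE1 : 0 < β / E := by positivity
    have hτ0 : 0 < τ := by linarith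
    have hτm : 1 / (m : ℝ) ≤ τ := by
      have : 1 / (m : ℝ) ≤ β / E := by
        rw [div_le_div_iff₀ hm0 hE0]
        linarith
      linarith
    have hst : s < (m + 1) / (1 + τ) := by
      rw [lt_sub_iff_add_lt, lt_div_iff₀ hs] at hτ2
      rw [lt_div_iff₀ (by linarith)]
      linarith
    -- the open sets
    obtain ⟨g, hg⟩ := exists_surjective_nat (ℕ ⊕ {a : Fin (m + 1) → ℤ // a ≠ 0})
    set V : (ℕ ⊕ {a : Fin (m + 1) → ℤ // a ≠ 0}) → Set (Fin m → ℝ) :=
      Sum.elim (fun n => GA m τ n) (fun a => HP a.1) with hV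
    have hVo : ∀ i, IsOpen (V i) := by
      rintro (n | a)
      · exact GA_open τ n
      · exact HP_open a.1
    have hVf : ∀ i, Full s (V i) := by
      rintro (n | a)
      · exact GA_full hm hτm hs hst n
      · exact full_of_null hs (by linarith) _ (HP_null a.1 a.2)
    refine cone_dim hm hs (by linarith) (fun n => V (g n)) (fun n => hVo _) (fun n => hVf _) L₀ Z hab hc hcab ?_
    intro t ht x hx hxU
    have hxV : ∀ i, x ∈ V i := by
      intro i
      obtain ⟨n, rfl⟩ := hg i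
      exact hxU n
    have ht0 : t ≠ 0 := by
      have := hcab t ht
      intro h0
      rw [h0, abs_zero] at this
      linarith
    refine ⟨hin t ht x hx, linInd_of_int ht0 x fun a ha => hxV (Sum.inr ⟨a, ha⟩), ?_⟩
    have hτ'0 : 0 < τ' := by linarith
    refine not_pt_of_appr (τ := τ') _ hτ'0 hβ ?_ ?_
    · rw [← hE]
      rwa [div_lt_iff₀ hE0] at hτ'1
    · intro Y
      refine appr_of_GA B (Fin.cons t (t • x)) (by simpa using ht0) hτ'0 hτ'2 ?_ Y
      intro n
      have e : (fun i : Fin m => (Fin.cons t (t • x) : Fin (m + 1) → ℝ) i.succ / (Fin.cons t (t • x) : Fin (m + 1) → ℝ) 0) = x := by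
        funext i
        simp only [Fin.cons_succ, Fin.cons_zero, Pi.smul_apply, smul_eq_mul]
        field_simp
      rw [e]
      exact hxV (Sum.inl n)
  refine le_of_forall_lt fun b hb => ?_
  have hbt : b ≠ ⊤ := ne_top_of_lt hb
  set ρ : ℝ := b.toReal with hρ
  have hbr : b = ENNReal.ofReal ρ := (ENNReal.ofReal_toReal hbt).symm
  have hr0 : 0 ≤ ρ := ENNReal.toReal_nonneg
  rw [hbr] at hb ⊢
  have hrt : ρ < 1 + T := (ENNReal.ofReal_lt_ofReal_iff (by linarith)).1 hb
  set s : ℝ := (max 0 (ρ - 1) + T) / 2 with hs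
  have hmx : max 0 (ρ - 1) < T := max_lt hT0 (by linarith)
  have hs0 : 0 < s := by
    have := le_max_left 0 (ρ - 1)
    linarith
  have hsT : s < T := by linarith
  refine lt_of_lt_of_le ?_ (main s hs0 hsT)
  refine (ENNReal.ofReal_lt_ofReal_iff (by linarith)).2 ?_
  have := le_max_right 0 (ρ - 1)
  linarith

end Pool.Agent.KS6_51.BW
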