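import Pool.Graph.R_seed8.R331.MT.One

set_option autoImplicit false

/-!
A mass transference lemma in `ℝ^m`: if almost every point of a cube is within `ρ k` of the set `C k`
for infinitely many `k`, then the union over `k ≥ n` of the balls of radius `(ρ k)^(m/t)` cannot be
covered by cubes with small `s`-dimensional sum, `s < t`.
-/

namespace Pool.Agent.KS6_51.BW

open MeasureTheory Filter Topology Set
open scoped ENNReal

open Pool.Agent.R331.MT (rpow_split rpow_tsum_le)

/-- the volume of an open cube -/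
theorem vol_open {m : ℕ} (a : Fin m → ℝ) (b : ℝ) :
    volume {x : Fin m → ℝ | ∀ i, x i ∈ Ioo (a i) (a i + b)} = ENNReal.ofReal b ^ m := by
  have e : {x : Fin m → ℝ | ∀ i, x i ∈ Ioo (a i) (a i + b)} = Set.pi univ fun i => Ioo (a i) (a i + b) := by
    ext x
    simp
  rw [e, Real.volume_pi_Ioo]
  simp

theorem vol_Ico {m : ℕ} (a : Fin m → ℝ) (b : ℝ) :
    volume {x : Fin m → ℝ | ∀ i, x i ∈ Ico (a i) (a i + b)} = ENNReal.ofReal b ^ m := by
  have e : {x : Fin m → ℝ | ∀ i, x i ∈ Ico (a i) (a i + b)} = Set.pi univ fun i => Ico (a i) (a i + b) := by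
    ext x
    simp
  rw [e, Real.volume_pi_Ico]
  simp

theorem vol_Icc {m : ℕ} (a : Fin m → ℝ) (b : ℝ) :
    volume {x : Fin m → ℝ | ∀ i, x i ∈ Icc (a i) (a i + b)} = ENNReal.ofReal b ^ m := by
  have e : {x : Fin m → ℝ | ∀ i, x i ∈ Icc (a i) (a i + b)} = Icc a (fun i => a i + b) := by
    ext x
    simp only [mem_ofPred_eq, mem_Icc, Pi.le_def]
    exact ⟨fun h => ⟨fun i => (h i).1, fun i => (h i).2⟩, fun h i => ⟨h.1 i, h.2 i⟩⟩
  rw [e, Real.volume_Icc_pi]
  simp

theorem meas_Icc {m : ℕ} (a : Fin m → ℝ) (b : ℝ) :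
    MeasurableSet {x : Fin m → ℝ | ∀ i, x i ∈ Icc (a i) (a i + b)} := by
  have e : {x : Fin m → ℝ | ∀ i, x i ∈ Icc (a i) (a i + b)} = Icc a (fun i => a i + b) := by
    ext x
    simp only [mem_ofPred_eq, mem_Icc, Pi.le_def]
    exact ⟨fun h => ⟨fun i => (h i).1, fun i => (h i).2⟩, fun h i => ⟨h.1 i, h.2 i⟩⟩
  rw [e]
  exact measurableSet_Icc

/-- if the `s`-dimensional sum is small then so is the total volume -/
theorem vol_small {ι : Type*} {m : ℕ} {s : ℝ} (hs : 0 < s) (hsm : s ≤ m) {b : ℝ} (hb : 0 < b)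
    (ℓ : ι → ℝ) (hcon : ∑' j, ENNReal.ofReal (ℓ j) ^ s < ENNReal.ofReal b ^ s) :
    (∀ j, ENNReal.ofReal (ℓ j) ≤ ENNReal.ofReal b) ∧
      ∑' j, ENNReal.ofReal (ℓ j) ^ m < ENNReal.ofReal b ^ m := by
  have hbat : ENNReal.ofReal b ≠ ⊤ := ENNReal.ofReal_ne_top
  have hba0 : ENNReal.ofReal b ≠ 0 := by
    rw [ENNReal.ofReal_ne_zero_iff]
    exact hb
  have hlen : ∀ j, ENNReal.ofReal (ℓ j) ≤ ENNReal.ofReal b := by
    intro j
    by_contra h
    push Not at h
    have h1 : ENNReal.ofReal b ^ s < ENNReal.ofReal (ℓ j) ^ s := ENNReal.rpow_lt_rpow h hs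
    have h2 : ENNReal.ofReal (ℓ j) ^ s ≤ ∑' j, ENNReal.ofReal (ℓ j) ^ s := ENNReal.le_tsum j
    exact absurd (h1.trans_le h2) (not_lt.mpr hcon.le)
  refine ⟨hlen, ?_⟩
  have hsplit : ∀ x : ℝ≥0∞, x ≠ 0 → x ≠ ⊤ → x ^ ((m : ℝ) - s) * x ^ s = x ^ m := by
    intro x h0 ht
    rw [← ENNReal.rpow_add _ _ h0 ht, sub_add_cancel, ENNReal.rpow_natCast]
  have h1 : ∀ j, ENNReal.ofReal (ℓ j) ^ m ≤ ENNReal.ofReal b ^ ((m : ℝ) - s) * ENNReal.ofReal (ℓ j) ^ s := by
    intro j
    rcases eq_or_ne (ENNReal.ofReal (ℓ j)) 0 with hi0 | hi0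
    · rw [hi0]
      rcases Nat.eq_zero_or_pos m with hm | hm
      · subst hm
        exfalso
        simp only [CharP.cast_eq_zero] at hsm
        linarith
      · rw [zero_pow (by omega)]
        exact zero_le
    rw [← hsplit _ hi0 ENNReal.ofReal_ne_top]
    have := hlen j
    have h0 : 0 ≤ (m : ℝ) - s := by linarith
    gcongr
  have h5 : ENNReal.ofReal b ^ ((m : ℝ) - s) ≠ 0 := (ENNReal.rpow_pos (pos_iff_ne_zero.mpr hba0) hbat).ne'
  have h6 : ENNReal.ofReal b ^ ((m : ℝ) - s) ≠ ⊤ := ENNReal.rpow_ne_top_of_nonneg (by linarith) hbat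
  calc ∑' j, ENNReal.ofReal (ℓ j) ^ m ≤ ENNReal.ofReal b ^ ((m : ℝ) - s) * ∑' j, ENNReal.ofReal (ℓ j) ^ s := by
        rw [← ENNReal.tsum_mul_left]
        exact ENNReal.tsum_le_tsum h1
    _ < ENNReal.ofReal b ^ ((m : ℝ) - s) * ENNReal.ofReal b ^ s :=
        (ENNReal.mul_lt_mul_iff_right h5 h6).mpr hcon
    _ = ENNReal.ofReal b ^ m := hsplit _ hba0 hbat

theorem lemma1 {ι : Type*} [Countable ι] {m : ℕ} (hm : 0 < m) {s t : ℝ} (hs : 0 < s) (hst : s < t)
    (ht : t ≤ m) (C : ℕ → Set (Fin m → ℝ)) (ρ : ℕ → ℝ) (hρ : ∀ k, 0 < ρ k)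
    (hρ0 : Tendsto ρ atTop (𝓝 0)) (a : Fin m → ℝ) {b : ℝ} (hb : 0 < b)
    (hfull : ∀ᵐ x ∂(volume : Measure (Fin m → ℝ)), (∀ i, x i ∈ Ioo (a i) (a i + b)) →
      ∃ᶠ k in atTop, ∃ c ∈ C k, dist x c < ρ k) (n : ℕ)
    (u : ι → Fin m → ℝ) (ℓ : ι → ℝ) (hℓ : ∀ j, 0 ≤ ℓ j)
    (hcov : ∀ y : Fin m → ℝ, (∀ i, y i ∈ Ioo (a i) (a i + b)) →
      (∃ k, n ≤ k ∧ ∃ c ∈ C k, dist y c < ρ k ^ (m / t)) → ∃ j, ∀ i, y i ∈ Ico (u j i) (u j i + ℓ j)) :
    ENNReal.ofReal b ^ s ≤ ∑' j, ENNReal.ofReal (ℓ j) ^ s := by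
  classical
  by_contra hcon
  push Not at hcon
  have hm0 : (0 : ℝ) < m := by exact_mod_cast hm
  have hsm : s ≤ m := by linarith
  set S := ∑' j, ENNReal.ofReal (ℓ j) ^ s with hS
  have hSt : S ≠ ⊤ := ne_top_of_lt hcon
  obtain ⟨hlen, hsum1⟩ := vol_small hs hsm hb ℓ hcon
  set O : Set (Fin m → ℝ) := {x | ∀ i, x i ∈ Ioo (a i) (a i + b)} with hO
  -- the exceptional open part
  set A : Set (Fin m → ℝ) := ⋃ j, {x | ∀ i, x i ∈ Icc (u j i) (u j i + ℓ j)} with hA
  have hvA : volume A ≤ ∑' j, ENNReal.ofReal (ℓ j) ^ m := by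
    refine (measure_iUnion_le _).trans (ENNReal.tsum_le_tsum fun j => ?_)
    rw [vol_Icc]
  have hD : volume (O \ A) ≠ 0 := by
    intro h0
    have h1 : volume O ≤ volume A := by
      calc volume O ≤ volume ((O \ A) ∪ A) := measure_mono (by
            intro x hx
            by_cases hxA : x ∈ A
            · right; exact hxA
            · left; exact ⟨hx, hxA⟩)
        _ ≤ volume (O \ A) + volume A := measure_union_le _ _
        _ = volume A := by rw [h0, zero_add]
    rw [hO, vol_open] at h1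
    exact absurd (h1.trans hvA) (not_le.mpr hsum1)
  -- Borel-Cantelli
  set Bg : ι → Set (Fin m → ℝ) :=
    fun j => {x | ∀ i, x i ∈ Icc (u j i - 4 * ℓ j) (u j i - 4 * ℓ j + 9 * ℓ j)} with hBg
  have hBC : ∀ᵐ x ∂(volume : Measure (Fin m → ℝ)), {j | x ∈ Bg j}.Finite := by
    apply ae_finite_setOfPred_mem
    have h1 : ∀ j, volume (Bg j) = 9 ^ m * ENNReal.ofReal (ℓ j) ^ m := by
      intro j
      rw [hBg]
      simp only
      rw [vol_Icc (fun i => u j i - 4 * ℓ j) (9 * ℓ j), ENNReal.ofReal_mul (by norm_num), mul_pow]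
      norm_num
    simp_rw [h1]
    rw [ENNReal.tsum_mul_left]
    exact ENNReal.mul_ne_top (by simp) (ne_top_of_lt (hsum1.trans_le le_top))
  -- the measure
  set ν : Measure (Fin m → ℝ) := Measure.sum (fun j => (ENNReal.ofReal (ℓ j) ^ s) • Measure.dirac (u j)) with hν
  have hνball : ∀ B : Set (Fin m → ℝ), MeasurableSet B → ν B = ∑' j, if u j ∈ B then ENNReal.ofReal (ℓ j) ^ s else 0 := by
    intro B hB
    rw [hν, Measure.sum_apply _ hB]
    apply tsum_congr
    intro j
    rw [Measure.smul_apply, Measure.dirac_apply' _ hB, smul_eq_mul]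
    by_cases h : u j ∈ B
    · simp [h]
    · simp [h]
  have : IsFiniteMeasure ν := by
    refine ⟨?_⟩
    rw [hνball _ MeasurableSet.univ]
    simp only [mem_univ, if_true]
    exact hSt.lt_top
  have hder := Besicovitch.ae_tendsto_rnDeriv ν (volume : Measure (Fin m → ℝ))
  have hder2 := Measure.rnDeriv_lt_top ν (volume : Measure (Fin m → ℝ))
  have hall := hfull.and (hBC.and (hder.and hder2))
  have hex : ∃ x ∈ O \ A, (x ∈ O → ∃ᶠ k in atTop, ∃ c ∈ C k, dist x c < ρ k) ∧
      {j | x ∈ Bg j}.Finite ∧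
      Tendsto (fun r => ν (Metric.closedBall x r) / volume (Metric.closedBall x r)) (𝓝[>] 0) (𝓝 (ν.rnDeriv volume x)) ∧
      ν.rnDeriv volume x < ⊤ := by
    by_contra hno
    push Not at hno
    apply hD
    rw [ae_iff] at hall
    refine measure_mono_null ?_ hall
    intro x hx hbad
    exact absurd (hno x hx hbad.1 hbad.2.1 hbad.2.2.1) (not_le.mpr hbad.2.2.2)
  obtain ⟨x, hxD, hx1, hx2, hx3, hx4⟩ := hex
  have hx1' := hx1 hxD.1
  -- constants
  obtain ⟨K, hK, hKr⟩ : ∃ K : ℝ, 0 < K ∧ ∀ᶠ r in 𝓝[>] (0:ℝ), ν (Metric.closedBall x r) ≤ ENNReal.ofReal (K * r ^ m) := by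
    obtain ⟨K', hK'1, hK'2⟩ := ENNReal.lt_iff_exists_nnreal_btwn.mp hx4
    have h1 := (tendsto_order.mp hx3).2 _ hK'1
    refine ⟨2 ^ m * (K' + 1), by positivity, ?_⟩
    filter_upwards [h1, self_mem_nhdsWithin] with r hr hr0
    have hr0' : (0:ℝ) < r := hr0
    rw [Real.volume_pi_closedBall _ hr0'.le, Fintype.card_fin] at hr
    have hpos : (0 : ℝ) < (2 * r) ^ m := by positivity
    have h2 := (ENNReal.div_lt_iff (Or.inl (by rw [ENNReal.ofReal_ne_zero_iff]; exact hpos))
      (Or.inl ENNReal.ofReal_ne_top)).mp hr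
    refine h2.le.trans ?_
    rw [← ENNReal.ofReal_coe_nnreal, ← ENNReal.ofReal_mul (NNReal.coe_nonneg _)]
    apply ENNReal.ofReal_le_ofReal
    have h3 : (0 : ℝ) < 2 ^ m * r ^ m := by positivity
    rw [mul_pow]
    nlinarith [K'.2]
  obtain ⟨r0, hr0, hr0'⟩ : ∃ r0 : ℝ, 0 < r0 ∧ ∀ r, 0 < r → r < r0 → ν (Metric.closedBall x r) ≤ ENNReal.ofReal (K * r ^ m) := by
    rw [eventually_nhdsWithin_iff, Metric.eventually_nhds_iff] at hKr
    obtain ⟨ε, hε, h⟩ := hKr
    refine ⟨ε, hε, fun r h1 h2 => h ?_ h1⟩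
    rw [Real.dist_eq, sub_zero, abs_of_pos h1]
    exact h2
  -- distance to the finitely many large cubes
  obtain ⟨δ, hδ, hδ'⟩ : ∃ δ : ℝ, 0 < δ ∧ ∀ j, x ∈ Bg j →
      ∃ i, x i + δ ≤ u j i ∨ u j i + ℓ j + δ ≤ x i := by
    have h1 : ∀ j, ∃ δ : ℝ, 0 < δ ∧ ∃ i, x i + δ ≤ u j i ∨ u j i + ℓ j + δ ≤ x i := by
      intro j
      have : x ∉ {x : Fin m → ℝ | ∀ i, x i ∈ Icc (u j i) (u j i + ℓ j)} := fun h => hxD.2 (mem_iUnion.mpr ⟨j, h⟩)
      rw [mem_ofPred_eq] at this
      push Not at this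
      obtain ⟨i, hi⟩ := this
      rw [mem_Icc, not_and_or] at hi
      rcases hi with h | h
      · exact ⟨u j i - x i, by linarith [not_le.mp h], i, Or.inl (by linarith)⟩
      · exact ⟨x i - (u j i + ℓ j), by linarith [not_le.mp h], i, Or.inr (by linarith)⟩
    choose g hg0 hg using h1
    obtain ⟨δ, hδ1, hδ2⟩ : ∃ δ : ℝ, 0 < δ ∧ ∀ j ∈ hx2.toFinset, δ ≤ g j := by
      clear hr0' hKr
      generalize hx2.toFinset = F
      classical
      induction F using Finset.induction_on with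
      | empty => exact ⟨1, one_pos, fun j hj => absurd hj (Finset.notMem_empty _)⟩
      | insert i F hi ih =>
        obtain ⟨δ, h1', h2'⟩ := ih
        refine ⟨min δ (g i), lt_min h1' (hg0 i), fun j hj => ?_⟩
        rcases Finset.mem_insert.mp hj with rfl | hj
        · exact min_le_right _ _
        · exact (min_le_left _ _).trans (h2' j hj)
    refine ⟨δ, hδ1, fun j hj => ?_⟩
    have h3 := hδ2 j (hx2.mem_toFinset.mpr hj)
    obtain ⟨i, hi⟩ := hg j
    refine ⟨i, ?_⟩
    rcases hi with h | h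
    · left; linarith
    · right; linarith
  -- smallness of ρ k
  have ht0 : 0 < t := by linarith
  have hpow : Tendsto (fun k => ρ k ^ (m * (1 - s/t))) atTop (𝓝 0) := by
    have h1 : 0 < m * (1 - s/t) := by
      have : s / t < 1 := by rw [div_lt_one (by linarith)]; exact hst
      apply mul_pos hm0
      linarith
    have := (Real.continuousAt_rpow_const 0 (m * (1 - s/t)) (Or.inr h1.le)).tendsto.comp hρ0
    rw [Real.zero_rpow h1.ne'] at this
    exact this
  -- distance to the boundary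
  obtain ⟨θ, hθ, hθ'⟩ : ∃ θ : ℝ, 0 < θ ∧ ∀ i, a i + θ ≤ x i ∧ x i + θ ≤ a i + b := by
    have hopen : IsOpen O := by
      have e : O = Set.pi univ fun i => Ioo (a i) (a i + b) := by
        ext x
        simp [hO]
      rw [e]
      exact isOpen_set_pi finite_univ fun i _ => isOpen_Ioo
    obtain ⟨ε, hε, hball⟩ := Metric.isOpen_iff.mp hopen x hxD.1
    refine ⟨ε / 2, by positivity, fun i => ⟨?_, ?_⟩⟩
    · have h1 : (fun j => x j - ε / 2) ∈ O := by
        apply hball
        rw [Metric.mem_ball, dist_pi_lt_iff hε]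
        intro j
        rw [Real.dist_eq]
        have : x j - ε / 2 - x j = -(ε/2) := by ring
        rw [this, abs_neg, abs_of_pos (by positivity)]
        linarith
      have := (h1 i).1
      linarith
    · have h1 : (fun j => x j + ε / 2) ∈ O := by
        apply hball
        rw [Metric.mem_ball, dist_pi_lt_iff hε]
        intro j
        rw [Real.dist_eq]
        have : x j + ε / 2 - x j = (ε/2) := by ring
        rw [this, abs_of_pos (by positivity)]
        linarith
      have := (h1 i).2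
      linarith
  have hsmall : ∀ᶠ k in atTop, ρ k < min 1 (min (r0/3) (min (δ/3) (θ/3))) ∧
      ρ k ^ (m * (1 - s/t)) < 1/(3 ^ m *K) ∧ n ≤ k := by
    have hm : 0 < min 1 (min (r0/3) (min (δ/3) (θ/3))) := by
      refine lt_min one_pos (lt_min (by linarith) (lt_min (by linarith) (by linarith)))
    exact ((tendsto_order.mp hρ0).2 _ hm).and (((tendsto_order.mp hpow).2 _ (by positivity)).and (eventually_ge_atTop n))
  obtain ⟨k, ⟨c, hcC, hxc⟩, hk1, hk2, hk3⟩ := (hx1'.and_eventually hsmall).exists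
  have hρk := hρ k
  have g1 : ρ k < 1 := hk1.trans_le (min_le_left _ _)
  have g2 : ρ k < r0/3 := hk1.trans_le ((min_le_right _ _).trans (min_le_left _ _))
  have g3 : ρ k < δ/3 := hk1.trans_le ((min_le_right _ _).trans ((min_le_right _ _).trans (min_le_left _ _)))
  have g4 : ρ k < θ/3 := hk1.trans_le ((min_le_right _ _).trans ((min_le_right _ _).trans
    (min_le_right _ _)))
  set σ := ρ k ^ (m/t) with hσ
  have hσ0 : 0 < σ := Real.rpow_pos_of_pos hρk _
  have hσρ : σ ≤ ρ k := by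
    calc σ ≤ ρ k ^ (1:ℝ) := Real.rpow_le_rpow_of_exponent_ge hρk g1.le (by rw [le_div_iff₀ ht0]; linarith)
      _ = ρ k := Real.rpow_one _
  rw [dist_pi_lt_iff hρk] at hxc
  -- the small ball is covered by short cubes near x
  set G : ι → ℝ≥0∞ := fun j => if u j ∈ Metric.closedBall x (3 * ρ k) then ENNReal.ofReal (ℓ j) ^ m else 0 with hG
  have hcovb : Metric.ball c σ ⊆ ⋃ j : {j // u j ∈ Metric.closedBall x (3 * ρ k)},
      {y : Fin m → ℝ | ∀ i, y i ∈ Ico (u j.1 i) (u j.1 i + ℓ j.1)} := by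
    intro y hy
    rw [Metric.mem_ball] at hy
    have hy1 : ∀ i, |y i - c i| < σ := by
      intro i
      have := (dist_pi_lt_iff hσ0).mp hy i
      rwa [Real.dist_eq] at this
    have hyx : ∀ i, |y i - x i| < 2 * ρ k := by
      intro i
      have h1 := hy1 i
      have h2 := hxc i
      rw [Real.dist_eq] at h2
      have h3 : |y i - x i| ≤ |y i - c i| + |x i - c i| := by
        have := abs_sub_le (y i) (c i) (x i)
        rw [abs_sub_comm (c i) (x i)] at this
        exact this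
      linarith
    have hyab : ∀ i, y i ∈ Ioo (a i) (a i + b) := by
      intro i
      have h1 := abs_lt.mp (hyx i)
      have h2 := hθ' i
      constructor <;> linarith
    obtain ⟨j, hj⟩ := hcov y hyab ⟨k, hk3, c, hcC, hy⟩
    refine mem_iUnion.mpr ⟨⟨j, ?_⟩, hj⟩
    have hnot : x ∉ Bg j := by
      intro hin
      obtain ⟨i, hi⟩ := hδ' j hin
      have h1 := abs_lt.mp (hyx i)
      rcases hi with h | h
      · linarith [(hj i).1]
      · linarith [(hj i).2]
    rw [hBg] at hnot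
    simp only [mem_ofPred_eq] at hnot
    push Not at hnot
    obtain ⟨i, hi⟩ := hnot
    rw [mem_Icc, not_and_or, not_le, not_le] at hi
    have hℓρ : ℓ j ≤ ρ k := by
      have h1 := abs_lt.mp (hyx i)
      have h2 := (hj i).1
      have h3 := (hj i).2
      have h4 := hℓ j
      rcases hi with h | h
      · linarith
      · linarith
    rw [Metric.mem_closedBall, dist_pi_le_iff (by positivity)]
    intro i'
    rw [Real.dist_eq, abs_le]
    have h1 := abs_lt.mp (hyx i')
    have h2 := (hj i').1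
    have h3 := (hj i').2
    constructor <;> linarith
  have hvol : ENNReal.ofReal ((2 * σ) ^ m) ≤ ∑' j, G j := by
    calc ENNReal.ofReal ((2 * σ) ^ m) = volume (Metric.ball c σ) := by
          rw [Real.volume_pi_ball _ hσ0, Fintype.card_fin]
      _ ≤ volume (⋃ j : {j // u j ∈ Metric.closedBall x (3 * ρ k)},
            {y : Fin m → ℝ | ∀ i, y i ∈ Ico (u j.1 i) (u j.1 i + ℓ j.1)}) := measure_mono hcovb
      _ ≤ ∑' j : {j // u j ∈ Metric.closedBall x (3 * ρ k)},
            volume {y : Fin m → ℝ | ∀ i, y i ∈ Ico (u j.1 i) (u j.1 i + ℓ j.1)} := measure_iUnion_le _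
      _ = ∑' j : {j // u j ∈ Metric.closedBall x (3 * ρ k)}, ENNReal.ofReal (ℓ j.1) ^ m := by
          apply tsum_congr
          intro j
          rw [vol_Ico]
      _ = ∑' j, G j := by
          have := tsum_subtype {j | u j ∈ Metric.closedBall x (3 * ρ k)} (fun j => ENNReal.ofReal (ℓ j) ^ m)
          refine Eq.trans this ?_
          apply tsum_congr
          intro j
          rw [hG]
          by_cases h : u j ∈ Metric.closedBall x (3 * ρ k)
          · rw [Set.indicator_of_mem (show j ∈ {j | u j ∈ Metric.closedBall x (3 * ρ k)} from h)]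
            simp only [if_pos h]
          · rw [Set.indicator_of_notMem (show j ∉ {j | u j ∈ Metric.closedBall x (3 * ρ k)} from h)]
            simp only [if_neg h]
  have hsm0 : 0 < s / m := by positivity
  have hsm1 : s / m ≤ 1 := by
    rw [div_le_one hm0]
    exact hsm
  have hν1 : ENNReal.ofReal ((2 * σ) ^ m) ^ (s / m) ≤ ν (Metric.closedBall x (3 * ρ k)) := by
    calc ENNReal.ofReal ((2 * σ) ^ m) ^ (s / m) ≤ (∑' j, G j) ^ (s / m) := ENNReal.rpow_le_rpow hvol hsm0.le
      _ ≤ ∑' j, (G j) ^ (s / m) := rpow_tsum_le G hsm0 hsm1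
      _ = ν (Metric.closedBall x (3 * ρ k)) := by
          rw [hνball _ measurableSet_closedBall]
          apply tsum_congr
          intro j
          rw [hG]
          by_cases h : u j ∈ Metric.closedBall x (3 * ρ k)
          · simp only [if_pos h]
            rw [← ENNReal.rpow_natCast, ← ENNReal.rpow_mul]
            congr 1
            field_simp
          · simp only [if_neg h, ENNReal.zero_rpow_of_pos hsm0]
  have hν2 := hr0' (3 * ρ k) (by linarith) (by linarith)
  have hfin : (2 * σ) ^ s ≤ K * (3 * ρ k) ^ m := by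
    have h1 := hν1.trans hν2
    rw [ENNReal.ofReal_rpow_of_pos (by positivity)] at h1
    have h2 := (ENNReal.ofReal_le_ofReal_iff (by positivity)).mp h1
    have h3 : ((2 * σ) ^ m) ^ (s / m) = (2 * σ) ^ s := by
      rw [← Real.rpow_natCast, ← Real.rpow_mul (by positivity)]
      congr 1
      field_simp
    rw [h3] at h2
    exact h2
  have h1 : ρ k ^ (m * (s/t)) ≤ (2 * σ) ^ s := by
    calc ρ k ^ (m * (s/t)) = σ ^ s := by
          rw [hσ, ← Real.rpow_mul hρk.le]
          congr 1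
          field_simp
      _ ≤ (2 * σ) ^ s := Real.rpow_le_rpow hσ0.le (by linarith) hs.le
  have h2 : ρ k ^ m = ρ k ^ (m * (1 - s/t)) * ρ k ^ (m * (s/t)) := by
    rw [← Real.rpow_add hρk, ← Real.rpow_natCast]
    congr 1
    ring
  have h3 : 0 < ρ k ^ (m * (s/t)) := Real.rpow_pos_of_pos hρk _
  have h4 : K * (3 * ρ k) ^ m < ρ k ^ (m * (s/t)) := by
    calc K * (3 * ρ k) ^ m = (3 ^ m * K * ρ k ^ (m * (1 - s/t))) * ρ k ^ (m * (s/t)) := by
          rw [mul_pow, h2]
          ring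
      _ < 1 * ρ k ^ (m * (s/t)) := by
          apply mul_lt_mul_of_pos_right _ h3
          rw [lt_div_iff₀ (by positivity)] at hk2
          linarith
      _ = _ := one_mul _
  linarith

end Pool.Agent.KS6_51.BW
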