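import Pool.Agent.KS6_51.BW.M1

set_option autoImplicit false

/-!
Intersections of open subsets of `ℝ^m` with full dyadic content, by a nested cube game.
-/

namespace Pool.Agent.KS6_51.BW

open MeasureTheory Filter Topology Set
open scoped ENNReal

variable {m : ℕ}

/-- dyadic cube of level `p.1` -/
def D (p : ℕ × (Fin m → ℤ)) : Set (Fin m → ℝ) :=
  {x | ∀ i, x i ∈ Ico ((p.2 i:ℝ) / 2^p.1) (((p.2 i:ℝ)+1) / 2^p.1)}

def Dc (p : ℕ × (Fin m → ℤ)) : Set (Fin m → ℝ) :=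
  {x | ∀ i, x i ∈ Icc ((p.2 i:ℝ) / 2^p.1) (((p.2 i:ℝ)+1) / 2^p.1)}

noncomputable def idx (n : ℕ) (x : Fin m → ℝ) : Fin m → ℤ := fun i => ⌊x i * 2^n⌋

theorem mem_D_iff {x : Fin m → ℝ} (n : ℕ) (k : Fin m → ℤ) : x ∈ D (n, k) ↔ k = idx n x := by
  unfold D idx
  simp only [mem_ofPred_eq, mem_Ico]
  constructor
  · intro h
    funext i
    have h1 := h i
    rw [div_le_iff₀ (by positivity), lt_div_iff₀ (by positivity)] at h1
    exact (Int.floor_eq_iff.mpr h1).symm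
  · intro h i
    rw [h]
    simp only
    rw [div_le_iff₀ (by positivity), lt_div_iff₀ (by positivity)]
    exact ⟨Int.floor_le _, Int.lt_floor_add_one _⟩

theorem mem_D_idx (x : Fin m → ℝ) (n : ℕ) : x ∈ D (n, idx n x) := (mem_D_iff n _).mpr rfl

/-- nested or disjoint -/
theorem D_nested {p q : ℕ × (Fin m → ℤ)} {x : Fin m → ℝ} (hp : x ∈ D p) (hq : x ∈ D q) (h : q.1 ≤ p.1) :
    D p ⊆ D q := by
  intro y hy i
  obtain ⟨d, hd⟩ := Nat.exists_eq_add_of_le h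
  have hp' := hp i
  have hq' := hq i
  have hy' := hy i
  simp only [mem_Ico] at hp' hq' hy' ⊢
  have e2 : (2:ℝ) ^ p.1 = 2 ^ q.1 * 2 ^ d := by rw [hd, pow_add]
  rw [div_le_iff₀ (by positivity), lt_div_iff₀ (by positivity)] at hp' hq' hy'
  rw [div_le_iff₀ (by positivity), lt_div_iff₀ (by positivity)]
  rw [e2] at hp' hy'
  have hd0 : (0:ℝ) < 2 ^ d := by positivity
  have h1 : ((q.2 i * 2 ^ d : ℤ) : ℝ) < ((p.2 i + 1 : ℤ) : ℝ) := by
    push_cast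
    calc (q.2 i : ℝ) * 2 ^ d ≤ x i * 2 ^ q.1 * 2 ^ d := by gcongr; exact hq'.1
      _ = x i * (2 ^ q.1 * 2 ^ d) := by ring
      _ < _ := hp'.2
  have h2 : ((p.2 i : ℤ) : ℝ) < (((q.2 i + 1) * 2 ^ d : ℤ) : ℝ) := by
    push_cast
    calc (p.2 i : ℝ) ≤ x i * (2 ^ q.1 * 2 ^ d) := hp'.1
      _ = x i * 2 ^ q.1 * 2 ^ d := by ring
      _ < _ := by gcongr; exact hq'.2
  have h1' : q.2 i * 2 ^ d ≤ p.2 i := Int.lt_add_one_iff.mp (by exact_mod_cast h1)
  have h2' : p.2 i + 1 ≤ (q.2 i + 1) * 2 ^ d := Int.add_one_le_iff.mpr (by exact_mod_cast h2)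
  have h1'' : (q.2 i : ℝ) * 2 ^ d ≤ p.2 i := by exact_mod_cast h1'
  have h2'' : (p.2 i : ℝ) + 1 ≤ ((q.2 i : ℝ) + 1) * 2 ^ d := by exact_mod_cast h2'
  constructor
  · have : (q.2 i : ℝ) * 2 ^ d ≤ (y i * 2 ^ q.1) * 2 ^ d := by
      calc (q.2 i : ℝ) * 2 ^ d ≤ p.2 i := h1''
        _ ≤ y i * (2 ^ q.1 * 2 ^ d) := hy'.1
        _ = _ := by ring
    exact le_of_mul_le_mul_right this hd0
  · have : (y i * 2 ^ q.1) * 2 ^ d < ((q.2 i : ℝ) + 1) * 2 ^ d := by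
      calc (y i * 2 ^ q.1) * 2 ^ d = y i * (2 ^ q.1 * 2 ^ d) := by ring
        _ < (p.2 i : ℝ) + 1 := hy'.2
        _ ≤ _ := h2''
    exact lt_of_mul_lt_mul_right this hd0.le

theorem D_nonempty (p : ℕ × (Fin m → ℤ)) : (fun i => (p.2 i:ℝ) / 2^p.1) ∈ D p := by
  intro i
  refine ⟨le_rfl, ?_⟩
  apply div_lt_div_of_pos_right _ (by positivity)
  linarith

theorem D_eq (p : ℕ × (Fin m → ℤ)) :
    D p = {x | ∀ i, x i ∈ Ico ((p.2 i:ℝ) / 2^p.1) ((p.2 i:ℝ) / 2^p.1 + 1 / 2 ^ p.1)} := by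
  unfold D
  simp only [add_div]

theorem vol_D (p : ℕ × (Fin m → ℤ)) : volume (D p) = ENNReal.ofReal (1 / 2 ^ p.1) ^ m := by
  rw [D_eq, vol_Ico (fun i => (p.2 i:ℝ) / 2^p.1) (1 / 2 ^ p.1)]

theorem D_level (hm : 0 < m) {p q : ℕ × (Fin m → ℤ)} (h : D p ⊆ D q) : q.1 ≤ p.1 := by
  by_contra hcon
  push Not at hcon
  have h3 := measure_mono (μ := volume) h
  rw [vol_D, vol_D] at h3
  have h5 : (1:ℝ) / 2^q.1 < 1 / 2^p.1 := by
    apply one_div_lt_one_div_of_lt (by positivity)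
    exact pow_lt_pow_right₀ (by norm_num) hcon
  have h6 : ENNReal.ofReal (1 / 2 ^ q.1) < ENNReal.ofReal (1 / 2 ^ p.1) :=
    (ENNReal.ofReal_lt_ofReal_iff (by positivity)).mpr h5
  have h7 : ENNReal.ofReal (1 / 2 ^ q.1) ^ m < ENNReal.ofReal (1 / 2 ^ p.1) ^ m :=
    ENNReal.pow_right_strictMono hm.ne' h6
  exact absurd h3 (not_le.mpr h7)

theorem D_inj {p q : ℕ × (Fin m → ℤ)} {x : Fin m → ℝ} (hp : x ∈ D p) (hq : x ∈ D q) (h : p.1 = q.1) : p = q := by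
  have e1 : p.2 = idx p.1 x := (mem_D_iff p.1 p.2).mp hp
  have e2 : q.2 = idx q.1 x := (mem_D_iff q.1 q.2).mp hq
  ext1
  · exact h
  · rw [e1, e2, h]

noncomputable def wt (s : ℝ) (p : ℕ × (Fin m → ℤ)) : ℝ≥0∞ := ENNReal.ofReal (1 / 2^p.1) ^ s

/-- total weight of a set of dyadic indices -/
noncomputable def W (s : ℝ) (T : Set (ℕ × (Fin m → ℤ))) : ℝ≥0∞ := ∑' p, T.indicator (wt s) p

theorem W_mono {s : ℝ} {T T' : Set (ℕ × (Fin m → ℤ))} (h : T ⊆ T') : W s T ≤ W s T' :=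
  ENNReal.tsum_le_tsum fun _ => Set.indicator_le_indicator_of_subset h (fun _ => zero_le) _

theorem W_union {s : ℝ} (T T' : Set (ℕ × (Fin m → ℤ))) : W s (T ∪ T') ≤ W s T + W s T' := by
  unfold W
  rw [← ENNReal.tsum_add]
  apply ENNReal.tsum_le_tsum
  intro p
  by_cases hp1 : p ∈ T
  · rw [Set.indicator_of_mem (show p ∈ T ∪ T' from Or.inl hp1), Set.indicator_of_mem hp1]
    exact le_self_add
  · by_cases hp2 : p ∈ T'
    · rw [Set.indicator_of_mem (show p ∈ T ∪ T' from Or.inr hp2), Set.indicator_of_mem hp2]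
      exact le_add_self
    · rw [Set.indicator_of_notMem (by rintro (h | h); exact hp1 h; exact hp2 h)]
      exact zero_le

theorem W_disj {s : ℝ} {T T' S : Set (ℕ × (Fin m → ℤ))} (h : T ⊆ S) (h' : T' ⊆ S) (hd : ∀ p ∈ T, p ∉ T') :
    W s T + W s T' ≤ W s S := by
  unfold W
  rw [← ENNReal.tsum_add]
  apply ENNReal.tsum_le_tsum
  intro p
  by_cases hp1 : p ∈ T
  · rw [Set.indicator_of_mem (h hp1), Set.indicator_of_mem hp1, Set.indicator_of_notMem (hd p hp1), add_zero]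
  · rw [Set.indicator_of_notMem hp1, zero_add]
    exact Set.indicator_le_indicator_of_subset h' (fun _ => zero_le) _

/-- full content property of `U` -/
def Full (s : ℝ) (U : Set (Fin m → ℝ)) : Prop := ∀ L : ℕ × (Fin m → ℤ), ∀ T : Set (ℕ × (Fin m → ℤ)),
  (∀ y ∈ D L, y ∈ U → ∃ p ∈ T, y ∈ D p) → wt s L ≤ W s T

def Unsat (s : ℝ) (T : Set (ℕ × (Fin m → ℤ))) (L : ℕ × (Fin m → ℤ)) : Prop :=
  (∀ J ∈ T, ¬ D L ⊆ D J) ∧ W s {J | J ∈ T ∧ D J ⊆ D L} < wt s L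

theorem game_step (hm : 0 < m) {s : ℝ} {T : Set (ℕ × (Fin m → ℤ))} {U : Set (Fin m → ℝ)} (hU : IsOpen U)
    (hF : Full s U) {L : ℕ × (Fin m → ℤ)} (hL : Unsat s T L) :
    ∃ L', D L' ⊆ D L ∧ Dc L' ⊆ U ∧ L.1 < L'.1 ∧ Unsat s T L' := by
  classical
  by_contra hno
  push Not at hno
  set A : Set (ℕ × (Fin m → ℤ)) := {L' | D L' ⊆ D L ∧ Dc L' ⊆ U ∧ L.1 < L'.1} with hA
  set Mx : Set (ℕ × (Fin m → ℤ)) := {L' | L' ∈ A ∧ (∀ L'' ∈ A, D L' ⊆ D L'' → L'' = L') ∧ ∀ J ∈ T, ¬ D L' ⊆ D J} with hMx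
  set T' : Set (ℕ × (Fin m → ℤ)) := {J | J ∈ T ∧ D J ⊆ D L ∧ ∀ L' ∈ Mx, ¬ D J ⊆ D L'} with hT'
  have hcover : ∀ y ∈ D L, y ∈ U → ∃ p ∈ Mx ∪ T', y ∈ D p := by
    intro y hyL hyU
    have hex : ∃ n, (n, idx n y) ∈ A := by
      obtain ⟨ε, hε, hball⟩ := Metric.isOpen_iff.mp hU y hyU
      obtain ⟨n₀, hn₀⟩ := exists_pow_lt_of_lt_one hε (by norm_num : (1:ℝ)/2 < 1)
      set n := max n₀ (L.1 + 1) with hn
      refine ⟨n, ?_, ?_, ?_⟩
      · exact D_nested (mem_D_idx y n) hyL (by show L.1 ≤ n; omega)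
      · intro z hz
        apply hball
        rw [Metric.mem_ball, dist_pi_lt_iff hε]
        intro i
        have hyn := mem_D_idx y n i
        have h1 := (hz i).1
        have h2 := (hz i).2
        have h3 := hyn.1
        have h4 := hyn.2
        have h5 : (1:ℝ) / 2^n < ε := by
          calc (1:ℝ) / 2^n = (1/2)^n := by rw [div_pow, one_pow]
            _ ≤ (1/2)^n₀ := pow_le_pow_of_le_one (by norm_num) (by norm_num) (le_max_left _ _)
            _ < ε := hn₀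
        simp only at h1 h2 h3 h4
        rw [add_div] at h2 h4
        rw [Real.dist_eq, abs_lt]
        constructor <;> linarith
      · show L.1 < n
        omega
    have hmem := Nat.find_spec hex
    set n := Nat.find hex with hn
    set L' : ℕ × (Fin m → ℤ) := (n, idx n y) with hL'
    have hyL' : y ∈ D L' := mem_D_idx y n
    have hmax : ∀ L'' ∈ A, D L' ⊆ D L'' → L'' = L' := by
      intro L'' hL'' hsub
      have hy'' : y ∈ D L'' := hsub hyL'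
      have h1 : L''.1 ≤ n := D_level hm hsub
      have h2 : n ≤ L''.1 := by
        apply Nat.find_min'
        have : (L''.1, idx L''.1 y) = L'' := D_inj (mem_D_idx y _) hy'' rfl
        rw [this]
        exact hL''
      exact D_inj hy'' hyL' (le_antisymm h1 h2)
    by_cases hJ : ∀ J ∈ T, ¬ D L' ⊆ D J
    · exact ⟨L', Or.inl ⟨hmem, hmax, hJ⟩, hyL'⟩
    · push Not at hJ
      obtain ⟨J, hJT, hsub⟩ := hJ
      have hyJ : y ∈ D J := hsub hyL'
      have hlev : L.1 < J.1 := by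
        by_contra hcon
        push Not at hcon
        exact hL.1 J hJT (D_nested hyL hyJ hcon)
      have hJL : D J ⊆ D L := D_nested hyJ hyL hlev.le
      by_cases hin : ∃ L'' ∈ Mx, D J ⊆ D L''
      · obtain ⟨L'', h1, h2⟩ := hin
        exact ⟨L'', Or.inl h1, h2 hyJ⟩
      · push Not at hin
        exact ⟨J, Or.inr ⟨hJT, hJL, hin⟩, hyJ⟩
  have h1 := hF L (Mx ∪ T') hcover
  -- weights
  have hMw : ∀ L' ∈ Mx, wt s L' ≤ W s {J | J ∈ T ∧ D J ⊆ D L'} := by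
    intro L' hL'
    obtain ⟨⟨a1, a2, a3⟩, _, a4⟩ := hL'
    have := hno L' a1 a2 a3
    unfold Unsat at this
    rw [not_and] at this
    exact not_lt.mp (this a4)
  have hdisj : ∀ J : ℕ × (Fin m → ℤ), ∀ L₁ ∈ Mx, ∀ L₂ ∈ Mx, D J ⊆ D L₁ → D J ⊆ D L₂ → L₁ = L₂ := by
    intro J L₁ h₁ L₂ h₂ s₁ s₂
    have x₁ := s₁ (D_nonempty J)
    have x₂ := s₂ (D_nonempty J)
    rcases le_total L₁.1 L₂.1 with h | h
    · exact h₂.2.1 L₁ h₁.1 (D_nested x₂ x₁ h)
    · exact (h₁.2.1 L₂ h₂.1 (D_nested x₁ x₂ h)).symm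
  have h2 : W s Mx ≤ W s {J | J ∈ T ∧ D J ⊆ D L ∧ ∃ L' ∈ Mx, D J ⊆ D L'} := by
    calc W s Mx ≤ ∑' L', ∑' J, ({x : (ℕ × (Fin m → ℤ)) × (ℕ × (Fin m → ℤ)) | x.1 ∈ Mx ∧ x.2 ∈ T ∧ D x.2 ⊆ D x.1}).indicator
            (fun x => wt s x.2) (L', J) := by
          unfold W
          apply ENNReal.tsum_le_tsum
          intro L'
          by_cases hL' : L' ∈ Mx
          · rw [Set.indicator_of_mem hL']
            refine (hMw L' hL').trans (le_of_eq ?_)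
            unfold W
            apply tsum_congr
            intro J
            by_cases hc : J ∈ T ∧ D J ⊆ D L'
            · rw [Set.indicator_of_mem (show J ∈ {J | J ∈ T ∧ D J ⊆ D L'} from hc),
                Set.indicator_of_mem (show (L', J) ∈ {x : (ℕ × (Fin m → ℤ)) × (ℕ × (Fin m → ℤ)) | x.1 ∈ Mx ∧ x.2 ∈ T ∧ D x.2 ⊆ D x.1} from ⟨hL', hc⟩)]
            · rw [Set.indicator_of_notMem (show J ∉ {J | J ∈ T ∧ D J ⊆ D L'} from hc),
                Set.indicator_of_notMem (show (L', J) ∉ {x : (ℕ × (Fin m → ℤ)) × (ℕ × (Fin m → ℤ)) | x.1 ∈ Mx ∧ x.2 ∈ T ∧ D x.2 ⊆ D x.1} from fun h => hc h.2)]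
          · rw [Set.indicator_of_notMem hL']
            exact zero_le
      _ = ∑' J, ∑' L', ({x : (ℕ × (Fin m → ℤ)) × (ℕ × (Fin m → ℤ)) | x.1 ∈ Mx ∧ x.2 ∈ T ∧ D x.2 ⊆ D x.1}).indicator
            (fun x => wt s x.2) (L', J) := ENNReal.tsum_comm
      _ ≤ _ := by
          unfold W
          apply ENNReal.tsum_le_tsum
          intro J
          by_cases hc : ∃ L' ∈ Mx, J ∈ T ∧ D J ⊆ D L'
          · obtain ⟨L', hL', hJT, hJL'⟩ := hc
            rw [tsum_eq_single L']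
            · rw [Set.indicator_of_mem (show (L', J) ∈ {x : (ℕ × (Fin m → ℤ)) × (ℕ × (Fin m → ℤ)) | x.1 ∈ Mx ∧ x.2 ∈ T ∧ D x.2 ⊆ D x.1} from ⟨hL', hJT, hJL'⟩),
                Set.indicator_of_mem (show J ∈ {J | J ∈ T ∧ D J ⊆ D L ∧ ∃ L' ∈ Mx, D J ⊆ D L'} from
                  ⟨hJT, hJL'.trans hL'.1.1, L', hL', hJL'⟩)]
            · intro L'' hne
              rw [Set.indicator_of_notMem]
              rintro ⟨a1, a2, a3⟩
              exact hne (hdisj J L'' a1 L' hL' a3 hJL')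
          · have : ∑' L', ({x : (ℕ × (Fin m → ℤ)) × (ℕ × (Fin m → ℤ)) | x.1 ∈ Mx ∧ x.2 ∈ T ∧ D x.2 ⊆ D x.1}).indicator
                (fun x => wt s x.2) (L', J) = 0 := by
              rw [ENNReal.tsum_eq_zero]
              intro L'
              rw [Set.indicator_of_notMem]
              rintro ⟨a1, a2, a3⟩
              exact hc ⟨L', a1, a2, a3⟩
            rw [this]
            exact zero_le
  have h3 : W s (Mx ∪ T') ≤ W s Mx + W s T' := W_union _ _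
  have h4 : W s {J | J ∈ T ∧ D J ⊆ D L ∧ ∃ L' ∈ Mx, D J ⊆ D L'} + W s T' ≤ W s {J | J ∈ T ∧ D J ⊆ D L} := by
    apply W_disj
    · exact fun J hJ => ⟨hJ.1, hJ.2.1⟩
    · exact fun J hJ => ⟨hJ.1, hJ.2.1⟩
    · intro J hJ hJ'
      obtain ⟨L', hL', hsub⟩ := hJ.2.2
      exact hJ'.2.2 L' hL' hsub
  have h5 : wt s L ≤ W s {J | J ∈ T ∧ D J ⊆ D L} :=
    h1.trans (h3.trans ((add_le_add_left h2 _).trans h4))
  exact absurd h5 (not_le.mpr hL.2)

theorem Dc_mono {p q : ℕ × (Fin m → ℤ)} (h : D p ⊆ D q) : Dc p ⊆ Dc q := by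
  have e : ∀ p : ℕ × (Fin m → ℤ), closure (D p) = Dc p := by
    intro p
    have e1 : D p = Set.pi univ fun i => Ico ((p.2 i:ℝ) / 2^p.1) (((p.2 i:ℝ)+1) / 2^p.1) := by
      ext x
      simp [D]
    have e2 : Dc p = Set.pi univ fun i => Icc ((p.2 i:ℝ) / 2^p.1) (((p.2 i:ℝ)+1) / 2^p.1) := by
      ext x
      simp only [Dc, mem_ofPred_eq, Set.mem_pi, mem_univ, forall_true_left]
    rw [e1, e2, closure_pi_set]
    congr 1
    funext i
    apply closure_Ico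
    have : (p.2 i:ℝ) / 2^p.1 < ((p.2 i:ℝ)+1) / 2^p.1 := by
      apply div_lt_div_of_pos_right _ (by positivity)
      linarith
    exact this.ne
  rw [← e, ← e]
  exact closure_mono h

theorem Dc_compact (p : ℕ × (Fin m → ℤ)) : IsCompact (Dc p) := by
  have e2 : Dc p = Set.pi univ fun i => Icc ((p.2 i:ℝ) / 2^p.1) (((p.2 i:ℝ)+1) / 2^p.1) := by
    ext x
    simp only [Dc, mem_ofPred_eq, Set.mem_pi, mem_univ, forall_true_left]
  rw [e2]
  exact isCompact_univ_pi fun i => isCompact_Icc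

/-- the nested sequence produces a point of the intersection avoiding the family `T` -/
theorem game (hm : 0 < m) {s : ℝ} (hs : 0 ≤ s) {T : Set (ℕ × (Fin m → ℤ))} (U : ℕ → Set (Fin m → ℝ))
    (hU : ∀ n, IsOpen (U n)) (hF : ∀ n, Full s (U n)) (L₀ : ℕ × (Fin m → ℤ))
    (hT : W s T < wt s L₀) : ∃ x ∈ Dc L₀, (∀ n, x ∈ U n) ∧
      ∀ M : ℕ, ∃ L : ℕ × (Fin m → ℤ), M ≤ L.1 ∧ x ∈ Dc L ∧ ∀ J ∈ T, ¬ D L ⊆ D J := by
  classical
  have hinit : Unsat s T L₀ := by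
    refine ⟨fun J hJ hsub => ?_, ?_⟩
    · have h1 : J.1 ≤ L₀.1 := D_level hm hsub
      have h2 : wt s L₀ ≤ wt s J := by
        unfold wt
        apply ENNReal.rpow_le_rpow _ hs
        apply ENNReal.ofReal_le_ofReal
        apply one_div_le_one_div_of_le (by positivity)
        exact pow_le_pow_right₀ (by norm_num) h1
      have h3 : wt s J ≤ W s T := by
        unfold W
        refine le_trans (le_of_eq ?_) (ENNReal.le_tsum J)
        rw [Set.indicator_of_mem hJ]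
      exact absurd (h2.trans h3) (not_le.mpr hT)
    · exact (W_mono (fun J hJ => hJ.1)).trans_lt hT
  -- choose the sequence
  have hstep : ∀ (n : ℕ) (L : {L : ℕ × (Fin m → ℤ) // Unsat s T L}),
      ∃ L' : {L : ℕ × (Fin m → ℤ) // Unsat s T L}, D L'.1 ⊆ D L.1 ∧ Dc L'.1 ⊆ U n ∧ L.1.1 < L'.1.1 := by
    intro n L
    obtain ⟨L', h1, h2, h3, h4⟩ := game_step hm (hU n) (hF n) L.2
    exact ⟨⟨L', h4⟩, h1, h2, h3⟩
  choose g hg1 hg2 hg3 using hstep
  let Ls : ℕ → {L : ℕ × (Fin m → ℤ) // Unsat s T L} :=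
    fun n => Nat.rec ⟨L₀, hinit⟩ (fun n L => g n L) n
  have hLs : ∀ n, Ls (n+1) = g n (Ls n) := fun n => rfl
  have hlev : ∀ n, n ≤ (Ls n).1.1 := by
    intro n
    induction n with
    | zero => exact Nat.zero_le _
    | succ n ih =>
      have := hg3 n (Ls n)
      rw [hLs]
      omega
  have hne : (⋂ n, Dc (Ls n).1).Nonempty := by
    apply IsCompact.nonempty_iInter_of_sequence_nonempty_isCompact_isClosed
    · intro n
      rw [hLs]
      exact Dc_mono (hg1 n (Ls n))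
    · intro n
      refine ⟨fun i => ((Ls n).1.2 i:ℝ) / 2^(Ls n).1.1, fun i => ⟨le_rfl, ?_⟩⟩
      apply div_le_div_of_nonneg_right _ (by positivity)
      linarith
    · exact Dc_compact _
    · intro n
      exact (Dc_compact _).isClosed
  obtain ⟨x, hx⟩ := hne
  rw [mem_iInter] at hx
  refine ⟨x, hx 0, ?_, ?_⟩
  · intro n
    have := hx (n+1)
    rw [hLs] at this
    exact hg2 n (Ls n) this
  · intro M
    exact ⟨(Ls M).1, hlev M, hx M, (Ls M).2.1⟩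

end Pool.Agent.KS6_51.BW
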