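import Pool.Agent.KS6_51.BW.M2

set_option autoImplicit false

/-!
The content theorem in `ℝ^m`: a mass transference principle (for contents).
-/

namespace Pool.Agent.KS6_51.BW

open MeasureTheory Filter Topology Set
open scoped ENNReal

variable {m : ℕ}

/-- **Mass transference**: the neighbourhoods of radius `ρ ^ (m/t)` have full `s`-dimensional content. -/
theorem full_of_ae (hm : 0 < m) {s t : ℝ} (hs : 0 < s) (hst : s < t) (ht : t ≤ m)
    (C : ℕ → Set (Fin m → ℝ)) (ρ : ℕ → ℝ) (hρ : ∀ k, 0 < ρ k) (hρ0 : Tendsto ρ atTop (𝓝 0))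
    (hfull : ∀ᵐ x ∂(volume : Measure (Fin m → ℝ)), ∃ᶠ k in atTop, ∃ c ∈ C k, dist x c < ρ k) (n : ℕ) :
    Full s {y : Fin m → ℝ | ∃ k, n ≤ k ∧ ∃ c ∈ C k, dist y c < ρ k ^ (m/t)} := by
  intro L T hT
  have h := lemma1 (ι := T) hm hs hst ht C ρ hρ hρ0 (fun i => (L.2 i:ℝ) / 2^L.1)
    (b := 1 / 2 ^ L.1) (by positivity) (by
      filter_upwards [hfull] with x hx _
      exact hx) n
    (fun j i => (j.1.2 i:ℝ) / 2^j.1.1) (fun j => 1 / 2^j.1.1) (fun j => by positivity) (by
      intro y hy hyU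
      obtain ⟨p, hp1, hp2⟩ := hT y (by
        rw [D_eq]
        exact fun i => ⟨(hy i).1.le, (hy i).2⟩) hyU
      rw [D_eq] at hp2
      exact ⟨⟨p, hp1⟩, hp2⟩)
  refine h.trans (le_of_eq ?_)
  unfold W
  rw [← tsum_subtype]
  rfl

/-- a set of full measure has full content -/
theorem full_of_null {s : ℝ} (hs : 0 < s) (hsm : s ≤ m) (U : Set (Fin m → ℝ)) (hU : volume Uᶜ = 0) :
    Full s U := by
  intro L T hT
  by_contra hcon
  push Not at hcon
  have e : W s T = ∑' j : T, ENNReal.ofReal (1 / 2 ^ j.1.1) ^ s := by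
    unfold W
    rw [← tsum_subtype]
    rfl
  rw [e] at hcon
  have h1 := (vol_small hs hsm (b := 1 / 2 ^ L.1) (by positivity) (fun j : T => 1 / 2 ^ j.1.1) hcon).2
  have h2 : volume (D L) ≤ ∑' j : T, ENNReal.ofReal (1 / 2 ^ j.1.1) ^ m := by
    calc volume (D L) ≤ volume ((⋃ j : T, D j.1) ∪ Uᶜ) := by
          apply measure_mono
          intro y hy
          by_cases hyU : y ∈ U
          · obtain ⟨p, hp, hyp⟩ := hT y hy hyU
            exact Or.inl (mem_iUnion.mpr ⟨⟨p, hp⟩, hyp⟩)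
          · exact Or.inr hyU
      _ ≤ volume (⋃ j : T, D j.1) + volume Uᶜ := measure_union_le _ _
      _ = volume (⋃ j : T, D j.1) := by rw [hU, add_zero]
      _ ≤ ∑' j : T, volume (D j.1) := measure_iUnion_le _
      _ = _ := by
          apply tsum_congr
          intro j
          rw [vol_D]
  rw [vol_D] at h2
  exact absurd h2 (not_le.mpr h1)

/-- a few dyadic cubes near `z` -/
def Tn (n : ℕ) (z : Fin m → ℝ) : Set (ℕ × (Fin m → ℤ)) :=
  {p | p.1 = n ∧ ∀ i, idx n z i ≤ p.2 i + 2 ∧ p.2 i ≤ idx n z i + 2}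

theorem W_Tn (s : ℝ) (n : ℕ) (z : Fin m → ℝ) : W s (Tn n z) ≤ 5 ^ m * ENNReal.ofReal (1/2^n) ^ s := by
  classical
  unfold W
  have h1 : ∀ p, p ∉ (({n} : Finset ℕ) ×ˢ
      (Fintype.piFinset fun i => Finset.Icc (idx n z i - 2) (idx n z i + 2))) → (Tn n z).indicator (wt s) p = 0 := by
    intro p hp
    rw [Set.indicator_of_notMem]
    rintro ⟨a1, a2⟩
    apply hp
    rw [Finset.mem_product, Finset.mem_singleton, Fintype.mem_piFinset]
    refine ⟨a1, fun i => ?_⟩
    rw [Finset.mem_Icc]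
    have := a2 i
    exact ⟨by omega, by omega⟩
  rw [tsum_eq_sum h1]
  have h2 : ∀ p ∈ (({n} : Finset ℕ) ×ˢ (Fintype.piFinset fun i => Finset.Icc (idx n z i - 2) (idx n z i + 2))),
      (Tn n z).indicator (wt s) p ≤ ENNReal.ofReal (1/2^n) ^ s := by
    intro p hp
    rw [Finset.mem_product, Finset.mem_singleton] at hp
    refine (Set.indicator_le_self _ _ _).trans ?_
    unfold wt
    rw [hp.1]
  refine (Finset.sum_le_sum h2).trans ?_
  rw [Finset.sum_const, nsmul_eq_mul]
  gcongr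
  rw [Finset.card_product, Finset.card_singleton, one_mul, Fintype.card_piFinset]
  have h3 : ∀ i, (Finset.Icc (idx n z i - 2) (idx n z i + 2)).card = 5 := by
    intro i
    rw [Int.card_Icc]
    have : idx n z i + 2 + 1 - (idx n z i - 2) = 5 := by ring
    rw [this]
    rfl
  simp only [h3, Finset.prod_const, Finset.card_univ, Fintype.card_fin]
  push_cast
  exact le_rfl

theorem Tn_mem {n : ℕ} {z y : Fin m → ℝ} (h : dist y z < 2 / 2^n) : (n, idx n y) ∈ Tn n z := by
  have h2 : (0:ℝ) < 2^n := by positivity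
  rw [dist_pi_lt_iff (by positivity)] at h
  unfold Tn idx
  refine ⟨rfl, fun i => ?_⟩
  have hi := h i
  rw [Real.dist_eq, lt_div_iff₀ h2, ← abs_of_pos h2, ← abs_mul, sub_mul, abs_lt] at hi
  constructor
  · show ⌊z i * 2^n⌋ ≤ ⌊y i * 2^n⌋ + 2
    have : ⌊z i * 2^n⌋ ≤ ⌊y i * 2^n + 2⌋ := by
      apply Int.floor_le_floor
      linarith
    have e : ⌊y i * 2^n + 2⌋ = ⌊y i * 2^n⌋ + 2 := by
      have := Int.floor_add_natCast (y i * 2^n) 2
      exact_mod_cast this
    omega
  · show ⌊y i * 2^n⌋ ≤ ⌊z i * 2^n⌋ + 2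
    have : ⌊y i * 2^n⌋ ≤ ⌊z i * 2^n + 2⌋ := by
      apply Int.floor_le_floor
      linarith
    have e : ⌊z i * 2^n + 2⌋ = ⌊z i * 2^n⌋ + 2 := by
      have := Int.floor_add_natCast (z i * 2^n) 2
      exact_mod_cast this
    omega

/-- cover of a small set by dyadic cubes of one level -/
theorem single {s : ℝ} (hs : 0 < s) (hs1 : s ≤ m) (A : Set (Fin m → ℝ)) (hA : Metric.ediam A < 1) {ε : ℝ} (hε : 0 < ε) :
    ∃ (n : ℕ) (T : Set (ℕ × (Fin m → ℤ))), (∀ x ∈ A, ∀ y, dist y x < 1 / 2^n → (n, idx n y) ∈ T) ∧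
      W s T ≤ 10 ^ m * Metric.ediam A ^ s + ENNReal.ofReal ε := by
  by_cases hne : ∃ z, z ∈ A
  · obtain ⟨z, hz⟩ := hne
    set d := (Metric.ediam A).toReal with hd
    have hdt : Metric.ediam A ≠ ⊤ := ne_top_of_lt hA
    have hd0 : 0 ≤ d := ENNReal.toReal_nonneg
    have hd1 : d < 1 := by
      have := (ENNReal.toReal_lt_toReal hdt ENNReal.one_ne_top).mpr hA
      simpa using this
    have hdist : ∀ x ∈ A, dist x z ≤ d := by
      intro x hx
      have := Metric.edist_le_ediam_of_mem hx hz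
      rw [edist_dist] at this
      have := ENNReal.toReal_mono hdt this
      rwa [ENNReal.toReal_ofReal dist_nonneg] at this
    have key : ∀ n : ℕ, d ≤ 1/2^n → ∀ x ∈ A, ∀ y, dist y x < 1 / 2^n → (n, idx n y) ∈ Tn n z := by
      intro n hn x hx y hyx
      apply Tn_mem
      have h1 := hdist x hx
      have h2 : dist y z ≤ dist y x + dist x z := dist_triangle _ _ _
      have h3 : (2:ℝ) / 2^n = 1/2^n + 1/2^n := by ring
      linarith
    rcases eq_or_lt_of_le hd0 with h0 | h0
    · -- zero diameter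
      have : Tendsto (fun n : ℕ => 5 ^ m * ((1:ℝ)/2^n) ^ s) atTop (𝓝 0) := by
        have h1 : Tendsto (fun n : ℕ => ((1:ℝ)/2)^n) atTop (𝓝 0) :=
          tendsto_pow_atTop_nhds_zero_of_lt_one (by norm_num) (by norm_num)
        have h2 := (Real.continuousAt_rpow_const 0 s (Or.inr hs.le)).tendsto.comp h1
        rw [Real.zero_rpow hs.ne'] at h2
        have h3 := h2.const_mul (5 ^ m)
        rw [mul_zero] at h3
        refine h3.congr fun n => ?_
        show 5 ^ m * (((1:ℝ)/2)^n)^s = 5 ^ m * ((1:ℝ)/2^n) ^ s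
        rw [div_pow, one_pow]
      obtain ⟨n, hn⟩ := ((tendsto_order.mp this).2 _ hε).exists
      refine ⟨n, Tn n z, key n (by rw [← h0]; positivity), ?_⟩
      refine (W_Tn s n z).trans ?_
      refine le_trans ?_ le_add_self
      calc 5 ^ m * ENNReal.ofReal (1/2^n) ^ s = ENNReal.ofReal (5 ^ m * ((1:ℝ)/2^n) ^ s) := by
            rw [ENNReal.ofReal_mul (by positivity), ENNReal.ofReal_rpow_of_nonneg (by positivity) hs.le,
              ENNReal.ofReal_pow (by norm_num)]
            norm_num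
        _ ≤ _ := ENNReal.ofReal_le_ofReal hn.le
    · obtain ⟨n, hn1, hn2⟩ := exists_nat_pow_near_of_lt_one h0 hd1.le (by norm_num : (0:ℝ) < 1/2) (by norm_num)
      have e1 : ((1:ℝ)/2)^n = 1/2^n := by rw [div_pow, one_pow]
      refine ⟨n, Tn n z, key n (by rw [← e1]; exact hn2), ?_⟩
      refine (W_Tn s n z).trans ?_
      refine le_trans ?_ le_self_add
      have h1 : (1:ℝ)/2^n ≤ 2 * d := by
        rw [← e1]
        rw [pow_succ] at hn1
        linarith
      calc 5 ^ m * ENNReal.ofReal (1/2^n) ^ s ≤ 5 ^ m * ENNReal.ofReal (2 * d) ^ s := by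
            gcongr
        _ = 5 ^ m * (ENNReal.ofReal 2 ^ s * Metric.ediam A ^ s) := by
            rw [ENNReal.ofReal_mul (by norm_num), ENNReal.mul_rpow_of_nonneg _ _ hs.le, hd,
              ENNReal.ofReal_toReal hdt]
        _ ≤ 5 ^ m * (2 ^ m * Metric.ediam A ^ s) := by
            gcongr
            calc ENNReal.ofReal 2 ^ s ≤ ENNReal.ofReal 2 ^ (m:ℝ) := by
                  apply ENNReal.rpow_le_rpow_of_exponent_le _ hs1
                  norm_num
              _ = 2 ^ m := by rw [ENNReal.rpow_natCast]; norm_num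
        _ = 10 ^ m * Metric.ediam A ^ s := by
            rw [← mul_assoc, ← mul_pow]
            norm_num
  · refine ⟨0, ∅, ?_, ?_⟩
    · intro x hx
      exact absurd ⟨x, hx⟩ hne
    · unfold W
      simp

/-- **The content theorem**: a countable intersection of open sets with full content inside a dyadic cube
has large content. -/
theorem content (hm : 0 < m) {s : ℝ} (hs : 0 < s) (hsm : s ≤ m) (U : ℕ → Set (Fin m → ℝ))
    (hU : ∀ n, IsOpen (U n)) (hF : ∀ n, Full s (U n)) (L₀ : ℕ × (Fin m → ℤ))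
    (A : ℕ → Set (Fin m → ℝ)) (hA : {x | x ∈ Dc L₀ ∧ ∀ n, x ∈ U n} ⊆ ⋃ j, A j) :
    ENNReal.ofReal (1/2/10^m) * wt s L₀ ≤ ∑' j, Metric.ediam (A j) ^ s := by
  by_contra hcon
  push Not at hcon
  have hwt1 : wt s L₀ ≤ 1 := by
    unfold wt
    apply ENNReal.rpow_le_one _ hs.le
    rw [ENNReal.ofReal_le_one]
    rw [div_le_one (by positivity)]
    exact one_le_pow₀ (by norm_num)
  have hwt0 : 0 < wt s L₀ := by
    unfold wt
    apply ENNReal.rpow_pos _ ENNReal.ofReal_ne_top
    rw [ENNReal.ofReal_pos]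
    positivity
  set w : ℝ := (wt s L₀).toReal with hw
  have hwtt : wt s L₀ ≠ ⊤ := ne_top_of_le_ne_top ENNReal.one_ne_top hwt1
  have hw0 : 0 < w := ENNReal.toReal_pos hwt0.ne' hwtt
  have hwe : ENNReal.ofReal w = wt s L₀ := ENNReal.ofReal_toReal hwtt
  have hsmall : ∀ j, Metric.ediam (A j) < 1 := by
    intro j
    by_contra h
    push Not at h
    have h1 : Metric.ediam (A j) ^ s ≤ ∑' j, Metric.ediam (A j) ^ s := ENNReal.le_tsum j
    have h2 : (1:ℝ≥0∞) ≤ Metric.ediam (A j) ^ s := ENNReal.one_le_rpow h hs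
    have h3 := (h2.trans h1).trans_lt hcon
    have h4 : ENNReal.ofReal (1/2/10^m) * wt s L₀ ≤ 1 := by
      refine mul_le_one' ?_ hwt1
      rw [ENNReal.ofReal_le_one]
      rw [div_le_one (by positivity)]
      have : (1:ℝ) ≤ 10 ^ m := one_le_pow₀ (by norm_num)
      linarith
    exact absurd h3 (not_lt.mpr h4)
  have hch := fun j => single hs hsm (A j) (hsmall j) (show (0:ℝ) < w * (1/2)^(j+3) by positivity)
  choose n T hT1 hT2 using hch
  have hW : W s (⋃ j, T j) < wt s L₀ := by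
    calc W s (⋃ j, T j) ≤ ∑' j, W s (T j) := by
          unfold W
          rw [ENNReal.tsum_comm]
          apply ENNReal.tsum_le_tsum
          intro p
          by_cases hp : p ∈ ⋃ j, T j
          · rw [Set.indicator_of_mem hp]
            obtain ⟨j, hj⟩ := mem_iUnion.mp hp
            refine le_trans (le_of_eq ?_) (ENNReal.le_tsum j)
            rw [Set.indicator_of_mem hj]
          · rw [Set.indicator_of_notMem hp]
            exact zero_le
      _ ≤ ∑' j, (10 ^ m * Metric.ediam (A j) ^ s + ENNReal.ofReal (w * (1/2)^(j+3))) := ENNReal.tsum_le_tsum hT2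
      _ = 10 ^ m * ∑' j, Metric.ediam (A j) ^ s + ∑' j : ℕ, ENNReal.ofReal (w * (1/2)^(j+3)) := by
          rw [ENNReal.tsum_add, ENNReal.tsum_mul_left]
      _ ≤ 10 ^ m * (ENNReal.ofReal (1/2/10^m) * ENNReal.ofReal w) + ENNReal.ofReal (w / 4) := by
          rw [hwe]
          gcongr
          have hs2 : Summable (fun n : ℕ => w * ((1:ℝ)/2)^(n+3)) :=
            ((summable_nat_add_iff 3).mpr summable_geometric_two).mul_left w
          rw [← ENNReal.ofReal_tsum_of_nonneg (fun n => by positivity) hs2]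
          apply ENNReal.ofReal_le_ofReal
          have e : ∀ n : ℕ, w * ((1:ℝ)/2)^(n+3) = (w/8) * ((1:ℝ)/2)^n := by
            intro n
            rw [pow_add]
            ring
          simp_rw [e]
          rw [tsum_mul_left, tsum_geometric_two]
          linarith
      _ = ENNReal.ofReal (w * (3/4)) := by
          have : (10:ℝ≥0∞) ^ m = ENNReal.ofReal (10 ^ m) := by
            rw [ENNReal.ofReal_pow (by norm_num)]
            norm_num
          rw [this, ← ENNReal.ofReal_mul (by positivity), ← ENNReal.ofReal_mul (by positivity),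
            ← ENNReal.ofReal_add (by positivity) (by positivity)]
          congr 1
          field_simp
          norm_num
      _ < ENNReal.ofReal w := by
          exact (ENNReal.ofReal_lt_ofReal_iff hw0).mpr (by linarith)
      _ = wt s L₀ := hwe
  obtain ⟨x, hx0, hxU, hxL⟩ := game hm hs.le U hU hF L₀ hW
  obtain ⟨j, hj⟩ := mem_iUnion.mp (hA (show x ∈ {x | x ∈ Dc L₀ ∧ ∀ n, x ∈ U n} from ⟨hx0, hxU⟩))
  obtain ⟨L, hL1, hL2, hL4⟩ := hxL (n j + 1)
  set y : Fin m → ℝ := fun i => (L.2 i:ℝ) / 2^L.1 with hy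
  have hyL : y ∈ D L := D_nonempty L
  have hxy : dist y x < 1 / 2^(n j) := by
    rw [dist_pi_lt_iff (by positivity)]
    intro i
    have h1 := (hL2 i).1
    have h2 := (hL2 i).2
    rw [add_div] at h2
    have h3 : (1:ℝ) / 2^L.1 ≤ 1/2^(n j + 1) := by
      apply one_div_le_one_div_of_le (by positivity)
      exact pow_le_pow_right₀ (by norm_num) hL1
    have h4 : (1:ℝ)/2^(n j + 1) < 1/2^(n j) := by
      apply one_div_lt_one_div_of_lt (by positivity)
      exact pow_lt_pow_right₀ (by norm_num) (by omega)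
    rw [Real.dist_eq, abs_lt]
    simp only [hy]
    constructor <;> linarith
  have hmem := hT1 j x hj y hxy
  refine hL4 _ (mem_iUnion.mpr ⟨j, hmem⟩) ?_
  exact D_nested hyL (mem_D_idx y _) (by show n j ≤ L.1; omega)

end Pool.Agent.KS6_51.BW
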