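import Pool.Agent.KS6_51.BW.M3

set_option autoImplicit false

/-!
Cones over sets of large content: the lower bound `1 + s` for the Hausdorff dimension.
-/

namespace Pool.Agent.KS6_51.BW

open MeasureTheory Filter Topology Set
open scoped ENNReal

variable {m : ℕ}

/-- the section of a set at the height `t`, rescaled -/
def sec (A : Set (Fin (m + 1) → ℝ)) (t : ℝ) : Set (Fin m → ℝ) := {x | (Fin.cons t (t • x) : Fin (m + 1) → ℝ) ∈ A}

theorem sec_le {s : ℝ} (hs : 0 < s) {c : ℝ} (hc : 0 < c) (A : Set (Fin (m + 1) → ℝ)) (hfin : Metric.ediam A ≠ ⊤) :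
    ∃ I : Set ℝ, MeasurableSet I ∧ volume I ≤ 2 * Metric.ediam A ∧
      ∀ t : ℝ, c ≤ |t| → Metric.ediam (sec A t) ^ s ≤
        I.indicator (fun _ => (ENNReal.ofReal (1 / c) * Metric.ediam A) ^ s) t := by
  by_cases hne : A.Nonempty
  · obtain ⟨z, hz⟩ := hne
    set d := (Metric.ediam A).toReal with hd
    have hd0 : 0 ≤ d := ENNReal.toReal_nonneg
    have hed : ENNReal.ofReal d = Metric.ediam A := ENNReal.ofReal_toReal hfin
    have hdist : ∀ x ∈ A, ∀ y ∈ A, dist x y ≤ d := by
      intro x hx y hy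
      have := Metric.edist_le_ediam_of_mem hx hy
      rw [edist_dist] at this
      have := ENNReal.toReal_mono hfin this
      rwa [ENNReal.toReal_ofReal dist_nonneg] at this
    refine ⟨Icc (z 0 - d) (z 0 + d), measurableSet_Icc, ?_, ?_⟩
    · rw [Real.volume_Icc, ← hed]
      have : z 0 + d - (z 0 - d) = 2 * d := by ring
      rw [this, ENNReal.ofReal_mul (by norm_num)]
      norm_num
    · intro t ht
      by_cases hmem : t ∈ Icc (z 0 - d) (z 0 + d)
      · rw [Set.indicator_of_mem hmem]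
        apply ENNReal.rpow_le_rpow _ hs.le
        apply Metric.ediam_le
        intro x hx y hy
        have h1 := hdist _ hx _ hy
        rw [← hed, ← ENNReal.ofReal_mul (by positivity), edist_dist]
        apply ENNReal.ofReal_le_ofReal
        rw [dist_pi_le_iff (by positivity)]
        intro i
        have h2 : dist ((Fin.cons t (t • x) : Fin (m + 1) → ℝ) i.succ) ((Fin.cons t (t • y) : Fin (m + 1) → ℝ) i.succ) ≤ d :=
          (dist_le_pi_dist _ _ _).trans h1
        simp only [Fin.cons_succ, Pi.smul_apply, smul_eq_mul, Real.dist_eq] at h2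
        rw [← mul_sub, abs_mul] at h2
        rw [Real.dist_eq]
        have h3 : c * |x i - y i| ≤ d := le_trans (by gcongr) h2
        rw [one_div, ← div_eq_inv_mul, le_div_iff₀ hc]
        linarith
      · have : sec A t = ∅ := by
          apply Set.eq_empty_of_forall_notMem
          intro x hx
          apply hmem
          have h1 := (dist_le_pi_dist _ _ 0).trans (hdist _ hx _ hz)
          simp only [Fin.cons_zero, Real.dist_eq] at h1
          rw [abs_le] at h1
          exact ⟨by linarith, by linarith⟩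
        rw [this]
        simp [hs]
  · have hA : A = ∅ := not_nonempty_iff_eq_empty.mp hne
    refine ⟨∅, MeasurableSet.empty, by simp, fun t _ => ?_⟩
    have : sec A t = ∅ := by
      rw [hA]
      rfl
    rw [this]
    simp [hs]

theorem cone_measure (hm : 0 < m) {s : ℝ} (hs : 0 < s) (hsm : s ≤ m) (U : ℕ → Set (Fin m → ℝ))
    (hU : ∀ n, IsOpen (U n)) (hF : ∀ n, Full s (U n)) (L₀ : ℕ × (Fin m → ℤ))
    (Z : Set (Fin (m + 1) → ℝ)) {a b c : ℝ} (hab : a < b) (hc : 0 < c) (hcab : ∀ t ∈ Ioo a b, c ≤ |t|)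
    (hZ : ∀ t ∈ Ioo a b, ∀ x ∈ Dc L₀, (∀ n, x ∈ U n) → (Fin.cons t (t • x) : Fin (m + 1) → ℝ) ∈ Z) :
    Measure.hausdorffMeasure (1 + s) Z ≠ 0 := by
  have hwt0 : 0 < wt s L₀ := by
    unfold wt
    apply ENNReal.rpow_pos _ ENNReal.ofReal_ne_top
    rw [ENNReal.ofReal_pos]
    positivity
  set κ : ℝ≥0∞ := ENNReal.ofReal (1/2/10^m) * wt s L₀ with hκ
  have hκ0 : κ ≠ 0 := by
    apply mul_ne_zero _ hwt0.ne'
    rw [ENNReal.ofReal_ne_zero_iff]
    positivity
  set q : ℝ≥0∞ := ENNReal.ofReal (1 / c) ^ s with hq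
  have hqt : q ≠ ⊤ := ENNReal.rpow_ne_top_of_nonneg hs.le ENNReal.ofReal_ne_top
  have hq0 : q ≠ 0 := by
    apply (ENNReal.rpow_pos _ ENNReal.ofReal_ne_top).ne'
    rw [ENNReal.ofReal_pos]
    positivity
  have key : κ * ENNReal.ofReal (b - a) / (2 * q) ≤ Measure.hausdorffMeasure (1 + s) Z := by
    rw [Measure.hausdorffMeasure_apply]
    refine le_iSup₂_of_le 1 one_pos ?_
    refine le_iInf fun A => le_iInf fun hcov => le_iInf fun hdiam => ?_
    have hfin : ∀ j, Metric.ediam (A j) ≠ ⊤ := fun j => ne_top_of_le_ne_top ENNReal.one_ne_top (hdiam j)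
    choose I hI1 hI2 hI3 using fun j => sec_le hs hc (A j) (hfin j)
    have h1 : ∀ t ∈ Ioo a b, κ ≤ ∑' j, (I j).indicator (fun _ => (ENNReal.ofReal (1 / c) * Metric.ediam (A j)) ^ s) t := by
      intro t ht
      refine (content hm hs hsm U hU hF L₀ (fun j => sec (A j) t) ?_).trans
        (ENNReal.tsum_le_tsum fun j => hI3 j t (hcab t ht))
      intro x hx
      obtain ⟨j, hj⟩ := mem_iUnion.mp (hcov (hZ t ht x hx.1 hx.2))
      exact mem_iUnion.mpr ⟨j, hj⟩
    have h2 : κ * ENNReal.ofReal (b - a) ≤ 2 * q * ∑' j, Metric.ediam (A j) ^ (1 + s) := by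
      calc κ * ENNReal.ofReal (b - a) = ∫⁻ _ in Ioo a b, κ := by
            rw [setLIntegral_const, Real.volume_Ioo]
        _ ≤ ∫⁻ t in Ioo a b, ∑' j, (I j).indicator (fun _ => (ENNReal.ofReal (1 / c) * Metric.ediam (A j)) ^ s) t := by
            apply setLIntegral_mono' measurableSet_Ioo
            exact h1
        _ ≤ ∫⁻ t, ∑' j, (I j).indicator (fun _ => (ENNReal.ofReal (1 / c) * Metric.ediam (A j)) ^ s) t :=
            setLIntegral_le_lintegral _ _
        _ = ∑' j, ∫⁻ t, (I j).indicator (fun _ => (ENNReal.ofReal (1 / c) * Metric.ediam (A j)) ^ s) t := by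
            rw [lintegral_tsum]
            intro j
            exact (measurable_const.indicator (hI1 j)).aemeasurable
        _ = ∑' j, (ENNReal.ofReal (1 / c) * Metric.ediam (A j)) ^ s * volume (I j) := by
            apply tsum_congr
            intro j
            rw [lintegral_indicator (hI1 j), setLIntegral_const]
        _ ≤ ∑' j, 2 * q * Metric.ediam (A j) ^ (1 + s) := by
            apply ENNReal.tsum_le_tsum
            intro j
            have h3 := hI2 j
            rw [ENNReal.mul_rpow_of_nonneg _ _ hs.le]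
            rcases eq_or_ne (Metric.ediam (A j)) 0 with h0 | h0
            · rw [h0, ENNReal.zero_rpow_of_pos hs]
              simp
            · rw [ENNReal.rpow_add _ _ h0 (hfin j), ENNReal.rpow_one]
              calc ENNReal.ofReal (1 / c) ^ s * Metric.ediam (A j) ^ s * volume (I j)
                  ≤ ENNReal.ofReal (1 / c) ^ s * Metric.ediam (A j) ^ s * (2 * Metric.ediam (A j)) := by gcongr
                _ = _ := by rw [hq]; ring
        _ = _ := ENNReal.tsum_mul_left
    have h3 : κ * ENNReal.ofReal (b - a) / (2 * q) ≤ ∑' j, Metric.ediam (A j) ^ (1 + s) := by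
      rw [ENNReal.div_le_iff (mul_ne_zero (by norm_num) hq0) (ENNReal.mul_ne_top (by norm_num) hqt)]
      rw [mul_comm (∑' j, Metric.ediam (A j) ^ (1 + s)) (2 * q)]
      exact h2
    refine h3.trans (ENNReal.tsum_le_tsum fun n => ?_)
    by_cases hne : (A n).Nonempty
    · rw [iSup_pos hne]
    · have : A n = ∅ := not_nonempty_iff_eq_empty.mp hne
      rw [iSup_neg hne]
      simp only [this, Metric.ediam_empty]
      rw [ENNReal.zero_rpow_of_pos (by linarith)]
      exact bot_le
  intro h0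
  rw [h0, nonpos_iff_eq_zero, ENNReal.div_eq_zero_iff] at key
  rcases key with h | h
  · rcases mul_eq_zero.mp h with h | h
    · exact hκ0 h
    · rw [ENNReal.ofReal_eq_zero] at h
      linarith
  · exact ENNReal.mul_ne_top (by norm_num) hqt h

theorem cone_dim (hm : 0 < m) {s : ℝ} (hs : 0 < s) (hsm : s ≤ m) (U : ℕ → Set (Fin m → ℝ))
    (hU : ∀ n, IsOpen (U n)) (hF : ∀ n, Full s (U n)) (L₀ : ℕ × (Fin m → ℤ))
    (Z : Set (Fin (m + 1) → ℝ)) {a b c : ℝ} (hab : a < b) (hc : 0 < c) (hcab : ∀ t ∈ Ioo a b, c ≤ |t|)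
    (hZ : ∀ t ∈ Ioo a b, ∀ x ∈ Dc L₀, (∀ n, x ∈ U n) → (Fin.cons t (t • x) : Fin (m + 1) → ℝ) ∈ Z) :
    ENNReal.ofReal (1 + s) ≤ dimH Z := by
  have h1 := cone_measure hm hs hsm U hU hF L₀ Z hab hc hcab hZ
  exact le_dimH_of_hausdorffMeasure_ne_zero (s := Z) (d := (1 + s).toNNReal) (by
    rw [Real.coe_toNNReal _ (by linarith)]
    exact h1)

end Pool.Agent.KS6_51.BW
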