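import Pool.Agent.KS6_51.BW.C2
import Pool.Agent.KS6_51.BW.L1

set_option autoImplicit false

/-!
From the parameter space to the weights.
-/

namespace Pool.Agent.KS6_51.BW

open MeasureTheory Filter Topology Set
open scoped ENNReal NNReal
open Pool.Agent.T6.H60.BC (nd pr nd_nonneg nd_le_sub pr_le pr_nonneg)
open Pool.Agent.T6.H60.BD (PtB)

/-- the dimension of the span of the weights -/
noncomputable def wd {r : ℕ} (w : Fin r → ℝ) : ℕ := Module.finrank ℚ (Submodule.span ℚ (Set.range w))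

/-- the weights of a rational family -/
def wm {r d : ℕ} (B : Matrix (Fin r) (Fin d) ℚ) (v : Fin d → ℝ) : Fin r → ℝ := fun j => ∑ k, (B j k : ℝ) * v k

/-- the exceptional weights -/
def XP (r d : ℕ) (σ β : ℝ) : Set (Fin r → ℝ) := {w | (∀ i, 0 < w i) ∧ wd w = d ∧ ¬ PtB w σ β}

/-- the criterion for some of the weights -/
theorem ptB_sub {r d : ℕ} {w : Fin r → ℝ} (J : Fin d → Fin r) (hJ : Function.Injective J) {σ β : ℝ}
    (h : PtB (w ∘ J) (σ - (r - d)) β) : PtB w σ β := by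
  classical
  intro ε hε
  obtain ⟨C, hC, hb⟩ := h ε hε
  refine ⟨C, hC, fun y δ hy hδ hδ1 => ?_⟩
  have hy0 : 0 < y := by linarith
  have hdr : d ≤ r := by
    have := Fintype.card_le_of_injective J hJ
    simpa using this
  have h1 : pr w δ y ≤ pr (w ∘ J) δ y * ((δ ^ 2)⁻¹) ^ (r - d) := by
    unfold pr
    have e1 : ∏ j, ((max δ (nd (w j * y))) ^ 2)⁻¹ =
        (∏ j ∈ Finset.univ.image J, ((max δ (nd (w j * y))) ^ 2)⁻¹) *
        ∏ j ∈ (Finset.univ.image J)ᶜ, ((max δ (nd (w j * y))) ^ 2)⁻¹ :=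
      (Finset.prod_mul_prod_compl _ _).symm
    rw [e1, Finset.prod_image (fun a _ b _ h => hJ h)]
    apply mul_le_mul_of_nonneg_left _ (Finset.prod_nonneg fun j _ => by positivity)
    have h2 : ∏ j ∈ (Finset.univ.image J)ᶜ, ((max δ (nd (w j * y))) ^ 2)⁻¹ ≤
        ∏ j ∈ (Finset.univ.image J)ᶜ, (δ ^ 2)⁻¹ := by
      apply Finset.prod_le_prod (fun j _ => by positivity)
      intro j _
      apply inv_anti₀ (by positivity)
      have := le_max_left δ (nd (w j * y))
      gcongr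
    refine h2.trans (le_of_eq ?_)
    rw [Finset.prod_const, Finset.card_compl, Finset.card_image_of_injective _ hJ]
    simp
  refine h1.trans ?_
  have h3 := mul_le_mul_of_nonneg_right (hb y δ hy hδ hδ1) (show 0 ≤ ((δ ^ 2)⁻¹) ^ (r - d) by positivity)
  refine h3.trans (le_of_eq ?_)
  have e2 : ((δ ^ 2)⁻¹) ^ (r - d) = δ ^ (-(2 * ((r : ℝ) - d))) := by
    rw [← Real.rpow_natCast δ 2, ← Real.rpow_neg hδ.le, ← Real.rpow_natCast _ (r - d), ← Real.rpow_mul hδ.le,
      Nat.cast_sub hdr]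
    congr 1
    push_cast
    ring
  have e3 : δ ^ (-(2 * (σ - (r - d)))) * δ ^ (-(2 * ((r : ℝ) - d))) = δ ^ (-(2 * σ)) := by
    rw [← Real.rpow_add hδ]
    congr 1
    ring
  rw [e2, ← e3]
  ring

/-- the weights are rational combinations of `d` of them -/
theorem exists_basis {r d : ℕ} {w : Fin r → ℝ} (hd : wd w = d) :
    ∃ J : Fin d → Fin r, Function.Injective J ∧ LinearIndependent ℚ (w ∘ J) ∧
      ∃ C : Matrix (Fin r) (Fin d) ℚ, w = wm C (w ∘ J) := by
  classical
  unfold wd at hd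
  subst hd
  have : Module.Finite ℚ (Submodule.span ℚ (Set.range w)) :=
    FiniteDimensional.span_of_finite ℚ (Set.finite_range w)
  obtain ⟨f, hf1, hf2, hf3⟩ := Submodule.exists_fun_fin_finrank_span_eq ℚ (Set.range w)
  choose J hJ using hf1
  have hfJ : f = w ∘ J := by
    funext i
    exact (hJ i).symm
  rw [hfJ] at hf2 hf3
  refine ⟨J, ?_, hf3, ?_⟩
  · intro a b hab
    apply hf3.injective
    simp [hab]
  · have h1 : ∀ j, ∃ c : Fin (Module.finrank ℚ (Submodule.span ℚ (Set.range w))) → ℚ, ∑ k, c k • (w ∘ J) k = w j := by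
      intro j
      rw [← Submodule.mem_span_range_iff_exists_fun, hf2]
      exact Submodule.subset_span (mem_range_self j)
    choose c hc using h1
    refine ⟨c, ?_⟩
    funext j
    rw [← hc j]
    unfold wm
    apply Finset.sum_congr rfl
    intro k _
    rw [Rat.smul_def]

theorem wm_lipschitz {r d : ℕ} (B : Matrix (Fin r) (Fin d) ℚ) : ∃ K : ℝ≥0, LipschitzWith K (wm B) := by
  let L : (Fin d → ℝ) →ₗ[ℝ] (Fin r → ℝ) := Matrix.mulVecLin (B.map (fun q : ℚ => (q : ℝ)))
  have hL : (L : (Fin d → ℝ) → (Fin r → ℝ)) = wm B := by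
    funext v j
    simp [L, wm, Matrix.mulVec, dotProduct]
  refine ⟨‖LinearMap.toContinuousLinearMap L‖₊, ?_⟩
  have := (LinearMap.toContinuousLinearMap L).lipschitz
  rw [← hL]
  exact this

/-- the exceptional weights are contained in countably many linear images -/
theorem XP_subset (r d : ℕ) (σ β : ℝ) :
    XP r d σ β ⊆ ⋃ C : Matrix (Fin r) (Fin d) ℚ, wm C '' {u : Fin d → ℝ | ¬ PtB u (σ - (r - d)) β} := by
  rintro w ⟨_, hwd, hpt⟩
  obtain ⟨J, hJ, _, C, hC⟩ := exists_basis hwd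
  exact mem_iUnion.mpr ⟨C, w ∘ J, fun h => hpt (ptB_sub J hJ h), hC.symm⟩

instance {r d : ℕ} : Countable (Matrix (Fin r) (Fin d) ℚ) :=
  inferInstanceAs (Countable (Fin r → Fin d → ℚ))

theorem XP_upper {r d : ℕ} {σ β : ℝ} (hβ : 0 < β) (hσ : (r : ℝ) - d ≤ σ) (h1 : β < 2 * ((r : ℝ) - σ))
    (h2 : 2 * ((r : ℝ) - σ) ≤ d * β) :
    dimH (XP r d σ β) ≤ ENNReal.ofReal (d + 1 - d * β / (2 * (r - σ))) := by
  refine (dimH_mono (XP_subset r d σ β)).trans ?_
  rw [dimH_iUnion]
  apply iSup_le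
  intro C
  obtain ⟨K, hK⟩ := wm_lipschitz C
  refine (hK.dimH_image_le _).trans ?_
  have e : 2 * ((d : ℝ) - (σ - (r - d))) = 2 * (r - σ) := by ring
  have h3 := upper_param (d := d) (σ := σ - (r - d)) hβ (by linarith) (by rw [e]; linarith) (by rw [e]; exact h2)
  rwa [e] at h3

theorem XP_null {r d : ℕ} {σ β : ℝ} (hβ : 0 < β) (hσ : (r : ℝ) - d ≤ σ) (h1 : β < 2 * ((r : ℝ) - σ))
    (h2 : 2 * ((r : ℝ) - σ) ≤ d * β) :
    Measure.hausdorffMeasure ((d : ℝ) + 1 - d * β / (2 * (r - σ))) (XP r d σ β) = 0 := by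
  refine measure_mono_null (XP_subset r d σ β) ?_
  rw [measure_iUnion_null_iff]
  intro C
  obtain ⟨K, hK⟩ := wm_lipschitz C
  have e : 2 * ((d : ℝ) - (σ - (r - d))) = 2 * (r - σ) := by ring
  have h3 := null_param (d := d) (σ := σ - (r - d)) hβ (by linarith) (by rw [e]; linarith) (by rw [e]; exact h2)
  rw [e] at h3
  have h0 : 0 ≤ (d : ℝ) + 1 - d * β / (2 * (r - σ)) := by
    have h5 : d * β / (2 * ((r : ℝ) - σ)) ≤ d := by
      rw [div_le_iff₀ (by linarith)]
      exact mul_le_mul_of_nonneg_left h1.le (Nat.cast_nonneg d)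
    linarith
  have h4 := hK.hausdorffMeasure_image_le (d := (d : ℝ) + 1 - d * β / (2 * (r - σ))) h0
    {u : Fin d → ℝ | ¬ PtB u (σ - (r - d)) β}
  rw [h3, mul_zero] at h4
  exact nonpos_iff_eq_zero.mp h4

theorem XP_empty {r d : ℕ} {σ β : ℝ} (hβ : 0 < β) (h1 : 2 * ((r : ℝ) - σ) ≤ β) :
    XP r d σ β = ∅ := by
  apply Set.eq_empty_of_forall_notMem
  intro w hw
  obtain ⟨C, u, hu, _⟩ := mem_iUnion.mp (XP_subset r d σ β hw)
  exact hu (empty_param hβ (by linarith) u)

/-- a rational left inverse -/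
theorem exists_left {r d : ℕ} (B : Matrix (Fin r) (Fin d) ℚ) (hB : Function.Injective B.mulVec) :
    ∃ C : Matrix (Fin d) (Fin r) ℚ, ∀ v : Fin d → ℝ, wm C (wm B v) = v := by
  obtain ⟨g, hg⟩ := (Matrix.mulVecLin B).exists_leftInverse_of_injective (LinearMap.ker_eq_bot.mpr hB)
  obtain ⟨Cm, hCm⟩ : ∃ Cm : Matrix (Fin d) (Fin r) ℚ, Cm = LinearMap.toMatrix' g := ⟨_, rfl⟩
  refine ⟨Cm, fun v => ?_⟩
  have h1 : Cm * B = 1 := by
    have h2 := congrArg LinearMap.toMatrix' hg
    rw [LinearMap.toMatrix'_comp, LinearMap.toMatrix'_id, ← hCm] at h2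
    rw [← h2, ← Matrix.toLin'_apply', LinearMap.toMatrix'_toLin']
  funext i
  have h2 : ∀ k, ∑ j, Cm i j * B j k = if i = k then 1 else 0 := by
    intro k
    have := congrFun (congrFun h1 i) k
    rw [Matrix.mul_apply, Matrix.one_apply] at this
    exact this
  unfold wm
  simp only [Finset.mul_sum]
  rw [Finset.sum_comm]
  have h3 : ∀ k, ∑ j, (Cm i j : ℝ) * ((B j k : ℝ) * v k) = (if i = k then 1 else 0) * v k := by
    intro k
    have h4 : ((∑ j, Cm i j * B j k : ℚ) : ℝ) = if i = k then 1 else 0 := by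
      rw [h2]
      split_ifs <;> simp
    rw [← h4]
    push_cast
    rw [Finset.sum_mul]
    apply Finset.sum_congr rfl
    intro j _
    ring
  simp [h3]

theorem wm_span {r d : ℕ} (B : Matrix (Fin r) (Fin d) ℚ) (v : Fin d → ℝ) (j : Fin r) :
    wm B v j ∈ Submodule.span ℚ (Set.range v) := by
  unfold wm
  apply Submodule.sum_mem
  intro k _
  have : (B j k : ℝ) * v k = (B j k) • v k := by rw [Rat.smul_def]
  rw [this]
  exact Submodule.smul_mem _ _ (Submodule.subset_span (mem_range_self k))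

theorem wd_wm {r d : ℕ} (B : Matrix (Fin r) (Fin d) ℚ) (hB : Function.Injective B.mulVec) {v : Fin d → ℝ}
    (hv : LinearIndependent ℚ v) : wd (wm B v) = d := by
  obtain ⟨C, hC⟩ := exists_left B hB
  have h1 : Submodule.span ℚ (Set.range (wm B v)) = Submodule.span ℚ (Set.range v) := by
    apply le_antisymm
    · rw [Submodule.span_le]
      rintro _ ⟨j, rfl⟩
      exact wm_span B v j
    · rw [Submodule.span_le]
      rintro _ ⟨k, rfl⟩
      have := wm_span C (wm B v) k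
      rw [hC] at this
      exact this
  unfold wd
  rw [h1, finrank_span_eq_card hv, Fintype.card_fin]

/-- the lower bound in a rational family, in an open set -/
theorem XP_lower {r d : ℕ} {σ β : ℝ} (hβ : 0 < β) (h1 : β < 2 * ((r : ℝ) - σ))
    (h2 : 2 * ((r : ℝ) - σ) ≤ d * β) (B : Matrix (Fin r) (Fin d) ℚ) (hB : Function.Injective B.mulVec)
    (U : Set (Fin r → ℝ)) (hU : IsOpen U) (hne : ∃ v : Fin d → ℝ, wm B v ∈ U ∧ ∀ j, 0 < wm B v j) :
    ENNReal.ofReal (d + 1 - d * β / (2 * (r - σ))) ≤ dimH (XP r d σ β ∩ Set.range (wm B) ∩ U) := by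
  obtain ⟨m, rfl⟩ : ∃ m, d = m + 1 := by
    refine ⟨d - 1, ?_⟩
    have : d ≠ 0 := by
      rintro rfl
      push_cast at h2
      linarith
    omega
  have hm : 0 < m := by
    by_contra hcon
    have : m = 0 := by omega
    subst this
    push_cast at h2
    linarith
  obtain ⟨K, hK⟩ := wm_lipschitz B
  obtain ⟨C, hC⟩ := exists_left B hB
  obtain ⟨K', hK'⟩ := wm_lipschitz C
  set O : Set (Fin (m + 1) → ℝ) := {v | wm B v ∈ U ∧ ∀ j, 0 < wm B v j} with hO
  have hOo : IsOpen O := by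
    have e : O = wm B ⁻¹' (U ∩ ⋂ j, {w | 0 < w j}) := by
      ext v
      simp [hO]
    rw [e]
    apply IsOpen.preimage hK.continuous
    apply hU.inter
    apply isOpen_iInter_of_finite
    intro j
    exact isOpen_lt continuous_const (continuous_apply j)
  have h3 := lower_param hm B hβ (by push_cast at h2; exact h2) h1 O hOo hne
  have h4 : dimH {v : Fin (m + 1) → ℝ | v ∈ O ∧ LinearIndependent ℚ v ∧
        ¬ PtB (fun j => ∑ k, (B j k : ℝ) * v k) σ β} ≤ dimH (XP r (m + 1) σ β ∩ Set.range (wm B) ∩ U) := by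
    have hanti : AntilipschitzWith K' (wm B) := by
      intro x y
      have := hK' (wm B x) (wm B y)
      rwa [hC, hC] at this
    refine (hanti.le_dimH_image _).trans (dimH_mono ?_)
    rintro _ ⟨v, ⟨⟨hv1, hv2⟩, hv3, hv4⟩, rfl⟩
    exact ⟨⟨⟨hv2, wd_wm B hB hv3, hv4⟩, mem_range_self v⟩, hv1⟩
  refine le_trans (le_of_eq ?_) (h3.trans h4)
  push_cast
  rfl

/-- below the critical line all weights are exceptional -/
theorem XP_all {r d : ℕ} (hd : 0 < d) {σ β : ℝ} (hβ : 0 < β) (h1 : β < 2 * ((r : ℝ) - σ)) (h2 : d * β < 2 * ((r : ℝ) - σ))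
    {w : Fin r → ℝ} (hwd : wd w = d) : ¬ PtB w σ β := by
  obtain ⟨J, hJ, hli, C, hC⟩ := exists_basis hwd
  obtain ⟨m, rfl⟩ : ∃ m, d = m + 1 := ⟨d - 1, by omega⟩
  set v := w ∘ J with hv
  have hv0 : v 0 ≠ 0 := hli.ne_zero 0
  set E : ℝ := 2 * (r - σ) - β with hE
  have hE0 : 0 < E := by linarith
  have key : ∀ τ' τ : ℝ, 0 < τ' → τ' < τ → β < τ' * E → (∀ n, (fun i : Fin m => v i.succ / v 0) ∈ GA m τ n) → ¬ PtB w σ β := by
    intro τ' τ h3 h4 h5 h6
    refine not_pt_of_appr (τ := τ') w h3 hβ (by rw [← hE]; exact h5) fun Y => ?_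
    obtain ⟨y, hy1, hy2⟩ := appr_of_GA C v hv0 h3 h4 h6 Y
    refine ⟨y, hy1, fun j => ?_⟩
    have := hy2 j
    have e : w j = ∑ k, (C j k : ℝ) * v k := by
      conv_lhs => rw [hC]
      rfl
    rw [e]
    exact this
  rcases Nat.eq_zero_or_pos m with hm | hm
  · subst hm
    refine key (β / E + 1) (β / E + 2) (by positivity) (by linarith) ?_ ?_
    · rw [add_mul, div_mul_cancel₀ _ hE0.ne']
      linarith
    · intro n
      refine ⟨n, le_rfl, fun i => i.elim0, ⟨fun i => i.elim0, ?_⟩, ?_⟩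
      · funext i
        exact i.elim0
      · rw [dist_pi_lt_iff (by positivity)]
        intro i
        exact i.elim0
  · have hm0 : (0 : ℝ) < m := by exact_mod_cast hm
    have h3 : β / E < 1 / m := by
      rw [div_lt_div_iff₀ hE0 hm0]
      push_cast at h2
      linarith
    obtain ⟨τ', h4, h5⟩ := exists_between h3
    have hβE : 0 < β / E := by positivity
    refine key τ' (1 / m) (by linarith) h5 (by rwa [div_lt_iff₀ hE0] at h4) ?_
    have hirr : Irrational (v (Fin.succ ⟨0, hm⟩) / v 0) := by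
      rintro ⟨q, hq⟩
      have h6 : v (Fin.succ ⟨0, hm⟩) = (q : ℝ) * v 0 := by
        rw [hq]
        field_simp
      have h8 := Fintype.linearIndependent_iff.mp hli
        (Pi.single (Fin.succ ⟨0, hm⟩) (1 : ℚ) + Pi.single 0 (-q)) (by
          simp only [Pi.add_apply, add_smul, Finset.sum_add_distrib, Pi.single_apply, ite_smul, zero_smul,
            Finset.sum_ite_eq', Finset.mem_univ, if_true]
          rw [h6, Rat.smul_def, Rat.smul_def]
          push_cast
          ring) (Fin.succ ⟨0, hm⟩)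
      rw [Pi.add_apply, Pi.single_eq_same, Pi.single_eq_of_ne (Fin.succ_ne_zero _), add_zero] at h8
      exact one_ne_zero h8
    have h7 := frequently_of_irrational hm (fun i : Fin m => v i.succ / v 0) ⟨0, hm⟩ hirr
    intro n
    obtain ⟨k, hk, c, hc, hd⟩ := (frequently_atTop.mp h7) n
    exact ⟨k, hk, c, hc, hd⟩

end Pool.Agent.KS6_51.BW
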