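import Pool.Agent.KS6_51.BW.R1

set_option autoImplicit false

/-!
The exceptional weights are generic in every rational family.
-/

namespace Pool.Agent.KS6_51.BW

open MeasureTheory Filter Topology Set
open scoped ENNReal NNReal
open Pool.Agent.T6.H60.BC (nd pr nd_nonneg nd_le_sub pr_le pr_nonneg)
open Pool.Agent.T6.H60.BD (PtB)

/-- the linear independent vectors are generic -/
theorem residual_li (d : ℕ) : ∀ᶠ v in residual (Fin d → ℝ), LinearIndependent ℚ v := by
  have h1 : ∀ a : {a : Fin d → ℤ // a ≠ 0}, ∀ᶠ v in residual (Fin d → ℝ), ∑ i, (a.1 i : ℝ) * v i ≠ 0 := by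
    rintro ⟨a, ha⟩
    have ho : IsOpen {v : Fin d → ℝ | ∑ i, (a i : ℝ) * v i ≠ 0} := by
      have : Continuous fun x : Fin d → ℝ => ∑ i, (a i : ℝ) * x i := by fun_prop
      exact isOpen_ne_fun this continuous_const
    let φ : (Fin d → ℝ) →ₗ[ℝ] ℝ := ∑ i, (a i : ℝ) • LinearMap.proj i
    have hφ : ∀ x, φ x = ∑ i, (a i : ℝ) * x i := by
      intro x
      simp [φ]
    have hd : Dense {v : Fin d → ℝ | ∑ i, (a i : ℝ) * v i ≠ 0} := by
      have e : {v : Fin d → ℝ | ∑ i, (a i : ℝ) * v i ≠ 0} = ((LinearMap.ker φ : Submodule ℝ (Fin d → ℝ)) : Set (Fin d → ℝ))ᶜ := by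
        ext x
        simp [hφ]
      rw [e, ← interior_eq_empty_iff_dense_compl]
      by_contra hne
      have h2 := Submodule.eq_top_of_nonempty_interior' (LinearMap.ker φ) (nonempty_iff_ne_empty.mpr hne)
      apply ha
      funext i
      have h3 : (Pi.single i 1 : Fin d → ℝ) ∈ LinearMap.ker φ := by
        rw [h2]
        trivial
      rw [LinearMap.mem_ker, hφ, Finset.sum_eq_single i] at h3
      · rw [Pi.single_eq_same, mul_one] at h3
        exact_mod_cast h3
      · intro j _ hj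
        rw [Pi.single_eq_of_ne hj, mul_zero]
      · intro h
        exact absurd (Finset.mem_univ _) h
    exact residual_of_dense_open ho hd
  filter_upwards [eventually_countable_forall.mpr h1] with v hv
  rw [← LinearIndependent.iff_fractionRing ℤ ℚ, Fintype.linearIndependent_iff]
  intro g hg
  by_contra hcon
  push Not at hcon
  obtain ⟨i, hi⟩ := hcon
  have hg0 : g ≠ 0 := fun h0 => hi (by rw [h0]; rfl)
  apply hv ⟨g, hg0⟩
  rw [← hg]
  apply Finset.sum_congr rfl
  intro k _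
  rw [zsmul_eq_mul]

/-- extremely good approximations are generic -/
theorem residual_appr {r d : ℕ} (B : Matrix (Fin r) (Fin d) ℚ) : ∀ᶠ v in residual (Fin d → ℝ), ∀ n : ℕ,
    ∃ y : ℝ, (n : ℝ) + 1 ≤ y ∧ ∃ p : Fin r → ℤ, ∀ j, |wm B v j * y - p j| < y ^ (-((n : ℝ) + 1)) := by
  rw [eventually_countable_forall]
  intro n
  obtain ⟨K, hK⟩ := wm_lipschitz B
  have hcj : ∀ j, Continuous fun v : Fin d → ℝ => wm B v j := fun j => (continuous_apply j).comp hK.continuous
  have ho : IsOpen {v : Fin d → ℝ | ∃ y : ℝ, (n : ℝ) + 1 ≤ y ∧ ∃ p : Fin r → ℤ, ∀ j, |wm B v j * y - p j| < y ^ (-((n : ℝ) + 1))} := by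
    have e : {v : Fin d → ℝ | ∃ y : ℝ, (n : ℝ) + 1 ≤ y ∧ ∃ p : Fin r → ℤ, ∀ j, |wm B v j * y - p j| < y ^ (-((n : ℝ) + 1))} =
        ⋃ y : ℝ, ⋃ (_ : (n : ℝ) + 1 ≤ y), ⋃ p : Fin r → ℤ, ⋂ j, {v : Fin d → ℝ | |wm B v j * y - p j| < y ^ (-((n : ℝ) + 1))} := by
      ext v
      simp only [mem_iUnion, mem_iInter, mem_ofPred_eq, exists_prop]
    rw [e]
    refine isOpen_iUnion fun y => isOpen_iUnion fun _ => isOpen_iUnion fun p => isOpen_iInter_of_finite fun j => ?_
    have : Continuous fun v : Fin d → ℝ => |wm B v j * y - p j| := by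
      have := hcj j
      fun_prop
    exact isOpen_lt this continuous_const
  have hd : Dense {v : Fin d → ℝ | ∃ y : ℝ, (n : ℝ) + 1 ≤ y ∧ ∃ p : Fin r → ℤ, ∀ j, |wm B v j * y - p j| < y ^ (-((n : ℝ) + 1))} := by
    have hrat : DenseRange (Pi.map (fun _ : Fin d => ((↑) : ℚ → ℝ))) := DenseRange.piMap fun _ => Rat.denseRange_cast
    refine Dense.mono ?_ hrat
    rintro _ ⟨q, rfl⟩
    obtain ⟨D, hD, z, hz⟩ := exists_den (fun (j : Fin r) (_ : Fin 1) => ∑ k, B j k * q k)
    have hD1 : (1 : ℝ) ≤ D := by exact_mod_cast hD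
    refine ⟨((n : ℝ) + 1) * D, by nlinarith [(Nat.cast_nonneg n : (0:ℝ) ≤ n)], fun j => (n + 1) * z j 0, fun j => ?_⟩
    have h1 : wm B (Pi.map (fun _ : Fin d => ((↑) : ℚ → ℝ)) q) j * (((n : ℝ) + 1) * D) - (((n + 1) * z j 0 : ℤ) : ℝ) = 0 := by
      have h2 := hz j 0
      have h3 : wm B (Pi.map (fun _ : Fin d => ((↑) : ℚ → ℝ)) q) j = ((∑ k, B j k * q k : ℚ) : ℝ) := by
        unfold wm
        push_cast
        rfl
      rw [h3]
      push_cast
      push_cast at h2
      rw [← h2]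
      ring
    rw [h1, abs_zero]
    positivity
  exact residual_of_dense_open ho hd

theorem XP_residual {r d : ℕ} {σ β : ℝ} (hβ : 0 < β) (h1 : β < 2 * ((r : ℝ) - σ)) (B : Matrix (Fin r) (Fin d) ℚ)
    (hB : Function.Injective B.mulVec) :
    ∀ᶠ v in residual (Fin d → ℝ), (∀ j, 0 < wm B v j) → wm B v ∈ XP r d σ β := by
  filter_upwards [residual_li d, residual_appr B] with v hv1 hv2 hpos
  refine ⟨hpos, wd_wm B hB hv1, ?_⟩
  set E : ℝ := 2 * (r - σ) - β with hE
  have hE0 : 0 < E := by linarith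
  refine not_pt_of_appr (τ := β / E + 1) _ (by positivity) hβ ?_ fun Y => ?_
  · rw [← hE, add_mul, div_mul_cancel₀ _ hE0.ne']
    linarith
  · obtain ⟨n, hn⟩ := exists_nat_ge (max Y (β / E + 1))
    obtain ⟨y, hy, p, hp⟩ := hv2 n
    have hn1 : Y ≤ n := (le_max_left _ _).trans hn
    have hn2 : β / E + 1 ≤ n := (le_max_right _ _).trans hn
    refine ⟨y, by linarith, fun j => ?_⟩
    have hy1 : 1 ≤ y := by
      have : (0 : ℝ) ≤ n := Nat.cast_nonneg n
      linarith
    calc nd (wm B v j * y) ≤ |wm B v j * y - p j| := nd_le_sub _ _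
      _ ≤ y ^ (-((n : ℝ) + 1)) := (hp j).le
      _ ≤ y ^ (-(β / E + 1)) := Real.rpow_le_rpow_of_exponent_le hy1 (by linarith)

/-- a rational family through a given rational point -/
theorem exists_family {r d : ℕ} (hd : 0 < d) (hdr : d ≤ r) (b : Fin r → ℚ) (hb : ∀ j, b j ≠ 0) :
    ∃ B : Matrix (Fin r) (Fin d) ℚ, Function.Injective B.mulVec ∧ ∃ v : Fin d → ℝ, wm B v = fun j => (b j : ℝ) := by
  classical
  set B : Matrix (Fin r) (Fin d) ℚ := fun j k => if (k : ℕ) = 0 then b j else if (j : ℕ) = k then 1 else 0 with hB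
  refine ⟨B, ?_, fun k => if (k : ℕ) = 0 then 1 else 0, ?_⟩
  · rw [← Matrix.coe_mulVecLin]
    rw [injective_iff_map_eq_zero]
    intro x hx
    have h0 : ∀ j, ∑ k, B j k * x k = 0 := by
      intro j
      have := congrFun hx j
      simpa [Matrix.mulVec, dotProduct] using this
    set k0 : Fin d := ⟨0, hd⟩ with hk0
    have hr : 0 < r := lt_of_lt_of_le hd hdr
    have h1 : x k0 = 0 := by
      have h2 := h0 ⟨0, hr⟩
      rw [Finset.sum_eq_single k0] at h2
      · simp only [hB, hk0, if_true] at h2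
        exact (mul_eq_zero.mp h2).resolve_left (hb _)
      · intro k _ hk
        have hk' : (k : ℕ) ≠ 0 := fun h => hk (Fin.ext h)
        simp only [hB, if_neg hk']
        rw [if_neg (fun h => hk' h.symm), zero_mul]
      · intro h
        exact absurd (Finset.mem_univ _) h
    funext k
    by_cases hk : (k : ℕ) = 0
    · have : k = k0 := Fin.ext hk
      rw [this, h1]
      rfl
    · have h2 := h0 ⟨k, lt_of_lt_of_le k.2 hdr⟩
      rw [Finset.sum_eq_single k] at h2
      · simp only [hB, if_neg hk, if_true, one_mul] at h2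
        exact h2
      · intro k' _ hk'
        by_cases hk0' : (k' : ℕ) = 0
        · have : k' = k0 := Fin.ext hk0'
          rw [this, h1, mul_zero]
        · simp only [hB, if_neg hk0']
          rw [if_neg (fun h => hk' (Fin.ext h.symm)), zero_mul]
      · intro h
        exact absurd (Finset.mem_univ _) h
  · funext j
    unfold wm
    rw [Finset.sum_eq_single ⟨0, hd⟩]
    · simp [hB]
    · intro k _ hk
      have hk' : (k : ℕ) ≠ 0 := fun h => hk (Fin.ext h)
      simp [hk']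
    · intro h
      exact absurd (Finset.mem_univ _) h

/-- a rational point in an open set which contains a positive point -/
theorem exists_rat_pt {r : ℕ} (U : Set (Fin r → ℝ)) (hU : IsOpen U) (hne : ∃ u ∈ U, ∀ i, 0 < u i) :
    ∃ b : Fin r → ℚ, (fun j => (b j : ℝ)) ∈ U ∧ ∀ j, 0 < b j := by
  obtain ⟨u, hu, hpos⟩ := hne
  have hrat : DenseRange (Pi.map (fun _ : Fin r => ((↑) : ℚ → ℝ))) := DenseRange.piMap fun _ => Rat.denseRange_cast
  have ho : IsOpen (U ∩ ⋂ j, {w : Fin r → ℝ | 0 < w j}) :=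
    hU.inter (isOpen_iInter_of_finite fun j => isOpen_lt continuous_const (continuous_apply j))
  obtain ⟨q, hx⟩ := hrat.exists_mem_open ho ⟨u, hu, by simpa using hpos⟩
  refine ⟨q, hx.1, fun j => ?_⟩
  have := mem_iInter.mp hx.2 j
  have h2 : (0 : ℝ) < q j := this
  exact_mod_cast h2

end Pool.Agent.KS6_51.BW
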